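import Mathlib
import Pool.Agent.H390R2.Circle
set_option autoImplicit false

/-! Fejer means on the circle. -/

namespace Pool.Agent.Helper969.HW

open MeasureTheory Measure Set Filter
open scoped ENNReal ComplexConjugate Topology
open Pool.Agent.H390R2 (fejer fejer_eq fejer_nonneg continuous_fejer integral_fourier)

/-- Fejer mean -/
noncomputable def fm (D : ℕ) (g : UnitAddCircle → ℂ) (t : UnitAddCircle) : ℂ :=
  ∑ k ∈ Finset.Ioo (-(D : ℤ)) D, ((1 - |(k : ℝ)| / D : ℝ) : ℂ) * (fourierCoeff g k * fourier k t)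

theorem fourier_sub' (k : ℤ) (t τ : UnitAddCircle) :
    (fourier k (t - τ) : ℂ) = fourier k t * fourier (-k) τ := by
  rw [fourier_apply, fourier_apply, fourier_apply, sub_eq_add_neg, smul_add,
    AddCircle.toCircle_add, smul_neg, neg_smul]
  push_cast
  rfl

theorem fourier_bdd_int (g : UnitAddCircle → ℂ) (hg : Integrable g AddCircle.haarAddCircle) (k : ℤ) :
    Integrable (fun τ => (fourier k τ : ℂ) * g τ) AddCircle.haarAddCircle := by
  refine hg.bdd_mul (c := 1) ?_ (Eventually.of_forall fun τ => ?_)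
  · exact (fourier k).continuous.aestronglyMeasurable
  · rw [fourier_apply]
    exact (Circle.norm_coe _).le

theorem fm_eq {D : ℕ} (hD : 0 < D) (g : UnitAddCircle → ℂ)
    (hg : Integrable g AddCircle.haarAddCircle) (t : UnitAddCircle) :
    fm D g t = ∫ τ, (fejer D (t - τ) : ℂ) * g τ ∂AddCircle.haarAddCircle := by
  have h1 : ∀ τ, (fejer D (t - τ) : ℂ) * g τ = ∑ k ∈ Finset.Ioo (-(D : ℤ)) D,
      (((1 - |(k : ℝ)| / D : ℝ) : ℂ) * fourier k t) * ((fourier (-k) τ : ℂ) * g τ) := by
    intro τ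
    rw [fejer_eq hD, Finset.sum_mul]
    refine Finset.sum_congr rfl fun k _ => ?_
    rw [fourier_sub']
    ring
  simp_rw [h1]
  rw [integral_finsetSum _ fun k _ => (fourier_bdd_int g hg (-k)).const_mul _]
  unfold fm
  refine Finset.sum_congr rfl fun k _ => ?_
  rw [integral_const_mul]
  unfold fourierCoeff
  simp only [smul_eq_mul]
  ring

theorem fejer_int {D : ℕ} (hD : 0 < D) : ∫ τ, fejer D τ ∂AddCircle.haarAddCircle = 1 := by
  have h1 : ∫ τ, (fejer D τ : ℂ) ∂AddCircle.haarAddCircle = 1 := by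
    simp_rw [fejer_eq hD]
    rw [integral_finsetSum]
    · simp_rw [integral_const_mul]
      have h2 : ∀ k : ℤ, ∫ x, (fourier k x : ℂ) ∂AddCircle.haarAddCircle = if k = 0 then 1 else 0 :=
        integral_fourier
      simp_rw [h2]
      rw [Finset.sum_eq_single 0]
      · simp
      · intro b _ hb
        simp [hb]
      · intro h
        exfalso
        apply h
        simp only [Finset.mem_Ioo, Left.neg_neg_iff]
        omega
    · intro k _
      refine Integrable.const_mul ?_ _
      refine Integrable.of_bound (fourier k).continuous.aestronglyMeasurable 1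
        (Eventually.of_forall fun τ => ?_)
      rw [fourier_apply]
      exact (Circle.norm_coe _).le
  rw [integral_complex_ofReal] at h1
  exact_mod_cast h1

theorem fejer_integrable (D : ℕ) : Integrable (fejer D) AddCircle.haarAddCircle := by
  obtain ⟨C, hC⟩ := isCompact_univ.exists_bound_of_continuousOn (continuous_fejer D).continuousOn
  exact Integrable.of_bound (continuous_fejer D).aestronglyMeasurable C
    (Eventually.of_forall fun τ => hC τ (mem_univ _))

theorem fejer_lint {D : ℕ} (hD : 0 < D) :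
    ∫⁻ τ, ENNReal.ofReal (fejer D τ) ∂AddCircle.haarAddCircle = 1 := by
  rw [← ofReal_integral_eq_lintegral_ofReal (fejer_integrable D)
    (Eventually.of_forall (fejer_nonneg D)), fejer_int hD, ENNReal.ofReal_one]

theorem fejer_neg (D : ℕ) (x : UnitAddCircle) : fejer D (-x) = fejer D x := by
  unfold fejer
  congr 2
  have h : (∑ j ∈ Finset.range D, (fourier (j : ℤ) (-x) : ℂ)) =
      conj (∑ j ∈ Finset.range D, (fourier (j : ℤ) x : ℂ)) := by
    rw [_root_.map_sum]
    refine Finset.sum_congr rfl fun j _ => ?_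
    rw [← fourier_neg, fourier_apply, fourier_apply]
    simp
  rw [h, RCLike.norm_conj]

/-- Jensen -/
theorem jensen {α : Type*} [MeasurableSpace α] (μ : Measure α) (k g : α → ℝ≥0∞)
    (hk : Measurable k) (hg : AEMeasurable g μ) (h1 : ∫⁻ τ, k τ ∂μ = 1) (r : ℝ) (hr : 1 ≤ r) :
    (∫⁻ τ, k τ * g τ ∂μ) ^ r ≤ ∫⁻ τ, k τ * g τ ^ r ∂μ := by
  have hr0 : 0 < r := by linarith
  have h2 := ENNReal.lintegral_mul_norm_pow_le (μ := μ) (f := k) (g := fun τ => k τ * g τ ^ r)
    hk.aemeasurable (hk.aemeasurable.mul (hg.pow_const r))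
    (by rw [sub_nonneg, div_le_one hr0]; exact hr : (0 : ℝ) ≤ 1 - 1 / r)
    (by positivity : (0 : ℝ) ≤ 1 / r) (by ring)
  rw [h1, ENNReal.one_rpow, one_mul] at h2
  have e : ∀ τ, k τ ^ (1 - 1 / r) * (k τ * g τ ^ r) ^ (1 / r) = k τ * g τ := by
    intro τ
    rw [ENNReal.mul_rpow_of_nonneg _ _ (by positivity), ← ENNReal.rpow_mul,
      mul_one_div_cancel hr0.ne', ENNReal.rpow_one, ← mul_assoc,
      ← ENNReal.rpow_add_of_nonneg _ _ (by rw [sub_nonneg, div_le_one hr0]; exact hr)
        (by positivity), sub_add_cancel, ENNReal.rpow_one]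
  simp_rw [e] at h2
  have h3 := ENNReal.rpow_le_rpow h2 hr0.le
  rwa [← ENNReal.rpow_mul, one_div_mul_cancel hr0.ne', ENNReal.rpow_one] at h3

/-- Fejer means are contractions -/
theorem fm_contr {D : ℕ} (hD : 0 < D) (g : UnitAddCircle → ℂ)
    (hg : Integrable g AddCircle.haarAddCircle) (r : ℝ) (hr : 1 ≤ r) :
    ∫⁻ t, ‖fm D g t‖ₑ ^ r ∂AddCircle.haarAddCircle ≤
      ∫⁻ t, ‖g t‖ₑ ^ r ∂AddCircle.haarAddCircle := by
  have hr0 : 0 < r := by linarith
  have hfm : Measurable fun τ : UnitAddCircle => ENNReal.ofReal (fejer D τ) :=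
    (continuous_fejer D).measurable.ennreal_ofReal
  have hk : ∀ t, ∫⁻ τ, ENNReal.ofReal (fejer D (t - τ)) ∂AddCircle.haarAddCircle = 1 := by
    intro t
    rw [← fejer_lint hD, ← lintegral_neg_eq_self (fun τ => ENNReal.ofReal (fejer D (t - τ))),
      ← lintegral_add_left_eq_self (fun τ => ENNReal.ofReal (fejer D τ)) t]
    refine lintegral_congr fun τ => ?_
    rw [sub_neg_eq_add]
  have h1 : ∀ t, ‖fm D g t‖ₑ ^ r ≤
      ∫⁻ τ, ENNReal.ofReal (fejer D (t - τ)) * ‖g τ‖ₑ ^ r ∂AddCircle.haarAddCircle := by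
    intro t
    have h2 : ‖fm D g t‖ₑ ≤
        ∫⁻ τ, ENNReal.ofReal (fejer D (t - τ)) * ‖g τ‖ₑ ∂AddCircle.haarAddCircle := by
      rw [fm_eq hD g hg]
      refine (enorm_integral_le_lintegral_enorm _).trans (le_of_eq ?_)
      refine lintegral_congr fun τ => ?_
      rw [enorm_mul, ← ofReal_norm, Complex.norm_real, Real.norm_of_nonneg (fejer_nonneg _ _)]
    refine (ENNReal.rpow_le_rpow h2 hr0.le).trans ?_
    exact jensen _ _ _ (hfm.comp (measurable_const.sub measurable_id)) hg.1.enorm (hk t) r hr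
  refine (lintegral_mono h1).trans ?_
  have hm2 : AEMeasurable (Function.uncurry fun (t τ : UnitAddCircle) =>
      ENNReal.ofReal (fejer D (t - τ)) * ‖g τ‖ₑ ^ r)
      ((AddCircle.haarAddCircle : Measure UnitAddCircle).prod AddCircle.haarAddCircle) := by
    have m1 : Measurable fun p : UnitAddCircle × UnitAddCircle =>
        ENNReal.ofReal (fejer D (p.1 - p.2)) := by
      have h := hfm.comp (measurable_fst.sub measurable_snd :
        Measurable fun p : UnitAddCircle × UnitAddCircle => p.1 - p.2)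
      exact h
    have m2 : AEMeasurable (fun p : UnitAddCircle × UnitAddCircle => ‖g p.2‖ₑ ^ r)
        ((AddCircle.haarAddCircle : Measure UnitAddCircle).prod AddCircle.haarAddCircle) := by
      have h := (hg.1.enorm.pow_const r).comp_snd (μ := (AddCircle.haarAddCircle : Measure UnitAddCircle))
      exact h
    exact m1.aemeasurable.mul m2
  rw [lintegral_lintegral_swap hm2]
  refine le_of_eq (lintegral_congr fun τ => ?_)
  have m3 : Measurable fun t : UnitAddCircle => ENNReal.ofReal (fejer D (t - τ)) := by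
    have h := hfm.comp (measurable_id.sub_const τ)
    exact h
  rw [lintegral_mul_const _ m3]
  have h3 : ∫⁻ t, ENNReal.ofReal (fejer D (t - τ)) ∂AddCircle.haarAddCircle = 1 := by
    rw [← fejer_lint hD]
    exact lintegral_sub_right_eq_self (fun t => ENNReal.ofReal (fejer D t)) τ
  rw [h3, one_mul]

end Pool.Agent.Helper969.HW
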