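import Mathlib
import Pool.Agent.H789R2.FR.Sph
set_option autoImplicit false

/-! Integrals of homogeneous polynomials over the unit sphere: polar coordinates. -/

namespace Pool.Agent.Helper969.HW

open MeasureTheory Measure Set Metric Complex MvPolynomial
open Pool.Agent.H789R2.FR (E sg sg_finite sg_ae sg_inv T)

variable {n : ℕ}

/-- the value of a polynomial with complex coefficients at a point of `ℝ^n` -/
noncomputable def ev (P : MvPolynomial (Fin n) ℂ) (x : E n) : ℂ :=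
  eval (fun i => ((x i : ℝ) : ℂ)) P

theorem ev_cont (P : MvPolynomial (Fin n) ℂ) : Continuous (ev P) := by
  unfold ev
  simp only [MvPolynomial.eval_eq']
  fun_prop

theorem ev_add (P Q : MvPolynomial (Fin n) ℂ) (x : E n) : ev (P + Q) x = ev P x + ev Q x := by
  simp [ev]

theorem ev_mul (P Q : MvPolynomial (Fin n) ℂ) (x : E n) : ev (P * Q) x = ev P x * ev Q x := by
  simp [ev]

theorem ev_X (i : Fin n) (x : E n) : ev (X i) x = ((x i : ℝ) : ℂ) := by simp [ev]

theorem ev_C (c : ℂ) (x : E n) : ev (C c : MvPolynomial (Fin n) ℂ) x = c := by simp [ev]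

theorem ev_zero (x : E n) : ev (0 : MvPolynomial (Fin n) ℂ) x = 0 := by simp [ev]

theorem ev_sum {ι : Type*} (s : Finset ι) (f : ι → MvPolynomial (Fin n) ℂ) (x : E n) :
    ev (∑ i ∈ s, f i) x = ∑ i ∈ s, ev (f i) x := by
  simp [ev, _root_.map_sum]

/-- homogeneity -/
theorem ev_smul {P : MvPolynomial (Fin n) ℂ} {d : ℕ} (hP : P.IsHomogeneous d) (r : ℝ) (x : E n) :
    ev P (r • x) = (r : ℂ) ^ d * ev P x := by
  unfold ev
  rw [MvPolynomial.eval_eq', MvPolynomial.eval_eq', Finset.mul_sum]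
  refine Finset.sum_congr rfl fun m hm => ?_
  have h1 : m.degree = d := by
    by_contra h
    exact (MvPolynomial.mem_support_iff.1 hm) (hP.coeff_eq_zero h)
  have h2 : ∏ i, (((r • x) i : ℝ) : ℂ) ^ m i = (r : ℂ) ^ d * ∏ i, ((x i : ℝ) : ℂ) ^ m i := by
    have h3 : ∀ i, (((r • x) i : ℝ) : ℂ) ^ m i = (r : ℂ) ^ m i * ((x i : ℝ) : ℂ) ^ m i := by
      intro i
      simp [mul_pow]
    rw [Finset.prod_congr rfl fun i _ => h3 i, Finset.prod_mul_distrib, Finset.prod_pow_eq_pow_sum]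
    congr 2
    rw [← h1, Finsupp.degree_eq_sum]
  rw [h2]
  ring

/-- polar coordinates for the product of a radial function and a homogeneous polynomial -/
theorem polar_hom (hn : 0 < n) {P : MvPolynomial (Fin n) ℂ} {d : ℕ} (hP : P.IsHomogeneous d)
    (φ : ℝ → ℝ) :
    ∫ x : E n, ((φ ‖x‖ : ℝ) : ℂ) * ev P x =
      ((∫ r in Ioi (0 : ℝ), r ^ (n - 1) * (φ r * r ^ d) : ℝ) : ℂ) * ∫ w, ev P w ∂(sg n) := by
  have : Nonempty (Fin n) := ⟨⟨0, hn⟩⟩
  have : Nontrivial (E n) := inferInstance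
  have hfr : Module.finrank ℝ (E n) = n := by simp
  have h0 := (volume : Measure (E n)).measurePreserving_homeomorphUnitSphereProd
  rw [hfr] at h0
  have e1 : ∫ x : E n, ((φ ‖x‖ : ℝ) : ℂ) * ev P x =
      ∫ x in ({0}ᶜ : Set (E n)), ((φ ‖x‖ : ℝ) : ℂ) * ev P x := by
    rw [restrict_compl_singleton]
  have e2 : ∫ x in ({0}ᶜ : Set (E n)), ((φ ‖x‖ : ℝ) : ℂ) * ev P x =
      ∫ x : ({(0 : E n)}ᶜ : Set (E n)), ((φ ‖(x : E n)‖ : ℝ) : ℂ) * ev P (x : E n)
        ∂((volume : Measure (E n)).comap (↑)) := by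
    rw [← integral_subtype_comap (measurableSet_singleton _).compl]
  have e3 : ∫ x : ({(0 : E n)}ᶜ : Set (E n)), ((φ ‖(x : E n)‖ : ℝ) : ℂ) * ev P (x : E n)
        ∂((volume : Measure (E n)).comap (↑)) =
      ∫ p : sphere (0 : E n) 1 × Ioi (0 : ℝ), ev P (p.1 : E n) *
        (((φ (p.2 : ℝ) * (p.2 : ℝ) ^ d : ℝ)) : ℂ)
          ∂((volume : Measure (E n)).toSphere.prod (volumeIoiPow (n - 1))) := by
    rw [← h0.integral_comp (Homeomorph.measurableEmbedding _)]
    refine integral_congr_ae (Filter.Eventually.of_forall fun x => ?_)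
    have hx : ‖(x : E n)‖ ≠ 0 := norm_ne_zero_iff.2 x.2
    simp only [homeomorphUnitSphereProd_apply_fst_coe, homeomorphUnitSphereProd_apply_snd_coe]
    rw [ev_smul hP]
    push_cast
    have hx2 : ((‖(x : E n)‖ : ℝ) : ℂ) ≠ 0 := by exact_mod_cast hx
    have hx3 : (((‖(x : E n)‖ : ℝ) : ℂ))⁻¹ ^ d * ((‖(x : E n)‖ : ℝ) : ℂ) ^ d = 1 := by
      rw [← mul_pow, inv_mul_cancel₀ hx2, one_pow]
    calc ((φ ‖(x : E n)‖ : ℝ) : ℂ) * ev P (x : E n)
        = ((φ ‖(x : E n)‖ : ℝ) : ℂ) * ev P (x : E n) *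
          ((((‖(x : E n)‖ : ℝ) : ℂ))⁻¹ ^ d * ((‖(x : E n)‖ : ℝ) : ℂ) ^ d) := by rw [hx3, mul_one]
      _ = _ := by ring
  rw [e1, e2, e3, integral_prod_mul (fun w : sphere (0 : E n) 1 => ev P (w : E n))
    (fun r : Ioi (0 : ℝ) => (((φ (r : ℝ) * (r : ℝ) ^ d : ℝ)) : ℂ)), mul_comm]
  congr 1
  · rw [integral_complex_ofReal]
    congr 1
    rw [volumeIoiPow]
    have hme : Measurable fun r : Ioi (0 : ℝ) => ENNReal.ofReal ((r : ℝ) ^ (n - 1)) := by
      fun_prop
    rw [integral_withDensity_eq_integral_toReal_smul hme (Filter.Eventually.of_forall fun _ =>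
      ENNReal.ofReal_lt_top)]
    rw [← integral_subtype_comap measurableSet_Ioi
      (fun r : ℝ => r ^ (n - 1) * (φ r * r ^ d))]
    refine integral_congr_ae (Filter.Eventually.of_forall fun r => ?_)
    have hr : (0 : ℝ) < r := r.2
    simp only [smul_eq_mul]
    rw [ENNReal.toReal_ofReal (by positivity)]
  · rw [sg, integral_map measurable_subtype_coe.aemeasurable (ev_cont P).aestronglyMeasurable]

end Pool.Agent.Helper969.HW
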