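import Mathlib
import Pool.Agent.Helper969.HW.A1
set_option autoImplicit false

/-! Integration by parts on the unit sphere for homogeneous polynomials. -/

namespace Pool.Agent.Helper969.HW

open MeasureTheory Measure Set Metric Complex MvPolynomial
open Pool.Agent.H789R2.FR (E sg sg_finite sg_ae sg_inv T)
open scoped RealInnerProductSpace

variable {n : ℕ}

/-- line derivatives of polynomials -/
theorem ev_line (Q : MvPolynomial (Fin n) ℂ) (i : Fin n) (x : E n) :
    HasDerivAt (fun t : ℝ => ev Q (x + t • EuclideanSpace.single i (1 : ℝ))) (ev (pderiv i Q) x)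
      0 := by
  classical
  induction Q using MvPolynomial.induction_on with
  | C a =>
    simp only [ev_C, pderiv_C, ev_zero]
    exact hasDerivAt_const _ _
  | add p q hp hq =>
    simp only [ev_add, _root_.map_add]
    exact hp.add hq
  | mul_X p j hp =>
    have h1 : HasDerivAt (fun t : ℝ => ev (X j : MvPolynomial (Fin n) ℂ)
        (x + t • EuclideanSpace.single i (1 : ℝ))) (if j = i then 1 else 0) 0 := by
      simp only [ev_X]
      have h2 : ∀ t : ℝ, (x + t • EuclideanSpace.single i (1 : ℝ)) j =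
          x j + t * (if j = i then 1 else 0) := by
        intro t
        simp
      simp_rw [h2]
      have h3 : HasDerivAt (fun t : ℝ => x j + t * (if j = i then (1 : ℝ) else 0))
          (if j = i then 1 else 0) 0 := by
        have := ((hasDerivAt_id (0 : ℝ)).mul_const (if j = i then (1 : ℝ) else 0)).const_add (x j)
        simpa using this
      have h4 := h3.ofReal_comp
      refine h4.congr_deriv ?_
      split_ifs <;> simp
    have h5 := hp.mul h1
    simp only [zero_smul, add_zero] at h5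
    simp only [ev_mul]
    refine h5.congr_deriv ?_
    rw [pderiv_mul, ev_add, ev_mul, ev_mul]
    congr 2
    rw [pderiv_X]
    by_cases hji : j = i
    · subst hji
      simp [ev]
    · have : (Pi.single i (1 : MvPolynomial (Fin n) ℂ) : Fin n → MvPolynomial (Fin n) ℂ) j = 0 :=
        Pi.single_eq_of_ne hji _
      rw [this, if_neg hji, ev_zero]

/-- the square of the positive part -/
theorem pos_sq (s : ℝ) : HasDerivAt (fun s : ℝ => (max s 0) ^ 2) (2 * max s 0) s := by
  rcases lt_trichotomy s 0 with h | h | h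
  · have h1 : (fun s : ℝ => (max s 0) ^ 2) =ᶠ[nhds s] fun _ => 0 := by
      filter_upwards [Iio_mem_nhds h] with t ht
      rw [max_eq_right (le_of_lt ht)]
      ring
    rw [max_eq_right h.le, mul_zero]
    exact (hasDerivAt_const s (0 : ℝ)).congr_of_eventuallyEq h1
  · subst h
    rw [max_self, mul_zero, hasDerivAt_iff_isLittleO]
    simp only [max_self, sub_zero, smul_zero]
    rw [show ((0 : ℝ) ^ 2) = 0 by norm_num]
    simp only [sub_zero]
    rw [Asymptotics.isLittleO_iff]
    intro c hc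
    filter_upwards [Metric.ball_mem_nhds (0 : ℝ) hc] with t ht
    rw [Metric.mem_ball, dist_zero_right, Real.norm_eq_abs] at ht
    rw [Real.norm_eq_abs, Real.norm_eq_abs, abs_of_nonneg (by positivity)]
    have h1 : max t 0 ≤ |t| := max_le (le_abs_self t) (abs_nonneg t)
    have h2 : 0 ≤ max t 0 := le_max_right _ _
    calc (max t 0) ^ 2 = max t 0 * max t 0 := by ring
      _ ≤ c * |t| := mul_le_mul (h1.trans ht.le) h1 h2 hc.le
  · have h1 : (fun s : ℝ => (max s 0) ^ 2) =ᶠ[nhds s] fun s => s ^ 2 := by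
      filter_upwards [Ioi_mem_nhds h] with t ht
      rw [max_eq_left (le_of_lt ht)]
    rw [max_eq_left h.le]
    have h2 := (hasDerivAt_pow 2 s).congr_of_eventuallyEq h1
    simpa using h2

theorem norm_line (i : Fin n) (x : E n) :
    HasDerivAt (fun t : ℝ => 1 - ‖x + t • EuclideanSpace.single i (1 : ℝ)‖ ^ 2) (-(2 * x i))
      0 := by
  have h1 : ∀ t : ℝ, 1 - ‖x + t • EuclideanSpace.single i (1 : ℝ)‖ ^ 2 =
      1 - (‖x‖ ^ 2 + 2 * (t * x i) + t ^ 2) := by
    intro t
    rw [norm_add_sq_real, inner_smul_right, EuclideanSpace.inner_single_right, norm_smul,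
      PiLp.norm_single]
    simp
  simp_rw [h1]
  have h2 : HasDerivAt (fun t : ℝ => 1 - (‖x‖ ^ 2 + 2 * (t * x i) + t ^ 2))
      (-(0 + 2 * (1 * x i) + (2 : ℕ) * (0 : ℝ) ^ (2 - 1) * 1)) 0 := by
    have h3 := ((((hasDerivAt_id (0 : ℝ)).mul_const (x i)).const_mul 2).const_add (‖x‖ ^ 2)).add
      ((hasDerivAt_id (0 : ℝ)).pow 2)
    have h4 := h3.const_sub 1
    refine h4.congr_deriv ?_
    simp
  refine h2.congr_deriv ?_
  simp

/-- the cut-off -/
noncomputable def cut (x : E n) : ℝ := max (1 - ‖x‖ ^ 2) 0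

theorem cut_cont : Continuous (cut : E n → ℝ) := by
  unfold cut
  fun_prop

theorem cut_supp {x : E n} (hx : x ∉ closedBall (0 : E n) 1) : cut x = 0 := by
  rw [mem_closedBall_zero_iff, not_le] at hx
  unfold cut
  apply max_eq_right
  have : 1 < ‖x‖ ^ 2 := by nlinarith
  linarith

theorem cut_line (i : Fin n) (x : E n) :
    HasDerivAt (fun t : ℝ => (cut (x + t • EuclideanSpace.single i (1 : ℝ))) ^ 2)
      (-(4 * x i * cut x)) 0 := by
  unfold cut
  have h1 := norm_line i x
  have h2 := HasDerivAt.comp (0 : ℝ) (pos_sq (1 - ‖x + (0 : ℝ) • EuclideanSpace.single i (1 : ℝ)‖ ^ 2))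
    h1
  refine h2.congr_deriv ?_
  simp only [zero_smul, add_zero]
  ring

/-- integration by parts in the ball -/
theorem ball_ibp (Q : MvPolynomial (Fin n) ℂ) (i : Fin n) :
    ∫ x : E n, (((cut x) ^ 2 : ℝ) : ℂ) * ev (pderiv i Q) x =
      4 * ∫ x : E n, ((cut x : ℝ) : ℂ) * ev (X i * Q) x := by
  set f : E n → ℂ := fun x => (((cut x) ^ 2 : ℝ) : ℂ) * ev Q x with hf
  set f' : E n → ℂ := fun x => (((cut x) ^ 2 : ℝ) : ℂ) * ev (pderiv i Q) x -
    4 * (((cut x : ℝ) : ℂ) * ev (X i * Q) x) with hf'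
  have hc2 : Continuous fun x : E n => (((cut x) ^ 2 : ℝ) : ℂ) :=
    Complex.continuous_ofReal.comp (cut_cont.pow 2)
  have hc1 : Continuous fun x : E n => ((cut x : ℝ) : ℂ) := Complex.continuous_ofReal.comp cut_cont
  have hint : ∀ g : E n → ℂ, Continuous g → (∀ x, x ∉ closedBall (0 : E n) 1 → g x = 0) →
      Integrable g := by
    intro g hg h0
    exact hg.integrable_of_hasCompactSupport
      (HasCompactSupport.intro (isCompact_closedBall (0 : E n) 1) fun x hx => h0 x hx)
  have hA : Integrable fun x : E n => (((cut x) ^ 2 : ℝ) : ℂ) * ev (pderiv i Q) x := by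
    refine hint _ (hc2.mul (ev_cont _)) fun x hx => ?_
    rw [cut_supp hx]; simp
  have hB : Integrable fun x : E n => ((cut x : ℝ) : ℂ) * ev (X i * Q) x := by
    refine hint _ (hc1.mul (ev_cont _)) fun x hx => ?_
    rw [cut_supp hx]; simp
  have hF : Integrable f := by
    refine hint _ (hc2.mul (ev_cont _)) fun x hx => ?_
    rw [hf]; simp only; rw [cut_supp hx]; simp
  have hF' : Integrable f' := hA.sub (hB.const_mul 4)
  have hline : ∀ x, HasLineDerivAt ℝ f (f' x) x (EuclideanSpace.single i (1 : ℝ)) := by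
    intro x
    unfold HasLineDerivAt
    have h1 := (cut_line i x).ofReal_comp.mul (ev_line Q i x)
    refine h1.congr_deriv ?_
    simp only [zero_smul, add_zero]
    rw [hf']
    simp only
    rw [ev_mul, ev_X]
    push_cast
    ring
  have hmain := integral_bilinear_hasLineDerivAt_right_eq_neg_left_of_integrable (μ := volume)
    (f := f) (f' := f') (g := fun _ : E n => (1 : ℂ)) (g' := fun _ => 0)
    (v := EuclideanSpace.single i (1 : ℝ)) (B := ContinuousLinearMap.mul ℝ ℂ)
    (by simpa using hF') (by simp) (by simpa using hF) (fun x _ => hline x)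
    (fun x _ => by
      unfold HasLineDerivAt
      exact hasDerivAt_const _ _)
  simp only [ContinuousLinearMap.mul_apply', mul_zero, mul_one, integral_zero] at hmain
  have h2 : ∫ x, f' x = 0 := by
    rw [← neg_eq_zero]
    exact hmain.symm
  rw [hf', integral_sub hA (hB.const_mul 4), integral_const_mul, sub_eq_zero] at h2
  exact h2

/-- the radial integrals -/
theorem radial (n : ℕ) (hn : 0 < n) (d : ℕ) :
    (∫ r in Ioi (0 : ℝ), r ^ (n - 1) * (max (1 - r ^ 2) 0 * r ^ d) =
        2 / (((n : ℝ) + d) * (n + d + 2))) ∧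
      (∫ r in Ioi (0 : ℝ), r ^ (n - 1) * ((max (1 - r ^ 2) 0) ^ 2 * r ^ d) =
        8 / (((n : ℝ) + d) * (n + d + 2) * (n + d + 4))) := by
  have hsub : ∀ F : ℝ → ℝ, (∀ r, 1 < r → F r = 0) → ∫ r in Ioi (0 : ℝ), F r =
      ∫ r in (0 : ℝ)..1, F r := by
    intro F hF
    rw [intervalIntegral.integral_of_le zero_le_one]
    refine (setIntegral_eq_of_subset_of_forall_sdiff_eq_zero measurableSet_Ioi
      (fun x hx => hx.1) fun x hx => ?_)
    refine hF x ?_
    by_contra h
    exact hx.2 ⟨hx.1, not_lt.1 h⟩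
  have hmax : ∀ r : ℝ, 1 < r → max (1 - r ^ 2) 0 = 0 := by
    intro r hr
    apply max_eq_right
    nlinarith
  have hmax' : ∀ r ∈ Icc (0 : ℝ) 1, max (1 - r ^ 2) 0 = 1 - r ^ 2 := by
    intro r hr
    apply max_eq_left
    nlinarith [hr.1, hr.2]
  obtain ⟨m, rfl⟩ : ∃ m, n = m + 1 := ⟨n - 1, by omega⟩
  simp only [Nat.add_sub_cancel]
  have hp1 : ((m : ℝ) + 1 + d) ≠ 0 := by positivity
  have hp2 : ((m : ℝ) + 1 + d + 2) ≠ 0 := by positivity
  have hp3 : ((m : ℝ) + 1 + d + 4) ≠ 0 := by positivity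
  constructor
  · rw [hsub _ (fun r hr => by rw [hmax r hr]; ring)]
    have e1 : ∫ r in (0 : ℝ)..1, r ^ m * (max (1 - r ^ 2) 0 * r ^ d) =
        ∫ r in (0 : ℝ)..1, (r ^ (m + d) - r ^ (m + d + 2)) := by
      apply intervalIntegral.integral_congr
      intro r hr
      rw [uIcc_of_le zero_le_one] at hr
      simp only
      rw [hmax' r hr]
      ring
    rw [e1, intervalIntegral.integral_sub (by simp) (by simp), integral_pow, integral_pow]
    push_cast
    simp only [one_pow]
    have hq1 : ((m : ℝ) + d + 1) ≠ 0 := by positivity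
    have hq2 : ((m : ℝ) + d + 2 + 1) ≠ 0 := by positivity
    field_simp
    ring
  · rw [hsub _ (fun r hr => by rw [hmax r hr]; ring)]
    have e1 : ∫ r in (0 : ℝ)..1, r ^ m * ((max (1 - r ^ 2) 0) ^ 2 * r ^ d) =
        ∫ r in (0 : ℝ)..1, (r ^ (m + d) - 2 * r ^ (m + d + 2) + r ^ (m + d + 4)) := by
      apply intervalIntegral.integral_congr
      intro r hr
      rw [uIcc_of_le zero_le_one] at hr
      simp only
      rw [hmax' r hr]
      ring
    rw [e1, intervalIntegral.integral_add (by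
        apply IntervalIntegrable.sub (by simp)
        exact (intervalIntegral.intervalIntegrable_pow _).const_mul 2) (by simp),
      intervalIntegral.integral_sub (by simp)
        ((intervalIntegral.intervalIntegrable_pow _).const_mul 2),
      intervalIntegral.integral_const_mul, integral_pow, integral_pow, integral_pow]
    push_cast
    simp only [one_pow]
    have hq1 : ((m : ℝ) + d + 1) ≠ 0 := by positivity
    have hq2 : ((m : ℝ) + d + 2 + 1) ≠ 0 := by positivity
    have hq3 : ((m : ℝ) + d + 4 + 1) ≠ 0 := by positivity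
    field_simp
    ring

/-- **Integration by parts on the sphere.** -/
theorem sphere_ibp (hn : 0 < n) {Q : MvPolynomial (Fin n) ℂ} {d : ℕ} (hQ : Q.IsHomogeneous d)
    (i : Fin n) :
    (((n : ℝ) + d - 1 : ℝ) : ℂ) * ∫ w, ev (X i * Q) w ∂(sg n) = ∫ w, ev (pderiv i Q) w ∂(sg n) := by
  have h1 := ball_ibp Q i
  have hX : (X i * Q).IsHomogeneous (1 + d) := (isHomogeneous_X ℂ i).mul hQ
  have h2 : ∫ x : E n, ((cut x : ℝ) : ℂ) * ev (X i * Q) x =
      ((2 / (((n : ℝ) + (1 + d : ℕ)) * (n + (1 + d : ℕ) + 2)) : ℝ) : ℂ) *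
        ∫ w, ev (X i * Q) w ∂(sg n) := by
    rw [← (radial n hn (1 + d)).1, ← polar_hom hn hX (fun r => max (1 - r ^ 2) 0)]
    rfl
  rcases Nat.eq_zero_or_pos d with hd | hd
  · subst hd
    have h3 : pderiv i Q = 0 := by
      have h4 : Q.totalDegree = 0 := by
        by_cases hQ0 : Q = 0
        · simp [hQ0]
        · exact hQ.totalDegree hQ0
      rw [MvPolynomial.totalDegree_eq_zero_iff_eq_C] at h4
      rw [h4, pderiv_C]
    rw [h3] at h1 ⊢
    rw [h2] at h1
    simp only [ev_zero, mul_zero, integral_zero] at h1 ⊢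
    have h5 : ∫ w, ev (X i * Q) w ∂(sg n) = 0 := by
      have h6 : (4 : ℂ) * ((2 / (((n : ℝ) + (1 + 0 : ℕ)) * (n + (1 + 0 : ℕ) + 2)) : ℝ) : ℂ) ≠ 0 := by
        apply mul_ne_zero (by norm_num)
        rw [Ne, Complex.ofReal_eq_zero]
        positivity
      rw [← mul_assoc] at h1
      rcases mul_eq_zero.1 h1.symm with h7 | h7
      · exact absurd h7 h6
      · exact h7
    rw [h5, mul_zero]
  · have hP : (pderiv i Q).IsHomogeneous (d - 1) := hQ.pderiv
    have h3 : ∫ x : E n, (((cut x) ^ 2 : ℝ) : ℂ) * ev (pderiv i Q) x =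
        ((8 / (((n : ℝ) + (d - 1 : ℕ)) * (n + (d - 1 : ℕ) + 2) * (n + (d - 1 : ℕ) + 4)) : ℝ) : ℂ) *
          ∫ w, ev (pderiv i Q) w ∂(sg n) := by
      rw [← (radial n hn (d - 1)).2, ← polar_hom hn hP (fun r => (max (1 - r ^ 2) 0) ^ 2)]
      rfl
    rw [h2, h3] at h1
    obtain ⟨e, rfl⟩ : ∃ e, d = e + 1 := ⟨d - 1, by omega⟩
    simp only [Nat.add_sub_cancel] at h1
    have hn' : (0 : ℝ) < n := by exact_mod_cast hn
    have q1 : (((n : ℝ) + e : ℝ) : ℂ) ≠ 0 := by
      rw [Ne, Complex.ofReal_eq_zero]; positivity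
    have q2 : (((n : ℝ) + e + 2 : ℝ) : ℂ) ≠ 0 := by
      rw [Ne, Complex.ofReal_eq_zero]; positivity
    have q3 : (((n : ℝ) + e + 4 : ℝ) : ℂ) ≠ 0 := by
      rw [Ne, Complex.ofReal_eq_zero]; positivity
    push_cast at h1 q1 q2 q3 ⊢
    have q4 : ((n : ℂ) + (1 + (e + 1))) ≠ 0 := by
      intro h; apply q2; rw [← h]; ring
    have q5 : ((n : ℂ) + (1 + (e + 1)) + 2) ≠ 0 := by
      intro h; apply q3; rw [← h]; ring
    have e4 : ((n : ℂ) + (1 + (e + 1))) = (n : ℂ) + e + 2 := by ring
    have e5 : ((n : ℂ) + e + 2 + 2) = (n : ℂ) + e + 4 := by ring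
    rw [e4, e5] at h1
    field_simp at h1
    have e6 : ((n : ℂ) + (e + 1) - 1) = (n : ℂ) + e := by ring
    rw [e6]
    linear_combination (-1 / 8 : ℂ) * h1

end Pool.Agent.Helper969.HW
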