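import Mathlib
import Pool.Agent.Helper969.HW.A2
set_option autoImplicit false

/-! Moments of harmonic polynomials on the unit sphere. -/

namespace Pool.Agent.Helper969.HW

open MeasureTheory Measure Set Metric Complex MvPolynomial
open Pool.Agent.H789R2.FR (E sg sg_finite sg_ae sg_inv T)
open scoped RealInnerProductSpace

variable {n : ℕ}

/-- `P` is a homogeneous harmonic polynomial of degree `k`. -/
def Harm (k : ℕ) (P : MvPolynomial (Fin n) ℂ) : Prop :=
  P.IsHomogeneous k ∧ ∑ i, pderiv i (pderiv i P) = 0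

/-- `n (n + 2) ⋯ (n + 2 q - 2)` -/
noncomputable def DD (n q : ℕ) : ℝ := ∏ i ∈ Finset.range q, ((n : ℝ) + 2 * i)

theorem DD_succ (n q : ℕ) : DD n (q + 1) = DD n q * (n + 2 * q) := by
  unfold DD
  rw [Finset.prod_range_succ]

theorem DD_zero (n : ℕ) : DD n 0 = 1 := by simp [DD]

theorem DD_pos (n : ℕ) (hn : 0 < n) (q : ℕ) : 0 < DD n q := by
  unfold DD
  apply Finset.prod_pos
  intro i _
  have : (0 : ℝ) < n := by exact_mod_cast hn
  positivity

theorem pderiv_comm (i j : Fin n) (P : MvPolynomial (Fin n) ℂ) :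
    pderiv i (pderiv j P) = pderiv j (pderiv i P) := by
  classical
  induction P using MvPolynomial.induction_on with
  | C a => simp
  | add p q hp hq => simp only [_root_.map_add, hp, hq]
  | mul_X p k hp =>
    simp only [pderiv_mul, _root_.map_add, hp, pderiv_X]
    have h : ∀ a b : Fin n, pderiv a ((Pi.single b (1 : MvPolynomial (Fin n) ℂ) :
        Fin n → MvPolynomial (Fin n) ℂ) k) = 0 := by
      intro a b
      by_cases hb : k = b
      · subst hb; simp
      · rw [Pi.single_eq_of_ne hb, _root_.map_zero]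
    rw [h, h]
    ring

/-- the linear form `⟪x, ·⟫` -/
noncomputable def lin (x : E n) : MvPolynomial (Fin n) ℂ := ∑ i, C ((x i : ℝ) : ℂ) * X i

/-- the derivative in the direction `x` -/
noncomputable def dir (x : E n) (P : MvPolynomial (Fin n) ℂ) : MvPolynomial (Fin n) ℂ :=
  ∑ i, C ((x i : ℝ) : ℂ) * pderiv i P

theorem ev_lin (x w : E n) : ev (lin x) w = ((⟪x, w⟫ : ℝ) : ℂ) := by
  unfold lin
  rw [ev_sum, PiLp.inner_apply]
  push_cast
  refine Finset.sum_congr rfl fun i _ => ?_
  rw [ev_mul, ev_C, ev_X]
  simp [mul_comm]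

theorem lin_hom (x : E n) : (lin x).IsHomogeneous 1 := by
  unfold lin
  apply IsHomogeneous.sum
  intro i _
  have := (isHomogeneous_C (Fin n) (((x i : ℝ) : ℂ))).mul (isHomogeneous_X ℂ i)
  simpa using this

theorem pderiv_lin (x : E n) (i : Fin n) : pderiv i (lin x) = C ((x i : ℝ) : ℂ) := by
  classical
  unfold lin
  rw [_root_.map_sum, Finset.sum_eq_single i]
  · rw [pderiv_C_mul, pderiv_X_self, mul_one]
  · intro j _ hj
    rw [pderiv_C_mul, pderiv_X_of_ne hj, mul_zero]
  · simp

theorem dir_harm {k : ℕ} {P : MvPolynomial (Fin n) ℂ} (hP : Harm k P) (x : E n) :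
    Harm (k - 1) (dir x P) := by
  constructor
  · unfold dir
    apply IsHomogeneous.sum
    intro i _
    have := (isHomogeneous_C (Fin n) (((x i : ℝ) : ℂ))).mul (hP.1.pderiv (i := i))
    simpa using this
  · unfold dir
    have h1 : ∀ j, pderiv j (pderiv j (∑ i, C ((x i : ℝ) : ℂ) * pderiv i P)) =
        ∑ i, C ((x i : ℝ) : ℂ) * pderiv i (pderiv j (pderiv j P)) := by
      intro j
      rw [_root_.map_sum, _root_.map_sum]
      refine Finset.sum_congr rfl fun i _ => ?_
      rw [pderiv_C_mul, pderiv_C_mul, pderiv_comm j i P, pderiv_comm j i]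
    rw [Finset.sum_congr rfl fun j _ => h1 j, Finset.sum_comm]
    have h2 : ∀ i, ∑ j, C ((x i : ℝ) : ℂ) * pderiv i (pderiv j (pderiv j P)) = 0 := by
      intro i
      rw [← Finset.mul_sum, ← _root_.map_sum, hP.2, _root_.map_zero, mul_zero]
    rw [Finset.sum_congr rfl fun i _ => h2 i, Finset.sum_const_zero]

theorem ev_dir {k : ℕ} {P : MvPolynomial (Fin n) ℂ} (hP : P.IsHomogeneous k) (x : E n) :
    ev (dir x P) x = (k : ℂ) * ev P x := by
  have h1 := hP.sum_X_mul_pderiv
  have h2 := congrArg (fun Q => ev Q x) h1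
  simp only [ev_sum, nsmul_eq_mul, ev_mul, ev_X] at h2
  unfold dir
  simp only [ev_sum, ev_mul, ev_C]
  rw [h2]
  congr 1
  simp [ev]

theorem int_ev [IsFiniteMeasure (sg n)] (P : MvPolynomial (Fin n) ℂ) : Integrable (ev P) (sg n) := by
  have h1 : ∃ C, ∀ w ∈ sphere (0 : E n) 1, ‖ev P w‖ ≤ C :=
    (isCompact_sphere (0 : E n) 1).exists_bound_of_continuousOn (ev_cont P).continuousOn
  obtain ⟨C, hC⟩ := h1
  refine Integrable.of_bound (ev_cont P).aestronglyMeasurable C ?_
  filter_upwards [sg_ae n] with w hw
  exact hC w (by simpa using hw)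

/-- the moments -/
noncomputable def mom (m : ℕ) (P : MvPolynomial (Fin n) ℂ) (x : E n) : ℂ :=
  ∫ w, ev (lin x ^ m * P) w ∂(sg n)

theorem mom_rec (hn : 2 ≤ n) {k : ℕ} {P : MvPolynomial (Fin n) ℂ} (hP : P.IsHomogeneous k)
    (x : E n) (m : ℕ) :
    (((n : ℝ) + m + k - 1 : ℝ) : ℂ) * mom (m + 1) P x =
      (m : ℂ) * ((‖x‖ ^ 2 : ℝ) : ℂ) * mom (m - 1) P x + mom m (dir x P) x := by
  have hfin := sg_finite n
  have hQ : (lin x ^ m * P).IsHomogeneous (m + k) := by
    have := ((lin_hom x).pow m).mul hP
    simpa using this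
  have e1 : mom (m + 1) P x = ∑ i, ((x i : ℝ) : ℂ) * ∫ w, ev (X i * (lin x ^ m * P)) w ∂(sg n) := by
    unfold mom
    have h1 : lin x ^ (m + 1) * P = ∑ i, C ((x i : ℝ) : ℂ) * (X i * (lin x ^ m * P)) := by
      rw [pow_succ']
      nth_rewrite 1 [lin]
      rw [Finset.sum_mul, Finset.sum_mul]
      refine Finset.sum_congr rfl fun i _ => ?_
      ring
    rw [h1]
    simp only [ev_sum]
    rw [integral_finsetSum]
    · refine Finset.sum_congr rfl fun i _ => ?_
      simp only [ev_mul _ (X i * (lin x ^ m * P)), ev_C]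
      rw [integral_const_mul]
    · intro i _
      exact int_ev _
  have e2 : ∀ i, pderiv i (lin x ^ m * P) =
      (m : MvPolynomial (Fin n) ℂ) * lin x ^ (m - 1) * C ((x i : ℝ) : ℂ) * P +
        lin x ^ m * pderiv i P := by
    intro i
    rw [pderiv_mul, pderiv_pow, pderiv_lin]
  have e3 : ∑ i, C ((x i : ℝ) : ℂ) * pderiv i (lin x ^ m * P) =
      C ((m : ℂ) * ((‖x‖ ^ 2 : ℝ) : ℂ)) * (lin x ^ (m - 1) * P) + lin x ^ m * dir x P := by
    have h1 : ∀ i, C ((x i : ℝ) : ℂ) * pderiv i (lin x ^ m * P) =
        C (((x i : ℝ) : ℂ) ^ 2) * ((m : MvPolynomial (Fin n) ℂ) * (lin x ^ (m - 1) * P)) +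
          lin x ^ m * (C ((x i : ℝ) : ℂ) * pderiv i P) := by
      intro i
      rw [e2, C_pow]
      ring
    rw [Finset.sum_congr rfl fun i _ => h1 i, Finset.sum_add_distrib, ← Finset.sum_mul,
      ← Finset.mul_sum]
    congr 1
    rw [← _root_.map_sum, C_mul]
    have h2 : ∑ i, ((x i : ℝ) : ℂ) ^ 2 = ((‖x‖ ^ 2 : ℝ) : ℂ) := by
      rw [EuclideanSpace.norm_sq_eq]
      push_cast
      refine Finset.sum_congr rfl fun i _ => ?_
      rw [Real.norm_eq_abs, ← Complex.ofReal_pow, ← Complex.ofReal_pow, sq_abs]
    rw [h2, map_natCast]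
    ring
  have e4 : mom m (dir x P) x + (m : ℂ) * ((‖x‖ ^ 2 : ℝ) : ℂ) * mom (m - 1) P x =
      ∑ i, ((x i : ℝ) : ℂ) * ∫ w, ev (pderiv i (lin x ^ m * P)) w ∂(sg n) := by
    have h1 : ∑ i, ((x i : ℝ) : ℂ) * ∫ w, ev (pderiv i (lin x ^ m * P)) w ∂(sg n) =
        ∫ w, ev (∑ i, C ((x i : ℝ) : ℂ) * pderiv i (lin x ^ m * P)) w ∂(sg n) := by
      simp only [ev_sum]
      rw [integral_finsetSum]
      · refine Finset.sum_congr rfl fun i _ => ?_
        simp only [ev_mul _ (pderiv i (lin x ^ m * P)), ev_C]
        rw [integral_const_mul]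
      · intro i _
        exact int_ev _
    rw [h1, e3]
    simp only [ev_add, ev_mul _ (lin x ^ (m - 1) * P), ev_C]
    rw [integral_add ((int_ev _).const_mul _) (int_ev _), integral_const_mul]
    unfold mom
    ring
  rw [e1, Finset.mul_sum, add_comm ((m : ℂ) * ((‖x‖ ^ 2 : ℝ) : ℂ) * mom (m - 1) P x), e4]
  refine Finset.sum_congr rfl fun i _ => ?_
  rw [← sphere_ibp (by omega) hQ i]
  push_cast
  ring

theorem mom_zero_pos (hn : 2 ≤ n) {k : ℕ} (hk : 1 ≤ k) {P : MvPolynomial (Fin n) ℂ}
    (hP : Harm k P) (x : E n) : mom 0 P x = 0 := by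
  have hfin := sg_finite n
  have h1 : (k : ℂ) * mom 0 P x = ∑ i, ∫ w, ev (X i * pderiv i P) w ∂(sg n) := by
    rw [← integral_finsetSum _ fun i _ => int_ev _]
    unfold mom
    rw [← integral_const_mul]
    refine integral_congr_ae (Filter.Eventually.of_forall fun w => ?_)
    simp only
    rw [← ev_sum, hP.1.sum_X_mul_pderiv, nsmul_eq_mul, pow_zero, one_mul, ev_mul]
    congr 1
    simp [ev]
  have h2 : ∑ i, (((n : ℝ) + (k - 1 : ℕ) - 1 : ℝ) : ℂ) * ∫ w, ev (X i * pderiv i P) w ∂(sg n) =
      0 := by
    have h3 : ∀ i, (((n : ℝ) + (k - 1 : ℕ) - 1 : ℝ) : ℂ) * ∫ w, ev (X i * pderiv i P) w ∂(sg n) =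
        ∫ w, ev (pderiv i (pderiv i P)) w ∂(sg n) := fun i =>
      sphere_ibp (by omega) (hP.1.pderiv) i
    rw [Finset.sum_congr rfl fun i _ => h3 i, ← integral_finsetSum _ fun i _ => int_ev _]
    have h4 : ∀ w, ∑ i, ev (pderiv i (pderiv i P)) w = 0 := by
      intro w
      rw [← ev_sum, hP.2, ev_zero]
    simp [h4]
  rw [← Finset.mul_sum, ← h1] at h2
  have hn' : (2 : ℝ) ≤ n := by exact_mod_cast hn
  have h5 : (((n : ℝ) + (k - 1 : ℕ) - 1 : ℝ) : ℂ) ≠ 0 := by
    rw [Ne, Complex.ofReal_eq_zero]
    have : (0 : ℝ) ≤ ((k - 1 : ℕ) : ℝ) := Nat.cast_nonneg _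
    intro h
    linarith
  have h6 : (k : ℂ) ≠ 0 := by
    have : k ≠ 0 := by omega
    exact_mod_cast this
  rcases mul_eq_zero.1 h2 with h | h
  · exact absurd h h5
  · rcases mul_eq_zero.1 h with h | h
    · exact absurd h h6
    · exact h

/-- the total mass of the sphere -/
noncomputable def cn (n : ℕ) : ℝ := (sg n).real univ

/-- **the moments of a harmonic polynomial** -/
theorem moments (hn : 2 ≤ n) (m : ℕ) : ∀ (k : ℕ) (P : MvPolynomial (Fin n) ℂ), Harm k P →
    ∀ x : E n,
    (∀ j, m = k + 2 * j → mom m P x = ((cn n * (m.factorial / (2 ^ j * j.factorial *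
      DD n (k + j))) * ‖x‖ ^ (2 * j) : ℝ) : ℂ) * ev P x) ∧
    ((∀ j, m ≠ k + 2 * j) → mom m P x = 0) := by
  have hfin := sg_finite n
  have hn' : (2 : ℝ) ≤ n := by exact_mod_cast hn
  induction m using Nat.strong_induction_on with
  | _ m ih =>
    intro k P hP x
    rcases Nat.eq_zero_or_pos m with hm | hm
    · subst hm
      constructor
      · intro j hj
        have hj0 : j = 0 := by omega
        have hk0 : k = 0 := by omega
        subst hj0; subst hk0
        have h4 : P.totalDegree = 0 := by
          by_cases hQ0 : P = 0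
          · simp [hQ0]
          · exact hP.1.totalDegree hQ0
        rw [MvPolynomial.totalDegree_eq_zero_iff_eq_C] at h4
        unfold mom
        rw [h4]
        simp [ev_C, DD_zero, cn]
      · intro h
        exact mom_zero_pos hn (by
          by_contra hk
          exact h 0 (by omega)) hP x
    · obtain ⟨m, rfl⟩ : ∃ m', m = m' + 1 := ⟨m - 1, by omega⟩
      have hrec := mom_rec hn hP.1 x m
      have hne : (((n : ℝ) + m + k - 1 : ℝ) : ℂ) ≠ 0 := by
        rw [Ne, Complex.ofReal_eq_zero]
        have h1 : (0 : ℝ) ≤ m := Nat.cast_nonneg _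
        have h2 : (0 : ℝ) ≤ k := Nat.cast_nonneg _
        intro h
        linarith
      -- the first term
      have hA : (∀ j, m + 1 = k + 2 * (j + 1) → (m : ℂ) * ((‖x‖ ^ 2 : ℝ) : ℂ) * mom (m - 1) P x =
          ((cn n * (m * (m - 1).factorial / (2 ^ j * j.factorial *
            DD n (k + j))) * ‖x‖ ^ (2 * (j + 1)) : ℝ) : ℂ) * ev P x) ∧
          ((∀ j, m + 1 ≠ k + 2 * (j + 1)) →
            (m : ℂ) * ((‖x‖ ^ 2 : ℝ) : ℂ) * mom (m - 1) P x = 0) := by
        rcases Nat.eq_zero_or_pos m with hm0 | hm0
        · subst hm0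
          constructor
          · intro j hj
            omega
          · intro _
            simp
        · have h1 := ih (m - 1) (by omega) k P hP x
          constructor
          · intro j hj
            rw [h1.1 j (by omega)]
            push_cast
            ring
          · intro h
            rw [h1.2 (fun j hj => h j (by omega)), mul_zero]
      -- the second term
      have hB : (∀ j, m + 1 = k + 2 * j → 1 ≤ k → mom m (dir x P) x =
          ((cn n * (k * m.factorial / (2 ^ j * j.factorial *
            DD n (k - 1 + j))) * ‖x‖ ^ (2 * j) : ℝ) : ℂ) * ev P x) ∧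
          (((∀ j, m + 1 ≠ k + 2 * j) ∨ k = 0) → mom m (dir x P) x = 0) := by
        have h1 := ih m (by omega) (k - 1) (dir x P) (dir_harm hP x) x
        constructor
        · intro j hj hk
          rw [h1.1 j (by omega), ev_dir hP.1]
          push_cast
          ring
        · intro h
          rcases Nat.eq_zero_or_pos k with hk | hk
          · subst hk
            have h4 : P.totalDegree = 0 := by
              by_cases hQ0 : P = 0
              · simp [hQ0]
              · exact hP.1.totalDegree hQ0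
            rw [MvPolynomial.totalDegree_eq_zero_iff_eq_C] at h4
            have h5 : dir x P = 0 := by
              unfold dir
              rw [h4]
              simp
            unfold mom
            rw [h5]
            simp [ev_zero]
          · rcases h with h | h
            · exact h1.2 fun j hj => h j (by omega)
            · omega
      constructor
      · intro j hj
        have hDk : DD n (k + j) ≠ 0 := (DD_pos n (by omega) _).ne'
        rcases Nat.eq_zero_or_pos k with hk | hk
        · subst hk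
          obtain ⟨j, rfl⟩ : ∃ j', j = j' + 1 := ⟨j - 1, by omega⟩
          rw [hB.2 (Or.inr rfl), add_zero, hA.1 j (by omega)] at hrec
          have hm1 : m = 2 * j + 1 := by omega
          subst hm1
          have hD0 : DD n (0 + j) ≠ 0 := (DD_pos n (by omega) _).ne'
          rw [← mul_right_inj' hne, hrec]
          have e1 : DD n (0 + (j + 1)) = DD n (0 + j) * (n + 2 * j) := by
            rw [← add_assoc, DD_succ, zero_add]
          rw [← mul_assoc, ← Complex.ofReal_mul]
          congr 2
          rw [e1]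
          simp only [Nat.add_sub_cancel, Nat.factorial_succ]
          have h7 : ((n : ℝ) + 2 * j) ≠ 0 := by positivity
          have h8 : (j.factorial : ℝ) ≠ 0 := by positivity
          push_cast
          field_simp
          ring
        · have hDk1 : DD n (k - 1 + j) ≠ 0 := (DD_pos n (by omega) _).ne'
          have e1 : DD n (k + j) = DD n (k - 1 + j) * (n + 2 * ((k - 1 + j : ℕ) : ℝ)) := by
            rw [← DD_succ]
            congr 1
            omega
          rw [hB.1 j hj hk] at hrec
          rcases Nat.eq_zero_or_pos j with hj0 | hj0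
          · subst hj0
            rw [hA.2 (fun j hj' => by omega), zero_add] at hrec
            rw [← mul_right_inj' hne, hrec, ← mul_assoc, ← Complex.ofReal_mul]
            congr 2
            rw [e1]
            have hm1 : k = m + 1 := by omega
            subst hm1
            simp only [Nat.add_sub_cancel, Nat.factorial_succ, add_zero]
            have h7 : ((n : ℝ) + 2 * m) ≠ 0 := by positivity
            push_cast
            simp only [add_zero, Nat.add_sub_cancel] at hDk1
            field_simp
            ring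
          · obtain ⟨j, rfl⟩ : ∃ j', j = j' + 1 := ⟨j - 1, by omega⟩
            rw [hA.1 j (by omega)] at hrec
            rw [← mul_right_inj' hne, hrec, ← add_mul, ← mul_assoc, ← Complex.ofReal_mul,
              ← Complex.ofReal_add]
            congr 2
            obtain ⟨k, rfl⟩ : ∃ k', k = k' + 1 := ⟨k - 1, by omega⟩
            have hm1 : m = k + 2 * (j + 1) := by omega
            subst hm1
            rw [e1]
            simp only [Nat.add_sub_cancel]
            have e2 : k + 1 + j = k + (j + 1) := by omega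
            have e3 : k + 2 * (j + 1) - 1 = k + 2 * j + 1 := by omega
            have e4 : k + 2 * (j + 1) = (k + 2 * j + 1) + 1 := by omega
            rw [e2, e3, e4, Nat.factorial_succ (k + 2 * j + 1 + 1),
              Nat.factorial_succ (k + 2 * j + 1), Nat.factorial_succ j]
            simp only [Nat.add_sub_cancel] at hDk1
            have h7 : ((n : ℝ) + 2 * (k + (j + 1))) ≠ 0 := by positivity
            have h8 : (j.factorial : ℝ) ≠ 0 := by positivity
            push_cast
            field_simp
            ring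
      · intro h
        rw [hA.2 (fun j => h (j + 1)), hB.2 (Or.inl h), add_zero] at hrec
        rcases mul_eq_zero.1 hrec with h1 | h1
        · exact absurd h1 hne
        · exact h1

end Pool.Agent.Helper969.HW
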