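import Mathlib
import Pool.Agent.Helper969.HW.A3
set_option autoImplicit false

/-! The Fourier transform of a spherical harmonic. -/

namespace Pool.Agent.Helper969.HW

open MeasureTheory Measure Set Metric Complex MvPolynomial
open Pool.Agent.H789R2.FR (E sg sg_finite sg_ae sg_inv T)
open scoped RealInnerProductSpace

variable {n : ℕ}

/-- the terms of the series `Psi` -/
noncomputable def ps (n k : ℕ) (s : ℝ) (j : ℕ) : ℝ :=
  (-s) ^ j / (2 ^ j * j.factorial * DD n (k + j))

/-- normalised Bessel function: `r^k Psi (r^2)` is a multiple of `r^(1-n/2) J_(k+n/2-1)(r)` -/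
noncomputable def Psi (n k : ℕ) (s : ℝ) : ℝ := ∑' j, ps n k s j

theorem DD_one_le (hn : 1 ≤ n) (q : ℕ) : 1 ≤ DD n q := by
  induction q with
  | zero => rw [DD_zero]
  | succ q ih =>
    rw [DD_succ]
    have h1 : (1 : ℝ) ≤ n := by exact_mod_cast hn
    have h2 : (0 : ℝ) ≤ q := Nat.cast_nonneg _
    nlinarith

theorem ps_norm_le (hn : 1 ≤ n) (k : ℕ) (s : ℝ) (j : ℕ) :
    ‖ps n k s j‖ ≤ |s| ^ j / j.factorial := by
  unfold ps
  rw [norm_div, norm_pow, norm_neg, Real.norm_eq_abs]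
  have h1 := DD_one_le hn (k + j)
  have h2 : (1 : ℝ) ≤ 2 ^ j := one_le_pow₀ (by norm_num)
  have h3 : (0 : ℝ) < j.factorial := by positivity
  have h4 : (j.factorial : ℝ) ≤ 2 ^ j * j.factorial * DD n (k + j) := by
    calc (j.factorial : ℝ) = 1 * j.factorial * 1 := by ring
      _ ≤ 2 ^ j * j.factorial * DD n (k + j) := by gcongr
  rw [Real.norm_of_nonneg (by positivity)]
  gcongr

theorem ps_summable (hn : 1 ≤ n) (k : ℕ) (s : ℝ) : Summable fun j => ‖ps n k s j‖ :=
  Summable.of_nonneg_of_le (fun _ => norm_nonneg _) (ps_norm_le hn k s)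
    (Real.summable_pow_div_factorial |s|)

theorem ps_hasSum (hn : 1 ≤ n) (k : ℕ) (s : ℝ) : HasSum (ps n k s) (Psi n k s) :=
  (ps_summable hn k s).of_norm.hasSum

/-- exponential series -/
theorem T_series (P : MvPolynomial (Fin n) ℂ) (x : E n) :
    HasSum (fun m : ℕ => (-I) ^ m / m.factorial * mom m P x) (T (ev P) x) := by
  have hfin := sg_finite n
  obtain ⟨C, hC⟩ := (isCompact_sphere (0 : E n) 1).exists_bound_of_continuousOn
    (ev_cont P).continuousOn
  have hC0 : 0 ≤ max C 0 := le_max_right _ _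
  set F : ℕ → E n → ℂ := fun m w => (-((⟪x, w⟫ : ℝ) : ℂ) * I) ^ m / m.factorial * ev P w with hF
  have hFc : ∀ m, Continuous (F m) := by
    intro m
    rw [hF]
    have := ev_cont P
    fun_prop
  have hFb : ∀ m, ∀ᵐ w ∂(sg n), ‖F m w‖ ≤ ‖x‖ ^ m / m.factorial * max C 0 := by
    intro m
    filter_upwards [sg_ae n] with w hw
    rw [hF]
    simp only
    rw [norm_mul, norm_div, norm_pow, norm_mul, norm_neg, Complex.norm_I, mul_one,
      Complex.norm_real, Real.norm_eq_abs, Complex.norm_natCast]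
    have h1 : |⟪x, w⟫| ≤ ‖x‖ := by
      have := abs_real_inner_le_norm x w
      rwa [hw, mul_one] at this
    have h2 : ‖ev P w‖ ≤ max C 0 := (hC w (by simpa using hw)).trans (le_max_left _ _)
    gcongr
  have hFi : ∀ m, Integrable (F m) (sg n) := fun m =>
    Integrable.of_bound (hFc m).aestronglyMeasurable _ (hFb m)
  have hsum : Summable fun m => ∫ w, ‖F m w‖ ∂(sg n) := by
    refine Summable.of_nonneg_of_le (fun m => integral_nonneg fun _ => norm_nonneg _) (fun m => ?_)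
      (((Real.summable_pow_div_factorial ‖x‖).mul_right (max C 0)).mul_right ((sg n).real univ))
    have h3 : ∫ w, ‖F m w‖ ∂(sg n) ≤ ∫ _w, ‖x‖ ^ m / m.factorial * max C 0 ∂(sg n) :=
      integral_mono_ae (hFi m).norm (integrable_const _) (hFb m)
    rw [integral_const, smul_eq_mul] at h3
    linarith
  have h1 := hasSum_integral_of_summable_integral_norm hFi hsum
  have h2 : ∫ w, (∑' m, F m w) ∂(sg n) = T (ev P) x := by
    unfold T
    refine integral_congr_ae (Filter.Eventually.of_forall fun w => ?_)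
    simp only
    rw [hF]
    simp only
    rw [tsum_mul_right, Complex.exp_eq_exp_ℂ, NormedSpace.exp_eq_tsum_div]
  rw [h2] at h1
  have hfun : (fun m : ℕ => (-I) ^ m / m.factorial * mom m P x) = fun m => ∫ w, F m w ∂(sg n) := by
   funext m
   unfold mom
   rw [← integral_const_mul]
   refine integral_congr_ae (Filter.Eventually.of_forall fun w => ?_)
   simp only
   rw [hF]
   simp only
   have h4 : ev (lin x ^ m * P) w = ((⟪x, w⟫ : ℝ) : ℂ) ^ m * ev P w := by
     rw [ev_mul]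
     congr 1
     unfold ev
     rw [_root_.map_pow]
     congr 1
     exact ev_lin x w
   rw [h4, neg_mul, mul_comm ((⟪x, w⟫ : ℝ) : ℂ) I, ← neg_mul, mul_pow]
   ring
  rw [hfun]
  exact h1

/-- **The Fourier transform of a spherical harmonic** (Bochner, Hecke). -/
theorem T_harm (hn : 2 ≤ n) {k : ℕ} {P : MvPolynomial (Fin n) ℂ} (hP : Harm k P) (x : E n) :
    T (ev P) x = (cn n : ℂ) * (-I) ^ k * ((Psi n k (‖x‖ ^ 2) : ℝ) : ℂ) * ev P x := by
  have h1 := T_series P x
  have hinj : Function.Injective fun j : ℕ => k + 2 * j := by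
    intro a b h
    simp only at h
    omega
  have h0 : ∀ m, m ∉ Set.range (fun j : ℕ => k + 2 * j) →
      (-I) ^ m / m.factorial * mom m P x = 0 := by
    intro m hm
    rw [(moments hn m k P hP x).2 (fun j hj => hm ⟨j, hj.symm⟩), mul_zero]
  rw [← hinj.hasSum_iff h0] at h1
  have h2 : HasSum (fun j => (((cn n : ℂ) * (-I) ^ k * ev P x)) * ((ps n k (‖x‖ ^ 2) j : ℝ) : ℂ))
      ((cn n : ℂ) * (-I) ^ k * ev P x * ((Psi n k (‖x‖ ^ 2) : ℝ) : ℂ)) := by
    have h20 : HasSum (fun j => ((ps n k (‖x‖ ^ 2) j : ℝ) : ℂ))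
        ((Psi n k (‖x‖ ^ 2) : ℝ) : ℂ) :=
      Complex.hasSum_ofReal.2 (ps_hasSum (by omega : 1 ≤ n) k (‖x‖ ^ 2))
    exact h20.mul_left _
  have h3 : ((fun m : ℕ => (-I) ^ m / (m.factorial : ℂ) * mom m P x) ∘
      fun j : ℕ => k + 2 * j) = fun j =>
      (((cn n : ℂ) * (-I) ^ k * ev P x)) * ((ps n k (‖x‖ ^ 2) j : ℝ) : ℂ) := by
    funext j
    simp only [Function.comp]
    rw [(moments hn (k + 2 * j) k P hP x).1 j rfl]
    unfold ps
    have h4 : (-I) ^ (k + 2 * j) = (-I) ^ k * (-1) ^ j := by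
      rw [pow_add, pow_mul]
      congr 2
      rw [neg_sq, I_sq]
    rw [h4]
    have h5 : ((k + 2 * j).factorial : ℂ) ≠ 0 := by
      exact_mod_cast (Nat.factorial_pos _).ne'
    have h6 : (DD n (k + j) : ℂ) ≠ 0 := by
      exact_mod_cast (DD_pos n (by omega) _).ne'
    have h7 : ((j.factorial : ℕ) : ℂ) ≠ 0 := by
      exact_mod_cast (Nat.factorial_pos _).ne'
    have h8 : ((2 : ℂ)) ^ j ≠ 0 := pow_ne_zero _ (by norm_num)
    have h9 : (-(‖x‖ : ℂ) ^ 2) ^ j = (-1) ^ j * ((‖x‖ : ℂ) ^ 2) ^ j := by rw [← neg_pow]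
    generalize hA : ((k + 2 * j).factorial : ℂ) = A at h5
    generalize hB : (DD n (k + j) : ℂ) = B at h6
    generalize hC : ((j.factorial : ℕ) : ℂ) = C' at h7
    push_cast
    rw [hA, hB, hC, pow_mul, h9]
    field_simp
  rw [h3] at h1
  rw [h1.unique h2]
  ring

end Pool.Agent.Helper969.HW
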