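import Mathlib
import Pool.Agent.Helper969.HW.A4
set_option autoImplicit false

/-! The product formula: algebra. -/

namespace Pool.Agent.Helper969.HW

open MeasureTheory Measure Set Metric Complex
open scoped RealInnerProductSpace

/-- falling factorial -/
noncomputable def ff (X : ℝ) (m : ℕ) : ℝ := ∏ i ∈ Finset.range m, (X - i)

theorem ff_eq (X : ℝ) (m : ℕ) : ff X m = (descPochhammer ℤ m).smeval X := by
  unfold ff
  rw [← Polynomial.aeval_eq_smeval, Polynomial.aeval_def, Polynomial.eval₂_eq_eval_map,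
    descPochhammer_map, descPochhammer_eval_eq_prod_range]

/-- Vandermonde's identity -/
theorem ff_add (X Y : ℝ) (j : ℕ) : ff (X + Y) j =
    ∑ p ∈ Finset.HasAntidiagonal.antidiagonal j, (j.choose p.1 : ℝ) * (ff X p.1 * ff Y p.2) := by
  have h := Ring.descPochhammer_smeval_add j (Commute.all X Y)
  rw [← ff_eq] at h
  rw [h]
  refine Finset.sum_congr rfl fun p _ => ?_
  rw [ff_eq, ff_eq]

theorem ff_nat (a b : ℕ) : ff ((a + b : ℕ) : ℝ) b * (a.factorial : ℝ) = ((a + b).factorial : ℝ) := by
  induction b with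
  | zero => simp [ff]
  | succ b ih =>
    have h1 : ff ((a + (b + 1) : ℕ) : ℝ) (b + 1) = ((a + b + 1 : ℕ) : ℝ) * ff ((a + b : ℕ) : ℝ) b := by
      unfold ff
      rw [Finset.prod_range_succ']
      rw [mul_comm]
      congr 1
      · push_cast; ring
      · refine Finset.prod_congr rfl fun i _ => ?_
        push_cast; ring
    rw [h1, mul_assoc, ih, ← add_assoc, Nat.factorial_succ]
    push_cast
    ring

theorem DD_add (n q b : ℕ) : DD n (q + b) =
    DD n q * (2 ^ b * ff ((n : ℝ) / 2 + q + b - 1) b) := by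
  induction b with
  | zero => simp [ff]
  | succ b ih =>
    have h1 : ff ((n : ℝ) / 2 + q + (b + 1 : ℕ) - 1) (b + 1) =
        ((n : ℝ) / 2 + q + b) * ff ((n : ℝ) / 2 + q + b - 1) b := by
      unfold ff
      rw [Finset.prod_range_succ']
      rw [mul_comm]
      congr 1
      · push_cast; ring
      · refine Finset.prod_congr rfl fun i _ => ?_
        push_cast; ring
    rw [← add_assoc, DD_succ, ih, h1]
    push_cast
    ring

/-- the Cauchy product of the series `Psi n k` and `Psi n l` -/
theorem cauchy {n : ℕ} (hn : 2 ≤ n) (k l : ℕ) (s : ℝ) (j : ℕ) :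
    ∑ p ∈ Finset.HasAntidiagonal.antidiagonal j, ps n k s p.1 * ps n l s p.2 =
      (-s) ^ j * ((n - 2 + k + l + 2 * j).factorial : ℝ) /
        (j.factorial * (n - 2 + k + l + j).factorial * DD n (k + j) * DD n (l + j)) := by
  set M := n - 2 + k + l with hM
  have hDk : DD n (k + j) ≠ 0 := (DD_pos n (by omega) _).ne'
  have hDl : DD n (l + j) ≠ 0 := (DD_pos n (by omega) _).ne'
  have hj : (j.factorial : ℝ) ≠ 0 := by positivity
  have hMj : ((M + j).factorial : ℝ) ≠ 0 := by positivity
  have hterm : ∀ p ∈ Finset.HasAntidiagonal.antidiagonal j, ps n k s p.1 * ps n l s p.2 =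
      (-s) ^ j / (j.factorial * DD n (k + j) * DD n (l + j)) * ((j.choose p.1 : ℝ) *
        (ff ((n : ℝ) / 2 + l + j - 1) p.1 * ff ((n : ℝ) / 2 + k + j - 1) p.2)) := by
    rintro ⟨a, b⟩ hp
    rw [Finset.HasAntidiagonal.mem_antidiagonal] at hp
    simp only at hp ⊢
    subst hp
    have h1 : DD n (k + (a + b)) = DD n (k + a) *
        (2 ^ b * ff ((n : ℝ) / 2 + k + (a + b : ℕ) - 1) b) := by
      rw [← add_assoc, DD_add]
      congr 3
      push_cast; ring
    have h2 : DD n (l + (a + b)) = DD n (l + b) *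
        (2 ^ a * ff ((n : ℝ) / 2 + l + (a + b : ℕ) - 1) a) := by
      rw [show l + (a + b) = (l + b) + a by ring, DD_add]
      congr 3
      push_cast; ring
    have h3 : ((a + b).choose a : ℝ) * (a.factorial * b.factorial) = ((a + b).factorial : ℝ) := by
      have := Nat.add_choose_mul_factorial_mul_factorial a b
      rw [← this, Nat.choose_symm_add]
      push_cast
      ring
    have hka : DD n (k + a) ≠ 0 := (DD_pos n (by omega) _).ne'
    have hlb : DD n (l + b) ≠ 0 := (DD_pos n (by omega) _).ne'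
    have ha : (a.factorial : ℝ) ≠ 0 := by positivity
    have hb : (b.factorial : ℝ) ≠ 0 := by positivity
    unfold ps
    rw [h1] at hDk ⊢
    rw [h2] at hDl ⊢
    rw [← h3]
    have hf1 : ff ((n : ℝ) / 2 + k + (a + b : ℕ) - 1) b ≠ 0 := by
      intro h; rw [h] at hDk; simp at hDk
    have hf2 : ff ((n : ℝ) / 2 + l + (a + b : ℕ) - 1) a ≠ 0 := by
      intro h; rw [h] at hDl; simp at hDl
    have hch : ((a + b).choose a : ℝ) ≠ 0 := by
      have : 0 < (a + b).choose a := Nat.choose_pos (by omega)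
      positivity
    generalize ff ((n : ℝ) / 2 + k + (a + b : ℕ) - 1) b = A at *
    generalize ff ((n : ℝ) / 2 + l + (a + b : ℕ) - 1) a = B at *
    generalize ((a + b).choose a : ℝ) = Ch at *
    rw [pow_add]
    field_simp
  rw [Finset.sum_congr rfl hterm, ← Finset.mul_sum, ← ff_add]
  have h4 : (n : ℝ) / 2 + l + j - 1 + ((n : ℝ) / 2 + k + j - 1) = ((M + j + j : ℕ) : ℝ) := by
    rw [hM]
    push_cast [Nat.cast_sub hn]
    ring
  rw [h4]
  have h5 := ff_nat (M + j) j
  have h6 : M + 2 * j = M + j + j := by ring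
  rw [h6, ← h5]
  field_simp

end Pool.Agent.Helper969.HW
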