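import Mathlib
import Pool.Agent.Helper969.HW.B1
set_option autoImplicit false

/-! The product formula: integrals. -/

namespace Pool.Agent.Helper969.HW

open MeasureTheory Complex
open scoped RealInnerProductSpace

/-- `∫ cos^s φ e^{i d φ}` over `[-π/2, π/2]` -/
noncomputable def Wc (s : ℕ) (d : ℤ) : ℂ :=
  ∫ φ in (-(Real.pi / 2))..(Real.pi / 2), ((Real.cos φ : ℝ) : ℂ) ^ s *
    Complex.exp ((d : ℂ) * φ * I)

theorem hd_cos (s : ℕ) (φ : ℝ) : HasDerivAt (fun φ : ℝ => ((Real.cos φ : ℝ) : ℂ) ^ (s + 1))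
    (-((s : ℂ) + 1) * ((Real.cos φ : ℝ) : ℂ) ^ s * ((Real.sin φ : ℝ) : ℂ)) φ := by
  have h1 := (Real.hasDerivAt_cos φ).ofReal_comp.pow (s + 1)
  refine h1.congr_deriv ?_
  simp only [Nat.add_sub_cancel]
  push_cast
  ring

theorem hd_exp (c : ℂ) (φ : ℝ) : HasDerivAt (fun φ : ℝ => Complex.exp (c * φ * I))
    (c * I * Complex.exp (c * φ * I)) φ := by
  have h1 : HasDerivAt (fun φ : ℝ => c * (φ : ℂ) * I) (c * 1 * I) φ :=
    ((hasDerivAt_id φ).ofReal_comp.const_mul c).mul_const I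
  have h2 := h1.cexp
  refine h2.congr_deriv ?_
  ring

theorem cint (s : ℕ) (c : ℂ) (a b : ℝ) : IntervalIntegrable (fun φ : ℝ =>
    ((Real.cos φ : ℝ) : ℂ) ^ s * Complex.exp (c * φ * I)) volume a b := by
  apply Continuous.intervalIntegrable
  fun_prop

theorem Wc_up (s : ℕ) (d : ℤ) :
    ((s : ℂ) + d + 2) * Wc (s + 1) (d + 1) = ((s : ℂ) + 1) * Wc s d := by
  have h1 : ∀ φ : ℝ, HasDerivAt (fun φ : ℝ => ((Real.cos φ : ℝ) : ℂ) ^ (s + 1) *
      Complex.exp (((d + 1 : ℤ) : ℂ) * φ * I))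
      (I * (((s : ℂ) + d + 2) * (((Real.cos φ : ℝ) : ℂ) ^ (s + 1) *
        Complex.exp (((d + 1 : ℤ) : ℂ) * φ * I)) -
        ((s : ℂ) + 1) * (((Real.cos φ : ℝ) : ℂ) ^ s * Complex.exp ((d : ℂ) * φ * I)))) φ := by
    intro φ
    refine ((hd_cos s φ).mul (hd_exp _ φ)).congr_deriv ?_
    have h2 : Complex.exp (((d + 1 : ℤ) : ℂ) * φ * I) = Complex.exp ((d : ℂ) * φ * I) *
        (((Real.cos φ : ℝ) : ℂ) + ((Real.sin φ : ℝ) : ℂ) * I) := by
      rw [Complex.ofReal_cos, Complex.ofReal_sin, ← Complex.exp_mul_I, ← Complex.exp_add]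
      congr 1
      push_cast
      ring
    have h3 : ((Real.cos φ : ℝ) : ℂ) ^ 2 + ((Real.sin φ : ℝ) : ℂ) ^ 2 = 1 := by
      rw [add_comm]
      exact_mod_cast Real.sin_sq_add_cos_sq φ
    rw [h2]
    push_cast
    rw [pow_succ]
    generalize Complex.exp ((d : ℂ) * φ * I) = X
    have h4 : (Complex.cos φ) ^ 2 + (Complex.sin φ) ^ 2 = 1 := by
      rw [add_comm]; exact Complex.sin_sq_add_cos_sq _
    have hI : I ^ 2 = -1 := Complex.I_sq
    generalize Complex.cos (φ : ℂ) = c at *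
    generalize Complex.sin (φ : ℂ) = t at *
    linear_combination (-(I * c ^ s * X * ((s : ℂ) + 1))) * h4 +
      (-((s : ℂ) + 1) * c * c ^ s * t * X) * hI
  have h5 := intervalIntegral.integral_eq_sub_of_hasDerivAt (a := -(Real.pi / 2))
    (b := Real.pi / 2) (fun φ _ => h1 φ) (by
      apply Continuous.intervalIntegrable
      fun_prop)
  simp only [Real.cos_pi_div_two, Real.cos_neg, Complex.ofReal_zero, ne_eq,
    Nat.succ_ne_zero, not_false_eq_true, zero_pow, zero_mul, sub_zero] at h5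
  rw [intervalIntegral.integral_const_mul, intervalIntegral.integral_sub
    ((cint _ _ _ _).const_mul _) ((cint _ _ _ _).const_mul _),
    intervalIntegral.integral_const_mul, intervalIntegral.integral_const_mul] at h5
  rcases mul_eq_zero.1 h5 with h | h
  · exact absurd h Complex.I_ne_zero
  · rw [sub_eq_zero] at h
    exact h

theorem Wc_down (s : ℕ) (d : ℤ) :
    ((s : ℂ) - d + 2) * Wc (s + 1) (d - 1) = ((s : ℂ) + 1) * Wc s d := by
  have h1 : ∀ φ : ℝ, HasDerivAt (fun φ : ℝ => ((Real.cos φ : ℝ) : ℂ) ^ (s + 1) *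
      Complex.exp (((d - 1 : ℤ) : ℂ) * φ * I))
      (I * (((s : ℂ) + 1) * (((Real.cos φ : ℝ) : ℂ) ^ s * Complex.exp ((d : ℂ) * φ * I)) -
        ((s : ℂ) - d + 2) * (((Real.cos φ : ℝ) : ℂ) ^ (s + 1) *
        Complex.exp (((d - 1 : ℤ) : ℂ) * φ * I)))) φ := by
    intro φ
    refine ((hd_cos s φ).mul (hd_exp _ φ)).congr_deriv ?_
    have h2 : Complex.exp (((d - 1 : ℤ) : ℂ) * φ * I) = Complex.exp ((d : ℂ) * φ * I) *
        (((Real.cos φ : ℝ) : ℂ) - ((Real.sin φ : ℝ) : ℂ) * I) := by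
      have h3 : ((Real.cos φ : ℝ) : ℂ) - ((Real.sin φ : ℝ) : ℂ) * I = Complex.exp (-(φ : ℂ) * I) := by
        rw [Complex.exp_mul_I, Complex.cos_neg, Complex.sin_neg, Complex.ofReal_cos,
          Complex.ofReal_sin]
        ring
      rw [h3, ← Complex.exp_add]
      congr 1
      push_cast
      ring
    rw [h2]
    push_cast
    rw [pow_succ]
    generalize Complex.exp ((d : ℂ) * φ * I) = X
    have h4 : (Complex.cos φ) ^ 2 + (Complex.sin φ) ^ 2 = 1 := by
      rw [add_comm]; exact Complex.sin_sq_add_cos_sq _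
    have hI : I ^ 2 = -1 := Complex.I_sq
    generalize Complex.cos (φ : ℂ) = c at *
    generalize Complex.sin (φ : ℂ) = t at *
    linear_combination (I * c ^ s * X * ((s : ℂ) + 1)) * h4 +
      (-((s : ℂ) + 1) * c * c ^ s * t * X) * hI
  have h5 := intervalIntegral.integral_eq_sub_of_hasDerivAt (a := -(Real.pi / 2))
    (b := Real.pi / 2) (fun φ _ => h1 φ) (by
      apply Continuous.intervalIntegrable
      fun_prop)
  simp only [Real.cos_pi_div_two, Real.cos_neg, Complex.ofReal_zero, ne_eq,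
    Nat.succ_ne_zero, not_false_eq_true, zero_pow, zero_mul, sub_zero] at h5
  rw [intervalIntegral.integral_const_mul, intervalIntegral.integral_sub
    ((cint _ _ _ _).const_mul _) ((cint _ _ _ _).const_mul _),
    intervalIntegral.integral_const_mul, intervalIntegral.integral_const_mul] at h5
  rcases mul_eq_zero.1 h5 with h | h
  · exact absurd h Complex.I_ne_zero
  · rw [sub_eq_zero] at h
    exact h.symm

/-- the constant -/
noncomputable def wN (n : ℕ) : ℂ := Wc (n - 2) 0 / ((n - 2).factorial : ℂ)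

theorem wN_ne (n : ℕ) : wN n ≠ 0 := by
  unfold wN
  apply div_ne_zero
  · unfold Wc
    have h1 : ∫ φ in (-(Real.pi / 2))..(Real.pi / 2), ((Real.cos φ : ℝ) : ℂ) ^ (n - 2) *
        Complex.exp (((0 : ℤ) : ℂ) * φ * I) =
        ((∫ φ in (-(Real.pi / 2))..(Real.pi / 2), Real.cos φ ^ (n - 2) : ℝ) : ℂ) := by
      rw [← intervalIntegral.integral_ofReal]
      congr 1
      funext φ
      simp
    rw [h1, Ne, Complex.ofReal_eq_zero]
    apply ne_of_gt
    apply intervalIntegral.intervalIntegral_pos_of_pos_on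
    · apply Continuous.intervalIntegrable
      fun_prop
    · intro x hx
      exact pow_pos (Real.cos_pos_of_mem_Ioo hx) _
    · linarith [Real.pi_pos]
  · exact_mod_cast (Nat.factorial_pos _).ne'

theorem Wc_closed {n : ℕ} (hn : 2 ≤ n) (p q : ℕ) :
    Wc (n - 2 + p + q) ((p : ℤ) - q) * ((DD n p : ℂ) * (DD n q : ℂ)) =
      wN n * ((n - 2 + p + q).factorial : ℂ) := by
  have hN : ((n - 2 : ℕ) : ℂ) = (n : ℂ) - 2 := by
    push_cast [Nat.cast_sub hn]
    ring
  induction p with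
  | zero =>
    induction q with
    | zero =>
      simp only [Nat.cast_zero, sub_zero, add_zero, DD_zero, Complex.ofReal_one, mul_one]
      unfold wN
      rw [div_mul_cancel₀]
      exact_mod_cast (Nat.factorial_pos _).ne'
    | succ q ih =>
      have h := Wc_down (n - 2 + 0 + q) (((0 : ℕ) : ℤ) - q)
      have e1 : n - 2 + 0 + (q + 1) = n - 2 + 0 + q + 1 := by ring
      have e2 : ((0 : ℕ) : ℤ) - ((q + 1 : ℕ) : ℤ) = ((0 : ℕ) : ℤ) - q - 1 := by push_cast; ring
      rw [e1, e2, DD_succ, Nat.factorial_succ]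
      have e3 : (((n - 2 + 0 + q : ℕ) : ℂ) - ((((0 : ℕ) : ℤ) - (q : ℤ) : ℤ) : ℂ) + 2) =
          (n : ℂ) + 2 * q := by
        push_cast [hN]
        ring
      rw [e3] at h
      push_cast at h ih ⊢
      linear_combination ((DD n 0 : ℂ) * (DD n q : ℂ)) * h +
        ((n - 2 : ℕ) + (0 : ℂ) + q + 1) * ih
  | succ p ih =>
    have h := Wc_up (n - 2 + p + q) ((p : ℤ) - q)
    have e1 : n - 2 + (p + 1) + q = n - 2 + p + q + 1 := by ring
    have e2 : ((p + 1 : ℕ) : ℤ) - (q : ℤ) = (p : ℤ) - q + 1 := by push_cast; ring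
    rw [e1, e2, DD_succ, Nat.factorial_succ]
    have e3 : (((n - 2 + p + q : ℕ) : ℂ) + (((p : ℤ) - (q : ℤ) : ℤ) : ℂ) + 2) =
        (n : ℂ) + 2 * p := by
      push_cast [hN]
      ring
    rw [e3] at h
    push_cast at h ih ⊢
    linear_combination ((DD n p : ℂ) * (DD n q : ℂ)) * h +
      ((n - 2 : ℕ) + (p : ℂ) + q + 1) * ih

theorem DD_two (q : ℕ) : DD 2 q = 2 ^ q * q.factorial := by
  induction q with
  | zero => simp [DD_zero]
  | succ q ih =>
    rw [DD_succ, ih, Nat.factorial_succ]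
    push_cast
    ring

/-- **the product formula** -/
theorem product {n : ℕ} (hn : 2 ≤ n) (k l : ℕ) (s : ℝ) :
    ∫ φ in (-(Real.pi / 2))..(Real.pi / 2), Complex.exp ((((k : ℤ) - l : ℤ) : ℂ) * φ * I) *
      ((2 * Real.cos φ : ℝ) : ℂ) ^ (n - 2 + k + l) *
      ((Psi 2 (n - 2 + k + l) ((2 * Real.cos φ) ^ 2 * s) : ℝ) : ℂ) =
    wN n * ((Psi n k s : ℝ) : ℂ) * ((Psi n l s : ℝ) : ℂ) := by
  set M := n - 2 + k + l with hM
  set μ := (volume : Measure ℝ).restrict (Set.Ioc (-(Real.pi / 2)) (Real.pi / 2)) with hμ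
  have hle : -(Real.pi / 2) ≤ Real.pi / 2 := by linarith [Real.pi_pos]
  set F : ℕ → ℝ → ℂ := fun j φ => Complex.exp ((((k : ℤ) - l : ℤ) : ℂ) * φ * I) *
      ((2 * Real.cos φ : ℝ) : ℂ) ^ M * ((ps 2 M ((2 * Real.cos φ) ^ 2 * s) j : ℝ) : ℂ) with hF
  have hFc : ∀ j, Continuous (F j) := by
    intro j
    rw [hF]
    unfold ps
    fun_prop
  have hexp : ∀ φ : ℝ, ‖Complex.exp ((((k : ℤ) - l : ℤ) : ℂ) * φ * I)‖ = 1 := by
    intro φ
    have : (((k : ℤ) - l : ℤ) : ℂ) * φ * I = ((((k : ℤ) - l : ℤ) * φ : ℝ) : ℂ) * I := by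
      push_cast; ring
    rw [this, Complex.norm_exp_ofReal_mul_I]
  have hcos : ∀ φ : ℝ, |2 * Real.cos φ| ≤ 2 := by
    intro φ
    rw [abs_mul, abs_of_pos (by norm_num : (0 : ℝ) < 2)]
    linarith [Real.abs_cos_le_one φ]
  have hFb : ∀ j φ, ‖F j φ‖ ≤ 2 ^ M * ((4 * |s|) ^ j / j.factorial) := by
    intro j φ
    rw [hF]
    simp only
    rw [norm_mul, norm_mul, hexp, one_mul, norm_pow, Complex.norm_real, Complex.norm_real,
      Real.norm_eq_abs]
    have h1 := ps_norm_le (n := 2) (by norm_num) M ((2 * Real.cos φ) ^ 2 * s) j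
    have h2 : |(2 * Real.cos φ) ^ 2 * s| ≤ 4 * |s| := by
      rw [abs_mul, abs_pow]
      have : |2 * Real.cos φ| ^ 2 ≤ 2 ^ 2 := by gcongr; exact hcos φ
      nlinarith [abs_nonneg s]
    calc |2 * Real.cos φ| ^ M * ‖ps 2 M ((2 * Real.cos φ) ^ 2 * s) j‖
        ≤ 2 ^ M * (|(2 * Real.cos φ) ^ 2 * s| ^ j / j.factorial) := by
          gcongr
          exact hcos φ
      _ ≤ _ := by gcongr
  have hfin : IsFiniteMeasure μ := by rw [hμ]; infer_instance
  have hFi : ∀ j, Integrable (F j) μ := fun j =>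
    Integrable.of_bound (hFc j).aestronglyMeasurable _ (Filter.Eventually.of_forall (hFb j))
  have hsum : Summable fun j => ∫ φ, ‖F j φ‖ ∂μ := by
    refine Summable.of_nonneg_of_le (fun m => integral_nonneg fun _ => norm_nonneg _) (fun j => ?_)
      (((Real.summable_pow_div_factorial (4 * |s|)).mul_left (2 ^ M)).mul_right (μ.real Set.univ))
    have h3 : ∫ φ, ‖F j φ‖ ∂μ ≤ ∫ _φ, 2 ^ M * ((4 * |s|) ^ j / j.factorial) ∂μ :=
      integral_mono (hFi j).norm (integrable_const _) (hFb j)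
    rw [integral_const, smul_eq_mul] at h3
    linarith
  have h1 := hasSum_integral_of_summable_integral_norm hFi hsum
  have h2 : ∫ φ, (∑' j, F j φ) ∂μ = ∫ φ in (-(Real.pi / 2))..(Real.pi / 2),
      Complex.exp ((((k : ℤ) - l : ℤ) : ℂ) * φ * I) *
      ((2 * Real.cos φ : ℝ) : ℂ) ^ M * ((Psi 2 M ((2 * Real.cos φ) ^ 2 * s) : ℝ) : ℂ) := by
    rw [intervalIntegral.integral_of_le hle]
    refine integral_congr_ae (Filter.Eventually.of_forall fun φ => ?_)
    simp only
    rw [hF]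
    simp only
    rw [tsum_mul_left]
    congr 1
    exact (Complex.hasSum_ofReal.2 (ps_hasSum (by norm_num) M _)).tsum_eq
  rw [h2] at h1
  -- the integrals of the terms
  have h3 : ∀ j, ∫ φ, F j φ ∂μ = wN n * ((∑ p ∈ Finset.HasAntidiagonal.antidiagonal j,
      ps n k s p.1 * ps n l s p.2 : ℝ) : ℂ) := by
    intro j
    rw [cauchy hn k l s j, ← hM]
    have e1 : ∀ φ : ℝ, F j φ = (((-s) ^ j / (j.factorial * (M + j).factorial) : ℝ) : ℂ) *
        (((Real.cos φ : ℝ) : ℂ) ^ (M + 2 * j) *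
          Complex.exp ((((k : ℤ) - l : ℤ) : ℂ) * φ * I)) := by
      intro φ
      rw [hF]
      simp only
      unfold ps
      rw [DD_two]
      have h5 : (j.factorial : ℂ) ≠ 0 := by exact_mod_cast (Nat.factorial_pos _).ne'
      have h6 : ((M + j).factorial : ℂ) ≠ 0 := by exact_mod_cast (Nat.factorial_pos _).ne'
      push_cast
      generalize Complex.exp (((k : ℂ) - l) * φ * I) = X
      generalize Complex.cos (φ : ℂ) = c
      generalize (j.factorial : ℂ) = A at *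
      generalize ((M + j).factorial : ℂ) = B at *
      have h8 : (-((2 * c) ^ 2 * (s : ℂ))) ^ j = (-(s : ℂ)) ^ j * (2 ^ (2 * j) * c ^ (2 * j)) := by
        rw [pow_mul, pow_mul, ← mul_pow, ← mul_pow]
        congr 1
        ring
      have h9 : ((2 : ℂ) ^ 2) ^ j = 2 ^ j * 2 ^ j := by
        rw [← mul_pow]; norm_num
      rw [h8, mul_pow, pow_mul (2 : ℂ) 2 j, h9, pow_add c M (2 * j), pow_add (2 : ℂ) M j]
      have h10 : (2 : ℂ) ^ j ≠ 0 := pow_ne_zero _ (by norm_num)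
      have h11 : (2 : ℂ) ^ M ≠ 0 := pow_ne_zero _ (by norm_num)
      field_simp
    have e2 : ∫ φ, F j φ ∂μ = (((-s) ^ j / (j.factorial * (M + j).factorial) : ℝ) : ℂ) *
        Wc (M + 2 * j) ((k : ℤ) - l) := by
      rw [integral_congr_ae (Filter.Eventually.of_forall e1), integral_const_mul]
      unfold Wc
      rw [intervalIntegral.integral_of_le hle]
    have e3 := Wc_closed hn (k + j) (l + j)
    have e4 : n - 2 + (k + j) + (l + j) = M + 2 * j := by rw [hM]; ring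
    have e5 : ((k + j : ℕ) : ℤ) - ((l + j : ℕ) : ℤ) = (k : ℤ) - l := by push_cast; ring
    rw [e4, e5] at e3
    rw [e2]
    have hk : (DD n (k + j) : ℂ) ≠ 0 := by exact_mod_cast (DD_pos n (by omega) _).ne'
    have hl : (DD n (l + j) : ℂ) ≠ 0 := by exact_mod_cast (DD_pos n (by omega) _).ne'
    have h5 : (j.factorial : ℂ) ≠ 0 := by exact_mod_cast (Nat.factorial_pos _).ne'
    have h6 : ((M + j).factorial : ℂ) ≠ 0 := by exact_mod_cast (Nat.factorial_pos _).ne'
    push_cast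
    field_simp
    linear_combination (-(s : ℂ)) ^ j * e3
  simp_rw [h3] at h1
  have h4 : Psi n k s * Psi n l s = ∑' j, ∑ p ∈ Finset.HasAntidiagonal.antidiagonal j,
      ps n k s p.1 * ps n l s p.2 :=
    tsum_mul_tsum_eq_tsum_sum_antidiagonal_of_summable_norm (ps_summable (by omega) k s)
      (ps_summable (by omega) l s)
  have h5 : Summable fun j => ∑ p ∈ Finset.HasAntidiagonal.antidiagonal j,
      ps n k s p.1 * ps n l s p.2 :=
    (summable_norm_sum_mul_antidiagonal_of_summable_norm (ps_summable (by omega) k s)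
      (ps_summable (by omega) l s)).of_norm
  have h6 : HasSum (fun j => wN n * ((∑ p ∈ Finset.HasAntidiagonal.antidiagonal j,
      ps n k s p.1 * ps n l s p.2 : ℝ) : ℂ)) (wN n * ((Psi n k s * Psi n l s : ℝ) : ℂ)) := by
    rw [h4]
    exact (Complex.hasSum_ofReal.2 h5.hasSum).mul_left _
  rw [h1.unique h6]
  push_cast
  ring

end Pool.Agent.Helper969.HW
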