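import Mathlib
import Pool.Agent.Y251.HR.A4
import Pool.Agent.Helper969.HW.B2
set_option autoImplicit false

/-! Planar harmonics and continuity of `Psi`. -/

namespace Pool.Agent.Helper969.HW

open MeasureTheory Measure Set Metric Complex MvPolynomial
open Pool.Agent.H789R2.FR (E sg sg_finite sg_ae sg_inv T)
open Pool.Agent.Y251.HR (c2 c2_cont)
open scoped RealInnerProductSpace

/-- the complex coordinate as a polynomial -/
noncomputable def zz : MvPolynomial (Fin 2) ℂ := X 0 + C I * X 1

theorem ev_pow {n : ℕ} (P : MvPolynomial (Fin n) ℂ) (m : ℕ) (x : E n) :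
    ev (P ^ m) x = ev P x ^ m := by
  simp [ev]

theorem ev_zz (x : E 2) : ev zz x = c2 x := by
  unfold zz c2
  rw [ev_add, ev_mul, ev_X, ev_X, ev_C]
  ring

theorem zz_hom : zz.IsHomogeneous 1 := by
  unfold zz
  refine (isHomogeneous_X ℂ 0).add ?_
  have := (isHomogeneous_C (Fin 2) I).mul (isHomogeneous_X ℂ (1 : Fin 2))
  rwa [zero_add] at this

theorem pd0 : pderiv (0 : Fin 2) zz = 1 := by
  unfold zz
  simp [pderiv_X]

theorem pd1 : pderiv (1 : Fin 2) zz = C I := by
  unfold zz
  simp [pderiv_X]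

theorem zz_harm (m : ℕ) : Harm m (zz ^ m) := by
  constructor
  · have := zz_hom.pow m
    rwa [one_mul] at this
  · rw [Fin.sum_univ_two]
    simp only [Derivation.leibniz_pow, pd0, pd1, nsmul_eq_mul, smul_eq_mul, mul_one, Derivation.leibniz,
      Derivation.map_natCast, mul_zero, add_zero, pderiv_C]
    have hI : (C I : MvPolynomial (Fin 2) ℂ) * C I = -1 := by
      rw [← C_mul, I_mul_I]
      simp
    linear_combination ((m : MvPolynomial (Fin 2) ℂ) * (((m - 1 : ℕ) : MvPolynomial (Fin 2) ℂ) *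
      zz ^ (m - 1 - 1))) * hI

/-- the transform of a planar monomial -/
theorem T_mono (m : ℕ) (x : E 2) : T (fun w => c2 w ^ m) x =
    (cn 2 : ℂ) * (-I) ^ m * ((Psi 2 m (‖x‖ ^ 2) : ℝ) : ℂ) * c2 x ^ m := by
  have h := T_harm (n := 2) le_rfl (zz_harm m) x
  have e : (ev (zz ^ m) : E 2 → ℂ) = fun w => c2 w ^ m := by
    funext w
    rw [ev_pow, ev_zz]
  rw [e] at h
  rw [h]

theorem ps_cont (n k j : ℕ) : Continuous fun s => ps n k s j := by
  unfold ps
  generalize (2 ^ j * (j.factorial : ℝ) * DD n (k + j)) = c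
  fun_prop

theorem Psi_cont {n : ℕ} (hn : 1 ≤ n) (k : ℕ) : Continuous (Psi n k) := by
  rw [continuous_iff_continuousAt]
  intro s0
  have h1 : ContinuousOn (fun s => ∑' j, ps n k s j) (ball 0 (|s0| + 1)) := by
    apply continuousOn_tsum (u := fun j : ℕ => (|s0| + 1) ^ j / (j.factorial : ℝ))
    · exact fun j => (ps_cont n k j).continuousOn
    · exact Real.summable_pow_div_factorial _
    · intro j s hs
      refine (ps_norm_le hn k s j).trans ?_
      rw [mem_ball_zero_iff, Real.norm_eq_abs] at hs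
      have h0 : (0 : ℝ) < j.factorial := by positivity
      apply div_le_div_of_nonneg_right _ h0.le
      exact pow_le_pow_left₀ (abs_nonneg _) hs.le j
  have h2 := h1.continuousAt (isOpen_ball.mem_nhds (by
    rw [mem_ball_zero_iff, Real.norm_eq_abs]
    linarith : s0 ∈ ball 0 (|s0| + 1)))
  exact h2

end Pool.Agent.Helper969.HW
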