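import Mathlib
import Pool.Agent.Y251.HR.B3
import Pool.Agent.Y251.HR.B4
import Pool.Agent.Helper969.HW.C1
set_option autoImplicit false

/-! The square of the transform as a superposition of plane waves. -/

namespace Pool.Agent.Helper969.HW

open MeasureTheory Measure Set Metric Complex
open Pool.Agent.H789R2.FR (E sg sg_finite sg_ae sg_inv T)
open Pool.Agent.H789R2.FR.L2 (ph norm_ph continuous_ph T_eq W W_pos)
open Pool.Agent.Y251.HR (c2 c2_cont norm_c2 c2_smul)
open scoped RealInnerProductSpace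

/-- a power series polynomial -/
noncomputable def Aa (K : ℕ) (a : ℕ → ℂ) (z : ℂ) : ℂ := ∑ k ∈ Finset.range K, a k * z ^ k

/-- its transform -/
noncomputable def Ff (n K : ℕ) (a : ℕ → ℂ) (x : E 2) : ℂ :=
  ∑ k ∈ Finset.range K, a k * ((-I * c2 x) ^ k * ((Psi n k (‖x‖ ^ 2) : ℝ) : ℂ))

/-- half circle -/
noncomputable def hp : Measure ℝ := volume.restrict (Ioc (-(Real.pi / 2)) (Real.pi / 2))

instance : IsFiniteMeasure hp := by unfold hp; infer_instance

noncomputable def nu : Measure (E 2 × ℝ) := (sg 2).prod hp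

instance : IsFiniteMeasure nu := by
  have := sg_finite 2
  unfold nu
  infer_instance

noncomputable def Phi (p : E 2 × ℝ) : E 2 := (2 * Real.cos p.2) • p.1

theorem Phi_cont : Continuous Phi := by
  unfold Phi
  fun_prop

noncomputable def hu (n K : ℕ) (a : ℕ → ℂ) (p : E 2 × ℝ) : ℂ :=
  c2 p.1 ^ (n - 2) * (Aa K a (c2 p.1 * Complex.exp (p.2 * I)) *
    Aa K a (c2 p.1 * Complex.exp (-(p.2 * I))))

theorem Aa_cont (K : ℕ) (a : ℕ → ℂ) : Continuous (Aa K a) := by
  unfold Aa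
  fun_prop

theorem hu_cont (n K : ℕ) (a : ℕ → ℂ) : Continuous (hu n K a) := by
  unfold hu
  have h1 := Aa_cont K a
  have h2 := c2_cont
  fun_prop

noncomputable def Hh (n K : ℕ) (a : ℕ → ℂ) (p : E 2 × ℝ) : ℂ :=
  {q : E 2 × ℝ | ‖q.1‖ ≤ 1}.indicator (hu n K a) p

theorem Hh_meas (n K : ℕ) (a : ℕ → ℂ) : Measurable (Hh n K a) :=
  (hu_cont n K a).measurable.indicator
    (measurableSet_le (measurable_norm.comp measurable_fst) measurable_const)

theorem Hh_eq (n K : ℕ) (a : ℕ → ℂ) (w : E 2) (φ : ℝ) (hw : ‖w‖ = 1) :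
    Hh n K a (w, φ) = hu n K a (w, φ) := by
  unfold Hh
  rw [indicator_of_mem]
  exact hw.le

theorem Aa_le (K : ℕ) (a : ℕ → ℂ) (z : ℂ) (hz : ‖z‖ ≤ 1) :
    ‖Aa K a z‖ ≤ ∑ k ∈ Finset.range K, ‖a k‖ := by
  unfold Aa
  refine (norm_sum_le _ _).trans (Finset.sum_le_sum fun k _ => ?_)
  rw [norm_mul, norm_pow]
  calc ‖a k‖ * ‖z‖ ^ k ≤ ‖a k‖ * 1 := by
        gcongr
        exact pow_le_one₀ (norm_nonneg _) hz
    _ = ‖a k‖ := mul_one _

theorem norm_exp_I (φ : ℝ) : ‖Complex.exp (φ * I)‖ = 1 := Complex.norm_exp_ofReal_mul_I φ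

theorem norm_exp_nI (φ : ℝ) : ‖Complex.exp (-(φ * I))‖ = 1 := by
  have := Complex.norm_exp_ofReal_mul_I (-φ)
  rwa [Complex.ofReal_neg, neg_mul] at this

theorem Hh_le (n K : ℕ) (a : ℕ → ℂ) (p : E 2 × ℝ) :
    ‖Hh n K a p‖ ≤ (∑ k ∈ Finset.range K, ‖a k‖) ^ 2 := by
  by_cases hp : ‖p.1‖ ≤ 1
  · have h1 : Hh n K a p = hu n K a p := by
      unfold Hh
      rw [indicator_of_mem]
      exact hp
    have h2 : ‖c2 p.1‖ ≤ 1 := by rw [norm_c2]; exact hp
    rw [h1]
    unfold hu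
    rw [norm_mul, norm_mul, norm_pow, sq]
    have h3 := Aa_le K a (c2 p.1 * Complex.exp (p.2 * I)) (by
      rw [norm_mul, norm_exp_I, mul_one]; exact h2)
    have h4 := Aa_le K a (c2 p.1 * Complex.exp (-(p.2 * I))) (by
      rw [norm_mul, norm_exp_nI, mul_one]; exact h2)
    calc ‖c2 p.1‖ ^ (n - 2) * (‖Aa K a (c2 p.1 * Complex.exp (p.2 * I))‖ *
          ‖Aa K a (c2 p.1 * Complex.exp (-(p.2 * I)))‖)
        ≤ 1 * ((∑ k ∈ Finset.range K, ‖a k‖) * (∑ k ∈ Finset.range K, ‖a k‖)) := by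
          gcongr
          exact pow_le_one₀ (norm_nonneg _) h2
      _ = _ := one_mul _
  · have h1 : Hh n K a p = 0 := by
      unfold Hh
      rw [indicator_of_notMem]
      exact hp
    rw [h1, norm_zero]
    positivity

theorem hu_eq (n K : ℕ) (a : ℕ → ℂ) (w : E 2) (φ : ℝ) :
    hu n K a (w, φ) = ∑ k ∈ Finset.range K, ∑ l ∈ Finset.range K,
      (a k * a l * Complex.exp ((((k : ℤ) - l : ℤ) : ℂ) * φ * I)) * c2 w ^ (n - 2 + k + l) := by
  unfold hu Aa
  simp only
  rw [Finset.sum_mul_sum, Finset.mul_sum]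
  refine Finset.sum_congr rfl fun k _ => ?_
  rw [Finset.mul_sum]
  refine Finset.sum_congr rfl fun l _ => ?_
  have h1 : Complex.exp ((((k : ℤ) - l : ℤ) : ℂ) * φ * I) =
      Complex.exp (φ * I) ^ k * Complex.exp (-(φ * I)) ^ l := by
    rw [← Complex.exp_nat_mul, ← Complex.exp_nat_mul, ← Complex.exp_add]
    congr 1
    push_cast
    ring
  rw [h1, mul_pow, mul_pow, pow_add, pow_add]
  ring

theorem ph_smul (t : ℝ) (x w : E 2) : ph x (t • w) = ph (t • x) w := by
  unfold ph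
  rw [real_inner_smul_left, real_inner_smul_right]

theorem int_mono (y : E 2) (m : ℕ) : Integrable (fun w => ph y w * c2 w ^ m) (sg 2) := by
  have hfin := sg_finite 2
  have hc : Continuous fun w : E 2 => ph y w * c2 w ^ m := by
    have h1 : Continuous fun w : E 2 => ph y w :=
      (continuous_ph (n := 2)).comp (continuous_const.prodMk continuous_id)
    exact h1.mul (c2_cont.pow m)
  refine Integrable.of_bound hc.aestronglyMeasurable 1 ?_
  filter_upwards [sg_ae 2] with w hw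
  rw [norm_mul, norm_ph, norm_pow, norm_c2, hw]
  norm_num

theorem inner_int (n K : ℕ) (a : ℕ → ℂ) (x : E 2) (φ : ℝ) :
    ∫ w, ph x (Phi (w, φ)) * Hh n K a (w, φ) ∂(sg 2) =
      ∑ k ∈ Finset.range K, ∑ l ∈ Finset.range K,
      (a k * a l * Complex.exp ((((k : ℤ) - l : ℤ) : ℂ) * φ * I)) *
        T (fun w => c2 w ^ (n - 2 + k + l)) ((2 * Real.cos φ) • x) := by
  have hfin := sg_finite 2
  have h1 : ∀ᵐ w ∂(sg 2), ph x (Phi (w, φ)) * Hh n K a (w, φ) =
      ∑ k ∈ Finset.range K, ∑ l ∈ Finset.range K,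
      (a k * a l * Complex.exp ((((k : ℤ) - l : ℤ) : ℂ) * φ * I)) *
        (ph ((2 * Real.cos φ) • x) w * c2 w ^ (n - 2 + k + l)) := by
    filter_upwards [sg_ae 2] with w hw
    rw [Hh_eq n K a w φ hw, hu_eq, Finset.mul_sum]
    refine Finset.sum_congr rfl fun k _ => ?_
    rw [Finset.mul_sum]
    refine Finset.sum_congr rfl fun l _ => ?_
    unfold Phi
    rw [ph_smul]
    ring
  rw [integral_congr_ae h1, integral_finsetSum]
  · refine Finset.sum_congr rfl fun k _ => ?_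
    rw [integral_finsetSum]
    · refine Finset.sum_congr rfl fun l _ => ?_
      rw [integral_const_mul, T_eq]
    · intro l _
      exact (int_mono _ _).const_mul _
  · intro k _
    exact integrable_finsetSum _ fun l _ => (int_mono _ _).const_mul _

theorem outer_term (n k l : ℕ) (hn : 2 ≤ n) (x : E 2) :
    ∫ φ, Complex.exp ((((k : ℤ) - l : ℤ) : ℂ) * φ * I) *
        T (fun w => c2 w ^ (n - 2 + k + l)) ((2 * Real.cos φ) • x) ∂hp =
      (cn 2 : ℂ) * wN n * (-I * c2 x) ^ (n - 2 + k + l) *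
        (((Psi n k (‖x‖ ^ 2) : ℝ) : ℂ) * ((Psi n l (‖x‖ ^ 2) : ℝ) : ℂ)) := by
  have hle : -(Real.pi / 2) ≤ Real.pi / 2 := by linarith [Real.pi_pos]
  have hpr := product hn k l (‖x‖ ^ 2)
  rw [intervalIntegral.integral_of_le hle] at hpr
  have e1 : ∀ φ : ℝ, Complex.exp ((((k : ℤ) - l : ℤ) : ℂ) * φ * I) *
        T (fun w => c2 w ^ (n - 2 + k + l)) ((2 * Real.cos φ) • x) =
      ((cn 2 : ℂ) * (-I * c2 x) ^ (n - 2 + k + l)) *
        (Complex.exp ((((k : ℤ) - l : ℤ) : ℂ) * φ * I) *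
      ((2 * Real.cos φ : ℝ) : ℂ) ^ (n - 2 + k + l) *
      ((Psi 2 (n - 2 + k + l) ((2 * Real.cos φ) ^ 2 * ‖x‖ ^ 2) : ℝ) : ℂ)) := by
    intro φ
    rw [T_mono, c2_smul, norm_smul, mul_pow ‖2 * Real.cos φ‖, Real.norm_eq_abs, sq_abs, mul_pow, mul_pow]
    ring
  unfold hp
  rw [integral_congr_ae (Filter.Eventually.of_forall e1), integral_const_mul, hpr]
  ring

theorem outer_int (k l m : ℕ) (x : E 2) :
    Integrable (fun φ : ℝ => Complex.exp ((((k : ℤ) - l : ℤ) : ℂ) * φ * I) *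
        T (fun w => c2 w ^ m) ((2 * Real.cos φ) • x)) hp := by
  have h1 := Psi_cont (n := 2) (by norm_num) m
  have h2 := c2_cont
  have hc : Continuous (fun φ : ℝ => Complex.exp ((((k : ℤ) - l : ℤ) : ℂ) * φ * I) *
        T (fun w => c2 w ^ m) ((2 * Real.cos φ) • x)) := by
    simp_rw [T_mono]
    fun_prop
  unfold hp
  exact (hc.integrableOn_Icc).mono_set Ioc_subset_Icc_self

/-- **the square of the transform** -/
theorem V_eq (n K : ℕ) (hn : 2 ≤ n) (a : ℕ → ℂ) (x : E 2) :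
    ∫ p, ph x (Phi p) * Hh n K a p ∂nu =
      (cn 2 : ℂ) * wN n * (-I * c2 x) ^ (n - 2) * Ff n K a x ^ 2 := by
  have hfin := sg_finite 2
  have hint : Integrable (fun p => ph x (Phi p) * Hh n K a p) nu := by
    refine Integrable.of_bound ?_ ((∑ k ∈ Finset.range K, ‖a k‖) ^ 2)
      (Filter.Eventually.of_forall fun p => ?_)
    · have h1 : Measurable fun p => ph x (Phi p) :=
        (continuous_ph.comp (continuous_const.prodMk Phi_cont)).measurable
      exact (h1.mul (Hh_meas n K a)).aestronglyMeasurable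
    · rw [norm_mul, norm_ph, one_mul]
      exact Hh_le n K a p
  unfold nu at hint ⊢
  rw [integral_prod_symm _ hint]
  simp_rw [inner_int]
  rw [integral_finsetSum]
  swap
  · intro k _
    refine integrable_finsetSum _ fun l _ => ?_
    simp_rw [mul_assoc (a k * a l)]
    exact (outer_int k l _ x).const_mul _
  have e1 : ∀ k ∈ Finset.range K, ∫ φ, ∑ l ∈ Finset.range K,
      (a k * a l * Complex.exp ((((k : ℤ) - l : ℤ) : ℂ) * φ * I)) *
        T (fun w => c2 w ^ (n - 2 + k + l)) ((2 * Real.cos φ) • x) ∂hp =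
      ∑ l ∈ Finset.range K, (a k * a l) * ((cn 2 : ℂ) * wN n * (-I * c2 x) ^ (n - 2 + k + l) *
        (((Psi n k (‖x‖ ^ 2) : ℝ) : ℂ) * ((Psi n l (‖x‖ ^ 2) : ℝ) : ℂ))) := by
    intro k _
    rw [integral_finsetSum]
    · refine Finset.sum_congr rfl fun l _ => ?_
      simp_rw [mul_assoc (a k * a l)]
      rw [integral_const_mul, outer_term n k l hn x]
    · intro l _
      simp_rw [mul_assoc (a k * a l)]
      exact (outer_int k l _ x).const_mul _
  rw [Finset.sum_congr rfl e1]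
  unfold Ff
  rw [sq (∑ k ∈ Finset.range K, a k * ((-I * c2 x) ^ k * ((Psi n k (‖x‖ ^ 2) : ℝ) : ℂ))),
    Finset.sum_mul_sum, Finset.mul_sum]
  refine Finset.sum_congr rfl fun k _ => ?_
  rw [Finset.mul_sum]
  refine Finset.sum_congr rfl fun l _ => ?_
  rw [pow_add, pow_add]
  ring

/-- the constant density -/
theorem V_one (x : E 2) : ∫ p, ph x (Phi p) ∂nu =
    wN 2 / (cn 2 : ℂ) * T (fun _ : E 2 => (1 : ℂ)) x ^ 2 := by
  have hfin := sg_finite 2
  have hc0 : (cn 2 : ℂ) ≠ 0 := by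
    have hA : 0 < (sg 2).real univ := by
      have hne : Nontrivial (E 2) := inferInstance
      rw [measureReal_def]
      apply ENNReal.toReal_pos _ (measure_ne_top _ _)
      rw [Pool.Agent.H789R2.FR.sg_apply MeasurableSet.univ, preimage_univ, Ne,
        Measure.measure_univ_eq_zero]
      exact Measure.toSphere_ne_zero _
    unfold cn
    exact_mod_cast hA.ne'
  have h1 := V_eq 2 1 le_rfl (fun _ => 1) x
  have e1 : ∫ p, ph x (Phi p) * Hh 2 1 (fun _ => 1) p ∂nu = ∫ p, ph x (Phi p) ∂nu := by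
    refine integral_congr_ae ?_
    have h2 : ∀ᵐ p ∂nu, ‖p.1‖ = 1 := by
      unfold nu
      have h3 := sg_ae 2
      exact (quasiMeasurePreserving_fst (μ := sg 2) (ν := hp)).ae h3
    filter_upwards [h2] with p hp1
    obtain ⟨w, φ⟩ := p
    rw [Hh_eq 2 1 _ w φ hp1]
    unfold hu Aa
    simp
  have h3 := T_mono 0 x
  simp only [pow_zero, mul_one] at h3
  rw [e1] at h1
  rw [h1, h3]
  unfold Ff
  simp only [Nat.sub_self, pow_zero, Finset.range_one, Finset.sum_singleton, one_mul, mul_one]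
  field_simp

end Pool.Agent.Helper969.HW
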