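import Mathlib
import Pool.Agent.Helper969.HW.C2
set_option autoImplicit false

/-! The `L^4` estimate for the planar transform. -/

namespace Pool.Agent.Helper969.HW

open MeasureTheory Measure Set Metric Complex
open Pool.Agent.H789R2.FR (E sg sg_finite sg_ae sg_inv T)
open Pool.Agent.H789R2.FR.L2 (ph norm_ph continuous_ph T_eq W W_pos continuous_W integrable_W)
open Pool.Agent.Y251.HR (c2 c2_cont norm_c2 c2_smul gk gk_cont gk_pos gk_le J0 hJ0 e2 norm_e2 cm co co_cm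
  co_e2 rotE rotE_apply schur l2_one one_int)
open scoped RealInnerProductSpace

noncomputable def qq (l : ℝ) (p : E 2 × ℝ) : ℝ := ∫ p', gk l (Phi p - Phi p') ∂nu

theorem qq_meas (l : ℝ) : StronglyMeasurable (qq l) := by
  unfold qq
  have h : Continuous fun r : (E 2 × ℝ) × (E 2 × ℝ) => gk l (Phi r.1 - Phi r.2) := by
    refine (gk_cont l).comp ?_
    exact (Phi_cont.comp continuous_fst).sub (Phi_cont.comp continuous_snd)
  exact h.measurable.stronglyMeasurable.integral_prod_right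

theorem qq_nonneg (l : ℝ) (p : E 2 × ℝ) : 0 ≤ qq l p :=
  integral_nonneg fun _ => (gk_pos l _).le

theorem qq_le (l : ℝ) (p : E 2 × ℝ) : qq l p ≤ nu.real univ := by
  have h := norm_integral_le_of_norm_le_const (μ := nu)
    (f := fun q : E 2 × ℝ => gk l (Phi p - Phi q)) (C := 1)
    (Filter.Eventually.of_forall fun q => by
      rw [Real.norm_of_nonneg (gk_pos l _).le]
      exact gk_le l _)
  rw [one_mul] at h
  exact (le_abs_self _).trans h

theorem Phi_rot (U : E 2 ≃ₗᵢ[ℝ] E 2) (w : E 2) (φ : ℝ) : Phi (U w, φ) = U (Phi (w, φ)) := by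
  unfold Phi
  rw [map_smul]

theorem qq_rot (l : ℝ) (U : E 2 ≃ₗᵢ[ℝ] E 2) (w : E 2) (φ : ℝ) : qq l (U w, φ) = qq l (w, φ) := by
  have hfin := sg_finite 2
  unfold qq nu
  have hmp : MeasurePreserving (Prod.map U (id : ℝ → ℝ)) ((sg 2).prod hp) ((sg 2).prod hp) :=
    (sg_inv U).prod (MeasurePreserving.id hp)
  have hemb : MeasurableEmbedding (Prod.map U (id : ℝ → ℝ)) :=
    U.toHomeomorph.measurableEmbedding.prodMap MeasurableEmbedding.id
  rw [← hmp.integral_comp hemb]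
  refine integral_congr_ae (Filter.Eventually.of_forall fun q => ?_)
  obtain ⟨q1, q2⟩ := q
  simp only [Prod.map_apply, id]
  unfold gk
  rw [Phi_rot, Phi_rot, ← map_sub, LinearIsometryEquiv.norm_map]

theorem qq_const (l : ℝ) (y y' : E 2) (hy : ‖y‖ = 1) (hy' : ‖y'‖ = 1) (φ : ℝ) :
    qq l (y, φ) = qq l (y', φ) := by
  set U : E 2 ≃ₗᵢ[ℝ] E 2 := (ℝ ∙ (y - y'))ᗮ.reflection with hU
  have hUy : U y = y' := Submodule.reflection_sub (by rw [hy, hy'])
  rw [← hUy, qq_rot]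

theorem c2_rot (z : ℂ) (hz : ‖z‖ = 1) (w : E 2) : c2 (rotE hJ0 z hz w) = c2 w * z := by
  rw [rotE_apply, ← co_e2, co_cm hJ0, co_e2, mul_comm]

theorem rot_int (f : ℂ → ℝ) (z : ℂ) (hz : ‖z‖ = 1) :
    ∫ w, f (c2 w * z) ∂(sg 2) = ∫ w, f (c2 w) ∂(sg 2) := by
  have h := (sg_inv (rotE hJ0 z hz)).integral_comp
    (rotE hJ0 z hz).toHomeomorph.measurableEmbedding (fun w => f (c2 w))
  rw [← h]
  simp_rw [c2_rot]

theorem nu_ae : ∀ᵐ p ∂nu, ‖p.1‖ = 1 := by
  unfold nu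
  exact (quasiMeasurePreserving_fst (μ := sg 2) (ν := hp)).ae (sg_ae 2)

theorem piece_int (l : ℝ) (K : ℕ) (a : ℕ → ℂ) (u : ℝ → ℂ) (hu : Continuous u) (hu1 : ∀ φ, ‖u φ‖ = 1) :
    Integrable (fun p : E 2 × ℝ => ‖Aa K a (c2 p.1 * u p.2)‖ ^ 4 * qq l p) nu := by
  have h1 := Aa_cont K a
  have h2 := c2_cont
  have hc : Continuous fun p : E 2 × ℝ => ‖Aa K a (c2 p.1 * u p.2)‖ ^ 4 := by fun_prop
  refine Integrable.of_bound (hc.measurable.stronglyMeasurable.mul (qq_meas l)).aestronglyMeasurable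
    ((∑ k ∈ Finset.range K, ‖a k‖) ^ 4 * nu.real univ) ?_
  filter_upwards [nu_ae] with p hp1
  rw [norm_mul, Real.norm_of_nonneg (qq_nonneg l p), Real.norm_of_nonneg (by positivity)]
  have h3 : ‖Aa K a (c2 p.1 * u p.2)‖ ≤ ∑ k ∈ Finset.range K, ‖a k‖ := Aa_le K a _ (by
    rw [norm_mul, hu1, norm_c2, hp1]; norm_num)
  exact mul_le_mul (pow_le_pow_left₀ (norm_nonneg _) h3 4) (qq_le l p) (qq_nonneg l p) (by positivity)

theorem piece_eq (l : ℝ) (K : ℕ) (a : ℕ → ℂ) (u : ℝ → ℂ) (hu : Continuous u) (hu1 : ∀ φ, ‖u φ‖ = 1) :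
    ∫ p, ‖Aa K a (c2 p.1 * u p.2)‖ ^ 4 * qq l p ∂nu =
      (∫ φ, qq l (e2, φ) ∂hp) * ∫ w, ‖Aa K a (c2 w)‖ ^ 4 ∂(sg 2) := by
  have hfin := sg_finite 2
  have hint := piece_int l K a u hu hu1
  unfold nu at hint ⊢
  rw [integral_prod_symm _ hint, ← integral_mul_const]
  refine integral_congr_ae (Filter.Eventually.of_forall fun φ => ?_)
  simp only
  rw [← rot_int (fun z => ‖Aa K a z‖ ^ 4) (u φ) (hu1 φ), mul_comm, ← integral_mul_const]
  refine integral_congr_ae ?_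
  filter_upwards [sg_ae 2] with w hw
  rw [qq_const l w e2 hw norm_e2 φ]

theorem quad_le (l : ℝ) (n K : ℕ) (a : ℕ → ℂ) :
    ∫ p, ‖Hh n K a p‖ ^ 2 * qq l p ∂nu ≤
      (∫ φ, qq l (e2, φ) ∂hp) * ∫ w, ‖Aa K a (c2 w)‖ ^ 4 ∂(sg 2) := by
  have h1 := piece_int l K a (fun φ => Complex.exp (φ * I)) (by fun_prop) norm_exp_I
  have h2 := piece_int l K a (fun φ => Complex.exp (-(φ * I))) (by fun_prop) norm_exp_nI
  have e1 := piece_eq l K a (fun φ => Complex.exp (φ * I)) (by fun_prop) norm_exp_I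
  have e2' := piece_eq l K a (fun φ => Complex.exp (-(φ * I))) (by fun_prop) norm_exp_nI
  calc ∫ p, ‖Hh n K a p‖ ^ 2 * qq l p ∂nu
      ≤ ∫ p, ((1 / 2) * (‖Aa K a (c2 p.1 * Complex.exp (p.2 * I))‖ ^ 4 * qq l p) +
          (1 / 2) * (‖Aa K a (c2 p.1 * Complex.exp (-(p.2 * I)))‖ ^ 4 * qq l p)) ∂nu := by
        apply integral_mono_of_nonneg
        · exact Filter.Eventually.of_forall fun p => mul_nonneg (by positivity) (qq_nonneg l p)
        · exact (h1.const_mul _).add (h2.const_mul _)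
        · filter_upwards [nu_ae] with p hp1
          have h6 := qq_nonneg l p
          have h3 : Hh n K a p = hu n K a p := Hh_eq n K a p.1 p.2 hp1
          rw [h3]
          unfold hu
          rw [norm_mul, norm_mul, norm_pow, norm_c2, hp1, one_pow, one_mul]
          generalize ‖Aa K a (c2 p.1 * Complex.exp (p.2 * I))‖ = A
          generalize ‖Aa K a (c2 p.1 * Complex.exp (-(p.2 * I)))‖ = B
          have h7 : (A * B) ^ 2 ≤ (1 / 2) * A ^ 4 + (1 / 2) * B ^ 4 := by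
            nlinarith [sq_nonneg (A ^ 2 - B ^ 2)]
          calc (A * B) ^ 2 * qq l p ≤ ((1 / 2) * A ^ 4 + (1 / 2) * B ^ 4) * qq l p := by gcongr
            _ = _ := by ring
    _ = _ := by
        rw [integral_add (h1.const_mul _) (h2.const_mul _), integral_const_mul, integral_const_mul,
          e1, e2']
        ring

theorem cn2_pos : 0 < cn 2 := by
  have hfin := sg_finite 2
  have hne : Nontrivial (E 2) := inferInstance
  unfold cn
  rw [measureReal_def]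
  apply ENNReal.toReal_pos _ (measure_ne_top _ _)
  rw [Pool.Agent.H789R2.FR.sg_apply MeasurableSet.univ, preimage_univ, Ne,
    Measure.measure_univ_eq_zero]
  exact Measure.toSphere_ne_zero _

/-- the weighted estimate -/
theorem F_weight (n : ℕ) (hn : 2 ≤ n) (δ : ℝ) (hδ : 0 < δ) (hδ1 : δ ≤ 1) : ∃ C : ℝ, 0 < C ∧
    ∀ (K : ℕ) (a : ℕ → ℂ) (l : ℝ), 1 ≤ l →
    ∫ x : E 2, W l x * ‖c2 x ^ (n - 2) * Ff n K a x ^ 2‖ ^ 2 ≤
      C * l ^ δ * ∫ w, ‖Aa K a (c2 w)‖ ^ 4 ∂(sg 2) := by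
  obtain ⟨C, hC, h⟩ := one_int δ hδ hδ1
  have hfin := sg_finite 2
  have hcn := cn2_pos
  have hw : 0 < ‖wN n‖ := norm_pos_iff.2 (wN_ne n)
  have hw2 : 0 < ‖wN 2‖ := norm_pos_iff.2 (wN_ne 2)
  set c := (‖wN 2‖ / cn 2) ^ 2 / cn 2 / (cn 2 * ‖wN n‖) ^ 2 with hc
  have hc0 : 0 < c := by positivity
  refine ⟨c * C, by positivity, fun K a l hl => ?_⟩
  have hl0 : 0 < l := by linarith
  have h1 := schur nu Phi Phi_cont.measurable (Hh n K a) (Hh_meas n K a) _ (Hh_le n K a) hl0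
  have h2 := l2_one nu Phi Phi_cont.measurable hl0
  have e3 : ∀ p : E 2 × ℝ, ∫ p', gk l (Phi p - Phi p') ∂nu = qq l p := fun p => rfl
  simp_rw [e3] at h1 h2
  set P : ℝ := (Real.pi * l ^ 2) ^ (((2 : ℕ) : ℝ) / 2) with hP
  have hP0 : 0 ≤ P := by positivity
  have e4 : ∫ p, qq l p ∂nu = cn 2 * ∫ φ, qq l (e2, φ) ∂hp := by
    have hint : Integrable (qq l) nu :=
      Integrable.of_bound (qq_meas l).aestronglyMeasurable (nu.real univ)
        (Filter.Eventually.of_forall fun p => by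
          rw [Real.norm_of_nonneg (qq_nonneg l p)]
          exact qq_le l p)
    unfold nu at hint ⊢
    rw [integral_prod_symm _ hint, ← integral_const_mul]
    refine integral_congr_ae (Filter.Eventually.of_forall fun φ => ?_)
    simp only
    have : ∫ w, qq l (w, φ) ∂(sg 2) = ∫ _w, qq l (e2, φ) ∂(sg 2) := by
      refine integral_congr_ae ?_
      filter_upwards [sg_ae 2] with w hw
      exact qq_const l w e2 hw norm_e2 φ
    rw [this, integral_const, smul_eq_mul]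
    rfl
  have e5 : ∫ x : E 2, W l x * ‖∫ ω, ph x (Phi ω) ∂nu‖ ^ 2 =
      (‖wN 2‖ / cn 2) ^ 2 * ∫ x : E 2, W l x * ‖T (fun _ : E 2 => (1 : ℂ)) x‖ ^ 4 := by
    rw [← integral_const_mul]
    refine integral_congr_ae (Filter.Eventually.of_forall fun x => ?_)
    simp only
    rw [V_one, norm_mul, norm_div, norm_pow, Complex.norm_real, Real.norm_of_nonneg hcn.le]
    ring
  have e6 : ∫ x : E 2, W l x * ‖∫ ω, ph x (Phi ω) * Hh n K a ω ∂nu‖ ^ 2 =
      (cn 2 * ‖wN n‖) ^ 2 * ∫ x : E 2, W l x * ‖c2 x ^ (n - 2) * Ff n K a x ^ 2‖ ^ 2 := by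
    rw [← integral_const_mul]
    refine integral_congr_ae (Filter.Eventually.of_forall fun x => ?_)
    simp only
    rw [V_eq n K hn, mul_pow (-I), norm_mul, norm_mul, norm_mul, norm_mul (c2 x ^ (n - 2)),
      norm_mul ((-I) ^ (n - 2)), norm_pow (-I), norm_neg, Complex.norm_I,
      Complex.norm_real, Real.norm_of_nonneg hcn.le]
    ring
  have h7 := quad_le l n K a
  set I4 := ∫ w, ‖Aa K a (c2 w)‖ ^ 4 ∂(sg 2) with hI4
  have hI0 : 0 ≤ I4 := integral_nonneg fun w => by positivity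
  rw [e6] at h1
  rw [e4, e5] at h2
  have h8 : (cn 2 * ‖wN n‖) ^ 2 * ∫ x : E 2, W l x * ‖c2 x ^ (n - 2) * Ff n K a x ^ 2‖ ^ 2 ≤
      (‖wN 2‖ / cn 2) ^ 2 / cn 2 * (C * l ^ δ) * I4 := by
    calc (cn 2 * ‖wN n‖) ^ 2 * ∫ x : E 2, W l x * ‖c2 x ^ (n - 2) * Ff n K a x ^ 2‖ ^ 2
        ≤ P * ((∫ φ, qq l (e2, φ) ∂hp) * I4) := h1.trans (mul_le_mul_of_nonneg_left h7 hP0)
      _ = (P * (cn 2 * ∫ φ, qq l (e2, φ) ∂hp)) / cn 2 * I4 := by field_simp
      _ = ((‖wN 2‖ / cn 2) ^ 2 * ∫ x : E 2, W l x * ‖T (fun _ : E 2 => (1 : ℂ)) x‖ ^ 4) / cn 2 *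
          I4 := by rw [h2]
      _ ≤ ((‖wN 2‖ / cn 2) ^ 2 * (C * l ^ δ)) / cn 2 * I4 := by
          gcongr
          exact h l hl
      _ = _ := by ring
  have h9 : 0 < (cn 2 * ‖wN n‖) ^ 2 := by positivity
  rw [← mul_le_mul_iff_right₀ h9]
  refine h8.trans (le_of_eq ?_)
  rw [hc]
  field_simp

/-- the form used below -/
theorem F_ball (n : ℕ) (hn : 2 ≤ n) (δ : ℝ) (hδ : 0 < δ) (hδ1 : δ ≤ 1) : ∃ C : ℝ, 0 < C ∧
    ∀ (K : ℕ) (a : ℕ → ℂ) (R : ℝ), 1 ≤ R →
    ∫⁻ x in closedBall (0 : E 2) (2 * R), ‖c2 x ^ (n - 2) * Ff n K a x ^ 2‖ₑ ^ 2 ≤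
      ENNReal.ofReal (C * R ^ δ) * ∫⁻ w, ‖Aa K a (c2 w)‖ₑ ^ 4 ∂(sg 2) := by
  obtain ⟨C, hC, h⟩ := F_weight n hn δ hδ hδ1
  have hfin := sg_finite 2
  refine ⟨Real.exp 4 * C, by positivity, fun K a R hR => ?_⟩
  have hR0 : 0 < R := by linarith
  have h1 := h K a R hR
  set S := ∑ k ∈ Finset.range K, ‖a k‖ with hS
  set G : E 2 → ℂ := fun x => c2 x ^ (n - 2) * Ff n K a x ^ 2 with hG
  have hw : 0 < ‖wN n‖ := norm_pos_iff.2 (wN_ne n)
  have hcn := cn2_pos
  have hGc : Continuous G := by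
    rw [hG]
    unfold Ff
    have h3 : ∀ k, Continuous (Psi n k) := fun k => Psi_cont (by omega) k
    have h4 := c2_cont
    fun_prop
  -- boundedness of `G`
  have hGb : ∀ x, ‖G x‖ ≤ S ^ 2 * nu.real univ / (cn 2 * ‖wN n‖) := by
    intro x
    rw [le_div_iff₀ (by positivity)]
    have h3 : ‖∫ p, ph x (Phi p) * Hh n K a p ∂nu‖ ≤ S ^ 2 * nu.real univ :=
      norm_integral_le_of_norm_le_const (Filter.Eventually.of_forall fun p => by
        rw [norm_mul, norm_ph, one_mul]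
        exact Hh_le n K a p)
    rw [V_eq n K hn, mul_pow (-I), norm_mul, norm_mul, norm_mul,
      norm_mul ((-I) ^ (n - 2)), norm_pow (-I), norm_neg, Complex.norm_I,
      Complex.norm_real, Real.norm_of_nonneg hcn.le, one_pow, one_mul] at h3
    rw [hG]
    simp only
    rw [norm_mul]
    linarith
  have hint : Integrable (fun x : E 2 => W R x * ‖G x‖ ^ 2) := by
    refine Integrable.mono' ((integrable_W hR0).mul_const
      ((S ^ 2 * nu.real univ / (cn 2 * ‖wN n‖)) ^ 2))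
      ((continuous_W R).mul (hGc.norm.pow 2)).aestronglyMeasurable
      (Filter.Eventually.of_forall fun x => ?_)
    rw [Real.norm_of_nonneg (mul_nonneg (W_pos R x).le (by positivity))]
    exact mul_le_mul_of_nonneg_left (pow_le_pow_left₀ (norm_nonneg _) (hGb x) 2) (W_pos R x).le
  have hAc : Continuous fun w : E 2 => ‖Aa K a (c2 w)‖ ^ 4 := by
    have h1 := Aa_cont K a
    have h2 := c2_cont
    fun_prop
  have e1 : ∫⁻ w, ‖Aa K a (c2 w)‖ₑ ^ 4 ∂(sg 2) =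
      ENNReal.ofReal (∫ w, ‖Aa K a (c2 w)‖ ^ 4 ∂(sg 2)) := by
    rw [ofReal_integral_eq_lintegral_ofReal]
    · refine lintegral_congr fun w => ?_
      rw [← ofReal_norm, ENNReal.ofReal_pow (norm_nonneg _)]
    · refine Integrable.of_bound hAc.aestronglyMeasurable (S ^ 4) ?_
      filter_upwards [sg_ae 2] with x hx
      rw [Real.norm_of_nonneg (by positivity)]
      exact pow_le_pow_left₀ (norm_nonneg _) (Aa_le K a _ (by rw [norm_c2, hx])) 4
    · exact Filter.Eventually.of_forall fun x => by positivity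
  rw [e1, ← ENNReal.ofReal_mul (by positivity)]
  calc ∫⁻ x in closedBall (0 : E 2) (2 * R), ‖G x‖ₑ ^ 2
      ≤ ∫⁻ x in closedBall (0 : E 2) (2 * R),
          ENNReal.ofReal (Real.exp 4 * (W R x * ‖G x‖ ^ 2)) := by
        refine setLIntegral_mono' measurableSet_closedBall fun x hx => ?_
        rw [← ofReal_norm, ← ENNReal.ofReal_pow (norm_nonneg _)]
        apply ENNReal.ofReal_le_ofReal
        rw [mem_closedBall_zero_iff] at hx
        have h2 : 1 ≤ Real.exp 4 * W R x := by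
          unfold W
          rw [← Real.exp_add, Real.one_le_exp_iff, neg_div]
          have h3 : ‖x‖ ^ 2 / R ^ 2 ≤ 4 := by
            rw [div_le_iff₀ (by positivity)]
            calc ‖x‖ ^ 2 ≤ (2 * R) ^ 2 := by gcongr
              _ = 4 * R ^ 2 := by ring
          linarith
        calc ‖G x‖ ^ 2 = 1 * ‖G x‖ ^ 2 := (one_mul _).symm
          _ ≤ (Real.exp 4 * W R x) * ‖G x‖ ^ 2 := by gcongr
          _ = _ := by ring
    _ ≤ ∫⁻ x, ENNReal.ofReal (Real.exp 4 * (W R x * ‖G x‖ ^ 2)) := setLIntegral_le_lintegral _ _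
    _ = ENNReal.ofReal (∫ x, Real.exp 4 * (W R x * ‖G x‖ ^ 2)) := by
        rw [ofReal_integral_eq_lintegral_ofReal (hint.const_mul _)]
        exact Filter.Eventually.of_forall fun x =>
          mul_nonneg (Real.exp_pos _).le (mul_nonneg (W_pos R x).le (by positivity))
    _ ≤ ENNReal.ofReal (Real.exp 4 * C * R ^ δ * ∫ w, ‖Aa K a (c2 w)‖ ^ 4 ∂(sg 2)) := by
        apply ENNReal.ofReal_le_ofReal
        rw [integral_const_mul]
        calc Real.exp 4 * ∫ x, W R x * ‖G x‖ ^ 2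
            ≤ Real.exp 4 * (C * R ^ δ * ∫ w, ‖Aa K a (c2 w)‖ ^ 4 ∂(sg 2)) := by gcongr
          _ = _ := by ring

end Pool.Agent.Helper969.HW
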