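import Mathlib
import Pool.Agent.Helper969.HW.C3
set_option autoImplicit false

/-! The averaged `L^4` estimate on shells. -/

namespace Pool.Agent.Helper969.HW

open MeasureTheory Measure Set Metric Complex MvPolynomial
open Pool.Agent.H789R2.FR (E sg sg_finite sg_ae sg_inv T polar)
open Pool.Agent.H789R2.FR.L2 (ph norm_ph continuous_ph T_eq W W_pos continuous_W integrable_W)
open Pool.Agent.Y251.HR (c2 c2_cont norm_c2 c2_smul shell shell_meas)
open scoped RealInnerProductSpace ENNReal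

variable {n : ℕ}

/-- the density with circle parameter `z` -/
noncomputable def Uu (K : ℕ) (P : ℕ → MvPolynomial (Fin n) ℂ) (z : ℂ) (w : E n) : ℂ :=
  Aa K (fun k => ev (P k) w) z

theorem Uu_cont (K : ℕ) (P : ℕ → MvPolynomial (Fin n) ℂ) :
    Continuous fun p : ℂ × E n => Uu K P p.1 p.2 := by
  unfold Uu Aa
  have h : ∀ k, Continuous (ev (P k)) := fun k => ev_cont (P k)
  fun_prop

theorem Uu2_meas (K : ℕ) (P : ℕ → MvPolynomial (Fin n) ℂ) :
    Measurable (Function.uncurry fun (y : E 2) (w : E n) => ‖Uu K P (c2 y) w‖ₑ ^ 4) := by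
  have h : ∀ k, Continuous (ev (P k)) := fun k => ev_cont (P k)
  have h2 := c2_cont
  have h3 : Continuous (Function.uncurry fun (y : E 2) (w : E n) => Uu K P (c2 y) w) := by
    unfold Uu Aa Function.uncurry
    fun_prop
  exact h3.measurable.enorm.pow_const 4

theorem int_ph_ev (P : MvPolynomial (Fin n) ℂ) (x : E n) :
    Integrable (fun w => ph x w * ev P w) (sg n) := by
  have hfin := sg_finite n
  obtain ⟨C, hC⟩ := (isCompact_sphere (0 : E n) 1).exists_bound_of_continuousOn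
    (ev_cont P).continuousOn
  have hc : Continuous fun w : E n => ph x w * ev P w := by
    have h1 : Continuous fun w : E n => ph x w :=
      (continuous_ph (n := n)).comp (continuous_const.prodMk continuous_id)
    exact h1.mul (ev_cont P)
  refine Integrable.of_bound hc.aestronglyMeasurable C ?_
  filter_upwards [sg_ae n] with w hw
  rw [norm_mul, norm_ph, one_mul]
  exact hC w (by simpa using hw)

theorem T_U (hn : 2 ≤ n) (K : ℕ) (P : ℕ → MvPolynomial (Fin n) ℂ) (hP : ∀ k, Harm k (P k))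
    (z : ℂ) (x : E n) : T (Uu K P z) x = (cn n : ℂ) * ∑ k ∈ Finset.range K,
      ev (P k) x * ((-I * z) ^ k * ((Psi n k (‖x‖ ^ 2) : ℝ) : ℂ)) := by
  have h1 : T (Uu K P z) x = ∑ k ∈ Finset.range K, z ^ k * T (ev (P k)) x := by
    rw [T_eq]
    unfold Uu Aa
    have e : ∀ w, ph x w * ∑ k ∈ Finset.range K, ev (P k) w * z ^ k =
        ∑ k ∈ Finset.range K, z ^ k * (ph x w * ev (P k) w) := by
      intro w
      rw [Finset.mul_sum]
      refine Finset.sum_congr rfl fun k _ => ?_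
      ring
    simp_rw [e]
    rw [integral_finsetSum]
    · refine Finset.sum_congr rfl fun k _ => ?_
      rw [integral_const_mul, T_eq]
    · intro k _
      exact (int_ph_ev _ _).const_mul _
  rw [h1, Finset.mul_sum]
  refine Finset.sum_congr rfl fun k _ => ?_
  rw [T_harm hn (hP k), mul_pow]
  ring

theorem T_U_cont (hn : 2 ≤ n) (K : ℕ) (P : ℕ → MvPolynomial (Fin n) ℂ) (hP : ∀ k, Harm k (P k)) :
    Continuous fun p : ℂ × E n => T (Uu K P p.1) p.2 := by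
  simp_rw [T_U hn K P hP]
  have h : ∀ k, Continuous (ev (P k)) := fun k => ev_cont (P k)
  have h3 : ∀ k, Continuous (Psi n k) := fun k => Psi_cont (by omega) k
  fun_prop

theorem T_U_cont2 (hn : 2 ≤ n) (K : ℕ) (P : ℕ → MvPolynomial (Fin n) ℂ) (hP : ∀ k, Harm k (P k)) :
    Continuous fun p : E 2 × E n => T (Uu K P (c2 p.1)) p.2 := by
  simp_rw [T_U hn K P hP]
  have h : ∀ k, Continuous (ev (P k)) := fun k => ev_cont (P k)
  have h3 : ∀ k, Continuous (Psi n k) := fun k => Psi_cont (by omega) k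
  have h2 := c2_cont
  fun_prop

/-- on a ray the transform is the planar one -/
theorem T_ray (hn : 2 ≤ n) (K : ℕ) (P : ℕ → MvPolynomial (Fin n) ℂ) (hP : ∀ k, Harm k (P k))
    (y : E 2) (hy : ‖y‖ = 1) (w : E n) (hw : ‖w‖ = 1) (r : ℝ) :
    T (Uu K P (c2 y)) (r • w) = (cn n : ℂ) * Ff n K (fun k => ev (P k) w) (r • y) := by
  rw [T_U hn K P hP]
  unfold Ff
  congr 1
  refine Finset.sum_congr rfl fun k _ => ?_
  rw [ev_smul (hP k).1, c2_smul, norm_smul, norm_smul, hy, hw]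
  have : -I * ((r : ℂ) * c2 y) = (r : ℂ) * (-I * c2 y) := by ring
  rw [this, mul_pow (r : ℂ)]
  ring

/-- the integrand on a shell -/
noncomputable def fS (K : ℕ) (P : ℕ → MvPolynomial (Fin n) ℂ) (R : ℝ) (p : E 2 × E n) : ℝ≥0∞ :=
  {p : E 2 × E n | p.2 ∈ shell n R}.indicator
        (fun p : E 2 × E n => ‖T (Uu K P (c2 p.1)) p.2‖ₑ ^ 4) p

theorem fS_meas (hn : 2 ≤ n) (K : ℕ) (P : ℕ → MvPolynomial (Fin n) ℂ) (hP : ∀ k, Harm k (P k))
    (R : ℝ) : Measurable (fS K P R) := by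
  have h1 := T_U_cont2 hn K P hP
  exact (h1.measurable.enorm.pow_const 4).indicator (measurable_snd (shell_meas R))

theorem fS_in (K : ℕ) (P : ℕ → MvPolynomial (Fin n) ℂ) (R : ℝ) (y : E 2) (x : E n)
    (hx : x ∈ shell n R) : fS K P R (y, x) = ‖T (Uu K P (c2 y)) x‖ₑ ^ 4 := by
  unfold fS
  rw [indicator_of_mem]
  exact hx

theorem fS_out (K : ℕ) (P : ℕ → MvPolynomial (Fin n) ℂ) (R : ℝ) (y : E 2) (x : E n)
    (hx : x ∉ shell n R) : fS K P R (y, x) = 0 := by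
  unfold fS
  rw [indicator_of_notMem]
  exact hx

theorem fS_int (K : ℕ) (P : ℕ → MvPolynomial (Fin n) ℂ) (R : ℝ) (y : E 2) :
    ∫⁻ x in shell n R, ‖T (Uu K P (c2 y)) x‖ₑ ^ 4 = ∫⁻ x, fS K P R (y, x) := by
  rw [← lintegral_indicator (shell_meas R)]
  refine lintegral_congr fun x => ?_
  by_cases hx : x ∈ shell n R
  · rw [indicator_of_mem hx, fS_in K P R y x hx]
  · rw [indicator_of_notMem hx, fS_out K P R y x hx]

/-- the planar function -/
noncomputable def GG (n K : ℕ) (a : ℕ → ℂ) (x : E 2) : ℂ := c2 x ^ (n - 2) * Ff n K a x ^ 2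

theorem GG_cont (hn : 2 ≤ n) (K : ℕ) (a : ℕ → ℂ) : Continuous (GG n K a) := by
  unfold GG Ff
  have h3 : ∀ k, Continuous (Psi n k) := fun k => Psi_cont (by omega) k
  have h4 := c2_cont
  fun_prop

noncomputable def kS (n K : ℕ) (a : ℕ → ℂ) (R : ℝ) (x : E 2) : ℝ≥0∞ :=
  (closedBall (0 : E 2) (2 * R)).indicator (fun x => ‖GG n K a x‖ₑ ^ 2) x

theorem kS_meas (hn : 2 ≤ n) (K : ℕ) (a : ℕ → ℂ) (R : ℝ) : Measurable (kS n K a R) :=
  ((GG_cont hn K a).measurable.enorm.pow_const 2).indicator measurableSet_closedBall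

theorem cn_nonneg (n : ℕ) : 0 ≤ cn n := by unfold cn; positivity

theorem ray_le (hn : 2 ≤ n) (K : ℕ) (P : ℕ → MvPolynomial (Fin n) ℂ) (hP : ∀ k, Harm k (P k))
    (R : ℝ) (hR : 1 ≤ R) (w : E n) (hw : ‖w‖ = 1) (y : E 2) (hy : ‖y‖ = 1) (r : ℝ) (hr0 : 0 < r) :
    ENNReal.ofReal (r ^ (n - 1)) * fS K P R (y, r • w) ≤
      ENNReal.ofReal (cn n ^ 4 * R ^ (-((n : ℝ) - 2))) *
        (ENNReal.ofReal (r ^ (2 - 1)) * kS n K (fun k => ev (P k) w) R (r • y)) := by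
  have hR0 : 0 < R := by linarith
  have hcn0 := cn_nonneg n
  have hnorm : ‖r • w‖ = r := by
    rw [norm_smul, hw, Real.norm_of_nonneg hr0.le]
    ring
  by_cases hsh : R < r ∧ r ≤ 2 * R
  · have hin : r • w ∈ shell n R := by
      change R < ‖_‖ ∧ ‖_‖ ≤ 2 * R
      rw [hnorm]
      exact hsh
    have hry : ‖r • y‖ = r := by rw [norm_smul, hy, mul_one, Real.norm_of_nonneg hr0.le]
    have hin2 : r • y ∈ closedBall (0 : E 2) (2 * R) := by
      rw [mem_closedBall_zero_iff, hry]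
      exact hsh.2
    rw [fS_in K P R y _ hin]
    unfold kS
    rw [indicator_of_mem hin2, T_ray hn K P hP y hy w hw r]
    unfold GG
    rw [← ofReal_norm, ← ofReal_norm, norm_mul, norm_mul, norm_pow, norm_pow, norm_c2, hry,
      Complex.norm_real, Real.norm_of_nonneg hcn0, ← ENNReal.ofReal_pow (by positivity),
      ← ENNReal.ofReal_pow (by positivity), ← ENNReal.ofReal_mul (by positivity),
      ← ENNReal.ofReal_mul (by positivity), ← ENNReal.ofReal_mul (by positivity)]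
    apply ENNReal.ofReal_le_ofReal
    generalize ‖Ff n K (fun k => ev (P k) w) (r • y)‖ = B
    have e5 : (R : ℝ) ^ (-((n : ℝ) - 2)) = (R ^ (n - 2))⁻¹ := by
      rw [Real.rpow_neg hR0.le, ← Real.rpow_natCast R (n - 2), Nat.cast_sub hn]
      norm_num
    have e6 : r ^ (n - 1) = r * r ^ (n - 2) := by
      rw [← pow_succ']
      congr 1
      omega
    have e7 : (1 : ℝ) ≤ (R ^ (n - 2))⁻¹ * r ^ (n - 2) := by
      rw [inv_mul_eq_div, le_div_iff₀ (by positivity), one_mul]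
      exact pow_le_pow_left₀ hR0.le hsh.1.le _
    rw [e5, e6]
    have hB4 : 0 ≤ B ^ 4 := by positivity
    calc r * r ^ (n - 2) * (cn n * B) ^ 4
        = (cn n ^ 4 * r * r ^ (n - 2) * B ^ 4) * 1 := by ring
      _ ≤ (cn n ^ 4 * r * r ^ (n - 2) * B ^ 4) * ((R ^ (n - 2))⁻¹ * r ^ (n - 2)) := by gcongr
      _ = cn n ^ 4 * (R ^ (n - 2))⁻¹ * (r ^ (2 - 1) * (r ^ (n - 2) * B ^ 2) ^ 2) := by ring
  · have hout : r • w ∉ shell n R := by
      intro hin
      apply hsh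
      change R < ‖_‖ ∧ ‖_‖ ≤ 2 * R at hin
      rwa [hnorm] at hin
    rw [fS_out K P R y _ hout, mul_zero]
    exact zero_le

theorem slice_le (n : ℕ) (hn : 2 ≤ n) (δ : ℝ) (hδ : 0 < δ) (hδ1 : δ ≤ 1) : ∃ C : ℝ, 0 < C ∧
    ∀ (K : ℕ) (P : ℕ → MvPolynomial (Fin n) ℂ), (∀ k, Harm k (P k)) → ∀ R : ℝ, 1 ≤ R →
    ∀ w : E n, ‖w‖ = 1 →
    ∫⁻ y, (∫⁻ r in Ioi (0 : ℝ), ENNReal.ofReal (r ^ (n - 1)) * fS K P R (y, r • w)) ∂(sg 2) ≤
      ENNReal.ofReal (C * R ^ (δ - ((n : ℝ) - 2))) *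
        ∫⁻ y, ‖Uu K P (c2 y) w‖ₑ ^ 4 ∂(sg 2) := by
  obtain ⟨C, hC, h⟩ := F_ball n hn δ hδ hδ1
  have hcn0 := cn_nonneg n
  refine ⟨(cn n ^ 4 + 1) * C, by positivity, fun K P hP R hR w hw => ?_⟩
  have hR0 : 0 < R := by linarith
  have h4 := h K (fun k => ev (P k) w) R hR
  have h5 : ∫⁻ x in closedBall (0 : E 2) (2 * R),
      ‖c2 x ^ (n - 2) * Ff n K (fun k => ev (P k) w) x ^ 2‖ₑ ^ 2 =
      ∫⁻ x, kS n K (fun k => ev (P k) w) R x := by
    unfold kS
    rw [lintegral_indicator measurableSet_closedBall]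
    rfl
  rw [h5, polar (n := 2) (by norm_num) _ (kS_meas hn K _ R)] at h4
  have h6 : ∫⁻ y, (∫⁻ r in Ioi (0 : ℝ), ENNReal.ofReal (r ^ (n - 1)) *
        fS K P R (y, r • w)) ∂(sg 2) ≤
      ENNReal.ofReal (cn n ^ 4 * R ^ (-((n : ℝ) - 2))) *
        ∫⁻ y, (∫⁻ r in Ioi (0 : ℝ), ENNReal.ofReal (r ^ (2 - 1)) *
          kS n K (fun k => ev (P k) w) R (r • y)) ∂(sg 2) := by
    rw [← lintegral_const_mul' _ _ ENNReal.ofReal_ne_top]
    refine lintegral_mono_ae ?_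
    filter_upwards [sg_ae 2] with y hy
    rw [← lintegral_const_mul' _ _ ENNReal.ofReal_ne_top]
    exact setLIntegral_mono' measurableSet_Ioi fun r hr => ray_le hn K P hP R hR w hw y hy r hr
  refine h6.trans ((mul_le_mul' le_rfl h4).trans (le_of_eq_of_le (mul_assoc _ _ _).symm ?_))
  refine mul_le_mul' ?_ le_rfl
  rw [← ENNReal.ofReal_mul (by positivity)]
  apply ENNReal.ofReal_le_ofReal
  rw [show δ - ((n : ℝ) - 2) = -((n : ℝ) - 2) + δ by ring, Real.rpow_add hR0]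
  calc cn n ^ 4 * R ^ (-((n : ℝ) - 2)) * (C * R ^ δ)
      = cn n ^ 4 * C * (R ^ (-((n : ℝ) - 2)) * R ^ δ) := by ring
    _ ≤ (cn n ^ 4 + 1) * C * (R ^ (-((n : ℝ) - 2)) * R ^ δ) := by
        gcongr
        linarith

theorem avg4 (n : ℕ) (hn : 2 ≤ n) (δ : ℝ) (hδ : 0 < δ) (hδ1 : δ ≤ 1) : ∃ C : ℝ, 0 < C ∧
    ∀ (K : ℕ) (P : ℕ → MvPolynomial (Fin n) ℂ), (∀ k, Harm k (P k)) → ∀ R : ℝ, 1 ≤ R →
    ∫⁻ y, (∫⁻ x in shell n R, ‖T (Uu K P (c2 y)) x‖ₑ ^ 4) ∂(sg 2) ≤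
      ENNReal.ofReal (C * R ^ (δ - ((n : ℝ) - 2))) *
        ∫⁻ y, (∫⁻ w, ‖Uu K P (c2 y) w‖ₑ ^ 4 ∂(sg n)) ∂(sg 2) := by
  obtain ⟨C, hC, h⟩ := slice_le n hn δ hδ hδ1
  have hfin := sg_finite n
  have hfin2 := sg_finite 2
  refine ⟨C, hC, fun K P hP R hR => ?_⟩
  have hR0 : 0 < R := by linarith
  have hn0 : 0 < n := by omega
  have hfm := fS_meas hn K P hP R
  have e1 : ∀ y, ∫⁻ x in shell n R, ‖T (Uu K P (c2 y)) x‖ₑ ^ 4 =
      ∫⁻ w, (∫⁻ r in Ioi (0 : ℝ), ENNReal.ofReal (r ^ (n - 1)) * fS K P R (y, r • w)) ∂(sg n) := by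
    intro y
    rw [fS_int]
    exact polar hn0 (fun x => fS K P R (y, x)) (hfm.comp measurable_prodMk_left)
  simp_rw [e1]
  have hsw : Measurable (Function.uncurry fun (y : E 2) (w : E n) =>
      ∫⁻ r in Ioi (0 : ℝ), ENNReal.ofReal (r ^ (n - 1)) * fS K P R (y, r • w)) := by
    apply Measurable.lintegral_prod_right'
      (f := fun p : (E 2 × E n) × ℝ => ENNReal.ofReal (p.2 ^ (n - 1)) *
        fS K P R (p.1.1, p.2 • p.1.2))
    refine Measurable.mul (by fun_prop) ?_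
    have h3 : Measurable fun p : (E 2 × E n) × ℝ => (p.1.1, p.2 • p.1.2) := by fun_prop
    exact hfm.comp h3
  have hsw2 := Uu2_meas K P
  rw [lintegral_lintegral_swap hsw.aemeasurable]
  rw [lintegral_lintegral_swap hsw2.aemeasurable, ← lintegral_const_mul' _ _ ENNReal.ofReal_ne_top]
  refine lintegral_mono_ae ?_
  filter_upwards [sg_ae n] with w hw
  exact h K P hP R hR w hw

end Pool.Agent.Helper969.HW
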