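import Mathlib
import Pool.Agent.Y251.HR.B5
import Pool.Agent.Helper969.HW.D1
set_option autoImplicit false

/-! Interpolation on a shell. -/

namespace Pool.Agent.Helper969.HW

open MeasureTheory Measure Set Metric Complex MvPolynomial
open Pool.Agent.H789R2.FR (E sg sg_finite sg_ae sg_inv T polar)
open Pool.Agent.H789R2.FR.L2 (ph norm_ph continuous_ph T_eq)
open Pool.Agent.Y251.HR (c2 c2_cont norm_c2 c2_smul shell shell_meas shell2 two_four one_four)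
open scoped RealInnerProductSpace ENNReal

variable {n : ℕ}

/-- the fourth moment -/
noncomputable def M4 (K : ℕ) (P : ℕ → MvPolynomial (Fin n) ℂ) : ℝ≥0∞ :=
  ∫⁻ y, (∫⁻ w, ‖Uu K P (c2 y) w‖ₑ ^ 4 ∂(sg n)) ∂(sg 2)

theorem T_cut (g : E n → ℂ) : T ((closedBall (0 : E n) 1).indicator g) = T g := by
  funext x
  rw [T_eq, T_eq]
  refine integral_congr_ae ?_
  filter_upwards [sg_ae n] with w hw
  rw [indicator_of_mem]
  rw [mem_closedBall_zero_iff]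
  exact hw.le

theorem cut_int (g : E n → ℂ) (q : ℕ) :
    ∫⁻ w, ‖(closedBall (0 : E n) 1).indicator g w‖ₑ ^ q ∂(sg n) = ∫⁻ w, ‖g w‖ₑ ^ q ∂(sg n) := by
  refine lintegral_congr_ae ?_
  filter_upwards [sg_ae n] with w hw
  rw [indicator_of_mem]
  rw [mem_closedBall_zero_iff]
  exact hw.le

theorem cut_bound (g : E n → ℂ) (hg : Continuous g) :
    ∃ M : ℝ, ∀ x, ‖(closedBall (0 : E n) 1).indicator g x‖ ≤ M := by
  obtain ⟨C, hC⟩ := (isCompact_closedBall (0 : E n) 1).exists_bound_of_continuousOn hg.continuousOn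
  refine ⟨max C 0, fun x => ?_⟩
  by_cases hx : x ∈ closedBall (0 : E n) 1
  · rw [indicator_of_mem hx]
    exact (hC x hx).trans (le_max_left _ _)
  · rw [indicator_of_notMem hx, norm_zero]
    exact le_max_right _ _

theorem Uu_cont1 (K : ℕ) (P : ℕ → MvPolynomial (Fin n) ℂ) (z : ℂ) : Continuous (Uu K P z) := by
  unfold Uu Aa
  have h : ∀ k, Continuous (ev (P k)) := fun k => ev_cont (P k)
  fun_prop

theorem Uu_enorm_cont (K : ℕ) (P : ℕ → MvPolynomial (Fin n) ℂ) :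
    Measurable fun p : E 2 × E n => Uu K P (c2 p.1) p.2 := by
  have h : ∀ k, Continuous (ev (P k)) := fun k => ev_cont (P k)
  have h2 := c2_cont
  have h3 : Continuous (fun p : E 2 × E n => Uu K P (c2 p.1) p.2) := by
    unfold Uu Aa
    fun_prop
  exact h3.measurable

theorem avg2 (n : ℕ) (hn : 2 ≤ n) : ∃ C : ℝ, 0 < C ∧
    ∀ (K : ℕ) (P : ℕ → MvPolynomial (Fin n) ℂ), ∀ R : ℝ, 1 ≤ R →
    ∫⁻ y, (∫⁻ x in shell n R, ‖T (Uu K P (c2 y)) x‖ₑ ^ 2) ∂(sg 2) ≤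
      ENNReal.ofReal (C * R) * M4 K P ^ (1 / 2 : ℝ) := by
  obtain ⟨C, hC, h⟩ := shell2 n hn
  have hfin := sg_finite n
  have hfin2 := sg_finite 2
  set A := ((sg 2).prod (sg n)).real univ with hA
  have hAe : ((sg 2).prod (sg n)) univ = ENNReal.ofReal A := by
    rw [hA, measureReal_def, ENNReal.ofReal_toReal (measure_ne_top _ _)]
  have hA0 : 0 ≤ A := by positivity
  refine ⟨C * (A + 1) ^ (1 / 2 : ℝ), by positivity, fun K P R hR => ?_⟩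
  have hR0 : 0 < R := by linarith
  have h1 : ∫⁻ y, (∫⁻ x in shell n R, ‖T (Uu K P (c2 y)) x‖ₑ ^ 2) ∂(sg 2) ≤
      ENNReal.ofReal (C * R) * ∫⁻ y, (∫⁻ w, ‖Uu K P (c2 y) w‖ₑ ^ 2 ∂(sg n)) ∂(sg 2) := by
    rw [← lintegral_const_mul' _ _ ENNReal.ofReal_ne_top]
    refine lintegral_mono fun y => ?_
    obtain ⟨M, hM⟩ := cut_bound (Uu K P (c2 y)) (Uu_cont1 K P (c2 y))
    have h2 := h _ ((Uu_cont1 K P (c2 y)).measurable.indicator measurableSet_closedBall) M hM R hR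
    rw [T_cut, cut_int] at h2
    exact h2
  refine h1.trans ?_
  have hm := Uu_enorm_cont K P
  have e1 : ∫⁻ y, (∫⁻ w, ‖Uu K P (c2 y) w‖ₑ ^ 2 ∂(sg n)) ∂(sg 2) =
      ∫⁻ p, ‖Uu K P (c2 p.1) p.2‖ₑ ^ 2 ∂((sg 2).prod (sg n)) := by
    rw [lintegral_prod _ (hm.enorm.pow_const 2).aemeasurable]
  have e2 : M4 K P = ∫⁻ p, ‖Uu K P (c2 p.1) p.2‖ₑ ^ 4 ∂((sg 2).prod (sg n)) := by
    unfold M4
    rw [lintegral_prod _ (hm.enorm.pow_const 4).aemeasurable]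
  rw [e1, e2]
  have h3 := ENNReal.lintegral_mul_norm_pow_le (μ := (sg 2).prod (sg n)) (f := fun _ => (1 : ℝ≥0∞))
    (g := fun p : E 2 × E n => ‖Uu K P (c2 p.1) p.2‖ₑ ^ 4) aemeasurable_const
    (hm.enorm.pow_const 4).aemeasurable
    (by norm_num : (0 : ℝ) ≤ 1 / 2) (by norm_num : (0 : ℝ) ≤ 1 / 2) (by norm_num)
  simp only [ENNReal.one_rpow, one_mul, lintegral_const] at h3
  have e3 : ∀ p : E 2 × E n, (‖Uu K P (c2 p.1) p.2‖ₑ ^ 4) ^ (1 / 2 : ℝ) =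
      ‖Uu K P (c2 p.1) p.2‖ₑ ^ 2 := by
    intro p
    rw [← ENNReal.rpow_natCast, ← ENNReal.rpow_natCast, ← ENNReal.rpow_mul]
    norm_num
  simp_rw [e3] at h3
  refine (mul_le_mul' le_rfl h3).trans ?_
  rw [hAe, ENNReal.ofReal_rpow_of_nonneg hA0 (by norm_num), ← mul_assoc,
    ← ENNReal.ofReal_mul (by positivity)]
  refine mul_le_mul' (ENNReal.ofReal_le_ofReal ?_) le_rfl
  have : A ^ (1 / 2 : ℝ) ≤ (A + 1) ^ (1 / 2 : ℝ) := Real.rpow_le_rpow hA0 (by linarith) (by norm_num)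
  calc C * R * A ^ (1 / 2 : ℝ) ≤ C * R * (A + 1) ^ (1 / 2 : ℝ) := by gcongr
    _ = _ := by ring

/-- interpolation on one shell -/
theorem avg_p (n : ℕ) (hn : 2 ≤ n) (p : ℝ) (hp2 : 2 < p) (hp4 : p < 4) (δ : ℝ) (hδ : 0 < δ)
    (hδ1 : δ ≤ 1) : ∃ C : ℝ, 0 < C ∧
    ∀ (K : ℕ) (P : ℕ → MvPolynomial (Fin n) ℂ), (∀ k, Harm k (P k)) →
    ∀ R : ℝ, 1 ≤ R → ∫⁻ y, (∫⁻ x in shell n R, ‖T (Uu K P (c2 y)) x‖ₑ ^ p) ∂(sg 2) ≤
      ENNReal.ofReal (C * R ^ ((4 - p) / 2 + (δ - ((n : ℝ) - 2)) * ((p - 2) / 2))) *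
        M4 K P ^ (p / 4) := by
  obtain ⟨C4, hC4, h4⟩ := avg4 n hn δ hδ hδ1
  obtain ⟨C2, hC2, h2⟩ := avg2 n hn
  have hfin := sg_finite n
  have hfin2 := sg_finite 2
  refine ⟨C2 ^ ((4 - p) / 2) * C4 ^ ((p - 2) / 2), by positivity, ?_⟩
  intro K P hP R hR
  have hR0 : 0 < R := by linarith
  have e2 := h2 K P R hR
  have e4 : ∫⁻ y, (∫⁻ x in shell n R, ‖T (Uu K P (c2 y)) x‖ₑ ^ 4) ∂(sg 2) ≤
      ENNReal.ofReal (C4 * R ^ (δ - ((n : ℝ) - 2))) * M4 K P := h4 K P hP R hR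
  have hm : Measurable fun q : E 2 × E n => T (Uu K P (c2 q.1)) q.2 :=
    (T_U_cont2 hn K P hP).measurable
  have f2 : ∫⁻ y, (∫⁻ x in shell n R, ‖T (Uu K P (c2 y)) x‖ₑ ^ 2) ∂(sg 2) =
      ∫⁻ q, ‖T (Uu K P (c2 q.1)) q.2‖ₑ ^ 2 ∂((sg 2).prod (volume.restrict (shell n R))) := by
    rw [lintegral_prod _ (hm.enorm.pow_const 2).aemeasurable]
  have f4 : ∫⁻ y, (∫⁻ x in shell n R, ‖T (Uu K P (c2 y)) x‖ₑ ^ 4) ∂(sg 2) =
      ∫⁻ q, ‖T (Uu K P (c2 q.1)) q.2‖ₑ ^ 4 ∂((sg 2).prod (volume.restrict (shell n R))) := by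
    rw [lintegral_prod _ (hm.enorm.pow_const 4).aemeasurable]
  have fp : ∫⁻ y, (∫⁻ x in shell n R, ‖T (Uu K P (c2 y)) x‖ₑ ^ p) ∂(sg 2) =
      ∫⁻ q, ‖T (Uu K P (c2 q.1)) q.2‖ₑ ^ p ∂((sg 2).prod (volume.restrict (shell n R))) := by
    rw [lintegral_prod _ (hm.enorm.pow_const p).aemeasurable]
  rw [f2] at e2
  rw [f4] at e4
  rw [fp]
  have hin := ENNReal.lintegral_mul_norm_pow_le (μ := (sg 2).prod (volume.restrict (shell n R)))
    (f := fun q : E 2 × E n => ‖T (Uu K P (c2 q.1)) q.2‖ₑ ^ 2)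
    (g := fun q : E 2 × E n => ‖T (Uu K P (c2 q.1)) q.2‖ₑ ^ 4)
    (hm.enorm.pow_const 2).aemeasurable (hm.enorm.pow_const 4).aemeasurable
    (by linarith : (0 : ℝ) ≤ (4 - p) / 2) (by linarith : (0 : ℝ) ≤ (p - 2) / 2) (by ring)
  have e1 : ∫⁻ q, ‖T (Uu K P (c2 q.1)) q.2‖ₑ ^ p ∂((sg 2).prod (volume.restrict (shell n R))) =
      ∫⁻ q, (‖T (Uu K P (c2 q.1)) q.2‖ₑ ^ 2) ^ ((4 - p) / 2) *
        (‖T (Uu K P (c2 q.1)) q.2‖ₑ ^ 4) ^ ((p - 2) / 2)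
        ∂((sg 2).prod (volume.restrict (shell n R))) := by
    refine lintegral_congr fun x => ?_
    rw [← ENNReal.rpow_natCast, ← ENNReal.rpow_natCast, ← ENNReal.rpow_mul, ← ENNReal.rpow_mul,
      ← ENNReal.rpow_add_of_nonneg _ _ (by push_cast; linarith) (by push_cast; linarith)]
    congr 1
    push_cast
    ring
  rw [e1]
  refine hin.trans ?_
  set B := M4 K P with hB
  have e5 : (∫⁻ q, ‖T (Uu K P (c2 q.1)) q.2‖ₑ ^ 2
      ∂((sg 2).prod (volume.restrict (shell n R)))) ^ ((4 - p) / 2) ≤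
      ENNReal.ofReal (C2 ^ ((4 - p) / 2) * R ^ ((4 - p) / 2)) * B ^ ((4 - p) / 4) := by
    refine (ENNReal.rpow_le_rpow e2 (by linarith)).trans ?_
    rw [ENNReal.mul_rpow_of_nonneg _ _ (by linarith), ← ENNReal.rpow_mul,
      ENNReal.ofReal_rpow_of_nonneg (by positivity) (by linarith),
      Real.mul_rpow hC2.le hR0.le]
    have e6 : (1 / 2 : ℝ) * ((4 - p) / 2) = (4 - p) / 4 := by ring
    rw [e6]
  have e7 : (∫⁻ q, ‖T (Uu K P (c2 q.1)) q.2‖ₑ ^ 4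
      ∂((sg 2).prod (volume.restrict (shell n R)))) ^ ((p - 2) / 2) ≤
      ENNReal.ofReal (C4 ^ ((p - 2) / 2) * R ^ ((δ - ((n : ℝ) - 2)) * ((p - 2) / 2))) *
        B ^ ((p - 2) / 2) := by
    refine (ENNReal.rpow_le_rpow e4 (by linarith)).trans ?_
    rw [ENNReal.mul_rpow_of_nonneg _ _ (by linarith),
      ENNReal.ofReal_rpow_of_nonneg (by positivity) (by linarith),
      Real.mul_rpow hC4.le (by positivity), ← Real.rpow_mul hR0.le]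
  refine (mul_le_mul' e5 e7).trans (le_of_eq ?_)
  rw [Real.rpow_add hR0]
  have e8 : B ^ (p / 4) = B ^ ((4 - p) / 4) * B ^ ((p - 2) / 2) := by
    rw [← ENNReal.rpow_add_of_nonneg _ _ (by linarith) (by linarith)]
    congr 1
    ring
  rw [e8]
  have e9 : C2 ^ ((4 - p) / 2) * C4 ^ ((p - 2) / 2) *
      (R ^ ((4 - p) / 2) * R ^ ((δ - ((n : ℝ) - 2)) * ((p - 2) / 2))) =
      (C2 ^ ((4 - p) / 2) * R ^ ((4 - p) / 2)) *
      (C4 ^ ((p - 2) / 2) * R ^ ((δ - ((n : ℝ) - 2)) * ((p - 2) / 2))) := by ring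
  rw [e9, ENNReal.ofReal_mul (p := C2 ^ ((4 - p) / 2) *
    R ^ ((4 - p) / 2)) (by positivity)]
  ring

end Pool.Agent.Helper969.HW
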