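import Mathlib
import Pool.Agent.Helper969.HW.E1
set_option autoImplicit false

/-! The averaged `L^p` estimate. -/

namespace Pool.Agent.Helper969.HW

open MeasureTheory Measure Set Metric Complex MvPolynomial
open Pool.Agent.H789R2.FR (E sg sg_finite sg_ae sg_inv T polar)
open Pool.Agent.H789R2.FR.L2 (ph norm_ph continuous_ph T_eq)
open Pool.Agent.Y251.HR (c2 c2_cont norm_c2 c2_smul shell shell_meas shell2 two_four one_four)
open scoped RealInnerProductSpace ENNReal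

variable {n : ℕ}

theorem cover : (univ : Set (E n)) ⊆ closedBall 0 1 ∪ ⋃ j : ℕ, shell n ((2 : ℝ) ^ j) := by
  intro x _
  by_cases hx : ‖x‖ ≤ 1
  · exact Or.inl (mem_closedBall_zero_iff.2 hx)
  · right
    push Not at hx
    obtain ⟨j, hj1, hj2⟩ := exists_nat_pow_near hx.le (by norm_num : (1 : ℝ) < 2)
    rw [mem_iUnion]
    rcases hj1.eq_or_lt with h0 | h0
    · rcases Nat.eq_zero_or_pos j with hj0 | hj0
      · subst hj0
        rw [pow_zero] at h0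
        linarith
      · refine ⟨j - 1, ?_, ?_⟩
        · rw [← h0]
          exact pow_lt_pow_right₀ (by norm_num) (by omega)
        · rw [← h0, ← pow_succ']
          apply le_of_eq
          congr 1
          omega
    · refine ⟨j, h0, ?_⟩
      rw [← pow_succ']
      exact hj2.le

theorem T_le_L1 (g : E n → ℂ) (x : E n) : ‖T g x‖ₑ ≤ ∫⁻ w, ‖g w‖ₑ ∂(sg n) := by
  rw [T_eq]
  refine (enorm_integral_le_lintegral_enorm _).trans (le_of_eq ?_)
  refine lintegral_congr fun w => ?_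
  rw [enorm_mul]
  have : ‖ph x w‖ₑ = 1 := by
    rw [← ofReal_norm, norm_ph, ENNReal.ofReal_one]
  rw [this, one_mul]

/-- **The averaged restriction estimate for spherical polynomials.** -/
theorem poly_p (n : ℕ) (hn : 3 ≤ n) (p : ℝ) (hp : 2 * (n : ℝ) / (n - 1) < p) (hp4 : p < 4) :
    ∃ C : ℝ, 0 < C ∧
    ∀ (K : ℕ) (P : ℕ → MvPolynomial (Fin n) ℂ), (∀ k, Harm k (P k)) →
    ∫⁻ y, (∫⁻ x, ‖T (Uu K P (c2 y)) x‖ₑ ^ p) ∂(sg 2) ≤ ENNReal.ofReal C * M4 K P ^ (p / 4) := by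
  have hn' : (3 : ℝ) ≤ n := by exact_mod_cast hn
  have hp2 : 2 < p := by
    refine lt_of_le_of_lt ?_ hp
    rw [le_div_iff₀ (by linarith)]
    linarith
  rw [div_lt_iff₀ (by linarith)] at hp
  set κ0 : ℝ := (p * (n - 1) - 2 * n) / 2 with hκ0
  have hκ0p : 0 < κ0 := by rw [hκ0]; linarith
  set δ : ℝ := min 1 (κ0 / 2) with hδ
  have hδ0 : 0 < δ := lt_min one_pos (by linarith)
  have hδ1 : δ ≤ 1 := min_le_left _ _
  have hδ2 : δ ≤ κ0 / 2 := min_le_right _ _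
  obtain ⟨C, hC, h⟩ := avg_p n (by omega) p hp2 hp4 δ hδ0 hδ1
  have hfin := sg_finite n
  have hfin2 := sg_finite 2
  set e : ℝ := (4 - p) / 2 + (δ - ((n : ℝ) - 2)) * ((p - 2) / 2) with he
  have he1 : e ≤ -(κ0 / 2) := by
    have h1 : e = -κ0 + δ * ((p - 2) / 2) := by
      rw [he, hκ0]
      ring
    have h2 : δ * ((p - 2) / 2) ≤ κ0 / 2 * 1 :=
      mul_le_mul hδ2 (by linarith) (by linarith) (by linarith)
    linarith
  have he0 : e < 0 := by linarith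
  set A := (sg n).real univ with hA
  have hA0 : 0 ≤ A := by positivity
  have hAe : sg n univ = ENNReal.ofReal A := by
    rw [hA, measureReal_def, ENNReal.ofReal_toReal (measure_ne_top _ _)]
  set A2 := (sg 2).real univ with hA2
  have hA20 : 0 ≤ A2 := by positivity
  have hA2e : sg 2 univ = ENNReal.ofReal A2 := by
    rw [hA2, measureReal_def, ENNReal.ofReal_toReal (measure_ne_top _ _)]
  set V := (volume : Measure (E n)).real (closedBall 0 1) with hV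
  have hVe : volume (closedBall (0 : E n) 1) = ENNReal.ofReal V := by
    rw [hV, measureReal_def, ENNReal.ofReal_toReal measure_closedBall_lt_top.ne]
  have hV0 : 0 ≤ V := measureReal_nonneg
  have hgeo : Summable fun j : ℕ => ((2 : ℝ) ^ e) ^ j := by
    apply summable_geometric_of_lt_one (by positivity)
    exact Real.rpow_lt_one_of_one_lt_of_neg (by norm_num) he0
  set G := ∑' j : ℕ, ((2 : ℝ) ^ e) ^ j with hG
  have hG0 : 0 ≤ G := tsum_nonneg fun j => by positivity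
  refine ⟨C * G + V * A ^ (3 * p / 4) * A2 ^ (1 - p / 4) + 1, by positivity, ?_⟩
  intro K P hP
  set B := M4 K P with hB
  have hTm : Measurable fun q : E 2 × E n => ‖T (Uu K P (c2 q.1)) q.2‖ₑ ^ p :=
    (T_U_cont2 (by omega) K P hP).measurable.enorm.pow_const p
  have hTs : ∀ s : Set (E n), Measurable fun y : E 2 => ∫⁻ x in s, ‖T (Uu K P (c2 y)) x‖ₑ ^ p :=
    fun s => hTm.lintegral_prod_right' (ν := volume.restrict s)
  have h1 : ∀ y, ∫⁻ x, ‖T (Uu K P (c2 y)) x‖ₑ ^ p ≤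
      (∫⁻ x in closedBall 0 1, ‖T (Uu K P (c2 y)) x‖ₑ ^ p) +
      ∑' j : ℕ, ∫⁻ x in shell n ((2 : ℝ) ^ j), ‖T (Uu K P (c2 y)) x‖ₑ ^ p := by
    intro y
    calc ∫⁻ x, ‖T (Uu K P (c2 y)) x‖ₑ ^ p = ∫⁻ x in univ, ‖T (Uu K P (c2 y)) x‖ₑ ^ p := by
          rw [setLIntegral_univ]
      _ ≤ ∫⁻ x in closedBall 0 1 ∪ ⋃ j : ℕ, shell n ((2 : ℝ) ^ j), ‖T (Uu K P (c2 y)) x‖ₑ ^ p :=
          lintegral_mono_set cover
      _ ≤ (∫⁻ x in closedBall 0 1, ‖T (Uu K P (c2 y)) x‖ₑ ^ p) +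
          ∫⁻ x in ⋃ j : ℕ, shell n ((2 : ℝ) ^ j), ‖T (Uu K P (c2 y)) x‖ₑ ^ p :=
          lintegral_union_le (μ := volume) (fun x => ‖T (Uu K P (c2 y)) x‖ₑ ^ p) _ _
      _ ≤ _ := by
          gcongr
          exact lintegral_iUnion_le _ _
  have h2 : ∫⁻ y, (∫⁻ x in closedBall 0 1, ‖T (Uu K P (c2 y)) x‖ₑ ^ p) ∂(sg 2) ≤
      ENNReal.ofReal (V * A ^ (3 * p / 4) * A2 ^ (1 - p / 4)) * B ^ (p / 4) := by
    set b : E 2 → ℝ≥0∞ := fun y => ∫⁻ w, ‖Uu K P (c2 y) w‖ₑ ^ 4 ∂(sg n) with hb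
    have hbm : Measurable b := by
      have := Uu2_meas K P
      exact this.lintegral_prod_right' (ν := sg n)
    have hpt : ∀ y, ∫⁻ x in closedBall 0 1, ‖T (Uu K P (c2 y)) x‖ₑ ^ p ≤
        ENNReal.ofReal (V * A ^ (3 * p / 4)) * b y ^ (p / 4) := by
      intro y
      have h3 : ∀ x, ‖T (Uu K P (c2 y)) x‖ₑ ^ p ≤
          (ENNReal.ofReal A) ^ (3 * p / 4) * b y ^ (p / 4) := by
        intro x
        have h4 := (T_le_L1 (Uu K P (c2 y)) x).trans
          (one_four n (Uu K P (c2 y)) (Uu_cont1 K P (c2 y)).measurable)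
        rw [hAe] at h4
        refine (ENNReal.rpow_le_rpow h4 (by linarith)).trans (le_of_eq ?_)
        rw [ENNReal.mul_rpow_of_nonneg _ _ (by linarith), ← ENNReal.rpow_mul, ← ENNReal.rpow_mul]
        congr 2
        · ring
        · ring
      calc ∫⁻ x in closedBall 0 1, ‖T (Uu K P (c2 y)) x‖ₑ ^ p
          ≤ ∫⁻ _x in closedBall (0 : E n) 1, (ENNReal.ofReal A) ^ (3 * p / 4) * b y ^ (p / 4) :=
            lintegral_mono fun x => h3 x
        _ = (ENNReal.ofReal A) ^ (3 * p / 4) * b y ^ (p / 4) * ENNReal.ofReal V := by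
            rw [lintegral_const, Measure.restrict_apply_univ, hVe]
        _ = _ := by
            rw [ENNReal.ofReal_rpow_of_nonneg hA0 (by linarith), ENNReal.ofReal_mul hV0]
            ring
    have hhol : ∫⁻ y, b y ^ (p / 4) ∂(sg 2) ≤ ENNReal.ofReal (A2 ^ (1 - p / 4)) * B ^ (p / 4) := by
      have h3 := ENNReal.lintegral_mul_norm_pow_le (μ := sg 2) (f := fun _ => (1 : ℝ≥0∞))
        (g := b) aemeasurable_const hbm.aemeasurable
        (by linarith : (0 : ℝ) ≤ 1 - p / 4) (by linarith : (0 : ℝ) ≤ p / 4) (by ring)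
      simp only [ENNReal.one_rpow, one_mul, lintegral_const] at h3
      refine h3.trans (le_of_eq ?_)
      rw [hA2e, ENNReal.ofReal_rpow_of_nonneg hA20 (by linarith)]
      rfl
    calc ∫⁻ y, (∫⁻ x in closedBall 0 1, ‖T (Uu K P (c2 y)) x‖ₑ ^ p) ∂(sg 2)
        ≤ ∫⁻ y, ENNReal.ofReal (V * A ^ (3 * p / 4)) * b y ^ (p / 4) ∂(sg 2) := lintegral_mono hpt
      _ = ENNReal.ofReal (V * A ^ (3 * p / 4)) * ∫⁻ y, b y ^ (p / 4) ∂(sg 2) :=
          lintegral_const_mul' _ _ ENNReal.ofReal_ne_top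
      _ ≤ ENNReal.ofReal (V * A ^ (3 * p / 4)) *
          (ENNReal.ofReal (A2 ^ (1 - p / 4)) * B ^ (p / 4)) := mul_le_mul' le_rfl hhol
      _ = _ := by
          rw [← mul_assoc, ← ENNReal.ofReal_mul (by positivity)]
  have h3 : ∫⁻ y, (∑' j : ℕ, ∫⁻ x in shell n ((2 : ℝ) ^ j), ‖T (Uu K P (c2 y)) x‖ₑ ^ p) ∂(sg 2) ≤
      ENNReal.ofReal (C * G) * B ^ (p / 4) := by
    rw [lintegral_tsum fun j => (hTs _).aemeasurable]
    calc ∑' j : ℕ, ∫⁻ y, (∫⁻ x in shell n ((2 : ℝ) ^ j), ‖T (Uu K P (c2 y)) x‖ₑ ^ p) ∂(sg 2)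
        ≤ ∑' j : ℕ, ENNReal.ofReal (C * ((2 : ℝ) ^ e) ^ j) * B ^ (p / 4) := by
          refine ENNReal.tsum_le_tsum fun j => ?_
          have h4 := h K P hP ((2 : ℝ) ^ j) (one_le_pow₀ (by norm_num))
          have h5 : ((2 : ℝ) ^ j) ^ e = ((2 : ℝ) ^ e) ^ j := by
            rw [← Real.rpow_natCast, ← Real.rpow_natCast, ← Real.rpow_mul (by norm_num),
              ← Real.rpow_mul (by norm_num), mul_comm]
          rw [h5] at h4
          exact h4
      _ = _ := by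
          rw [ENNReal.tsum_mul_right, ← ENNReal.ofReal_tsum_of_nonneg (fun j => by positivity)
            (hgeo.mul_left C), tsum_mul_left]
  calc ∫⁻ y, (∫⁻ x, ‖T (Uu K P (c2 y)) x‖ₑ ^ p) ∂(sg 2)
      ≤ ∫⁻ y, ((∫⁻ x in closedBall 0 1, ‖T (Uu K P (c2 y)) x‖ₑ ^ p) +
      ∑' j : ℕ, ∫⁻ x in shell n ((2 : ℝ) ^ j), ‖T (Uu K P (c2 y)) x‖ₑ ^ p) ∂(sg 2) :=
        lintegral_mono h1
    _ = _ := lintegral_add_left (hTs _) _
    _ ≤ ENNReal.ofReal (V * A ^ (3 * p / 4) * A2 ^ (1 - p / 4)) * B ^ (p / 4) +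
        ENNReal.ofReal (C * G) * B ^ (p / 4) := add_le_add h2 h3
    _ ≤ _ := by
        rw [← add_mul, ← ENNReal.ofReal_add (by positivity) (by positivity)]
        exact mul_le_mul' (ENNReal.ofReal_le_ofReal (by linarith)) le_rfl

end Pool.Agent.Helper969.HW
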