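import Mathlib
import Pool.Agent.H390R2.Circle
import Pool.Agent.Y251.HR.C2
import Pool.Agent.Helper969.HW.E2
set_option autoImplicit false

/-! The circle `ℝ/ℤ` and the `L^4` inequality of M. Riesz. -/

namespace Pool.Agent.Helper969.HW

open MeasureTheory Measure Set Metric Complex MvPolynomial
open Pool.Agent.H789R2.FR (E sg sg_finite sg_ae sg_inv T polar)
open Pool.Agent.Y251.HR (c2 c2_cont norm_c2 c2_smul J0 hJ0 Hol parts J0_apply)
open scoped RealInnerProductSpace ENNReal ComplexConjugate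

/-- normalised Haar measure on `ℝ/ℤ` -/
noncomputable abbrev hm : Measure UnitAddCircle := AddCircle.haarAddCircle

/-- the coordinate `exp(2πit)` -/
noncomputable def ee (t : UnitAddCircle) : ℂ := fourier 1 t

theorem norm_ee (t : UnitAddCircle) : ‖ee t‖ = 1 := by
  unfold ee; rw [fourier_apply]; exact Circle.norm_coe _

theorem ee_cont : Continuous ee := by unfold ee; fun_prop

theorem ee_add (s t : UnitAddCircle) : ee (s + t) = ee s * ee t := by
  unfold ee
  rw [fourier_apply, fourier_apply, fourier_apply, smul_add, AddCircle.toCircle_add]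
  push_cast
  rfl

theorem ee_neg (t : UnitAddCircle) : ee (-t) = conj (ee t) := by
  unfold ee
  rw [← fourier_neg, fourier_apply, fourier_apply]
  simp

theorem ee_pow (k : ℕ) (t : UnitAddCircle) : ee t ^ k = fourier (k : ℤ) t :=
  Pool.Agent.H390R2.zz_pow k t

theorem ee_surj (z : ℂ) (hz : ‖z‖ = 1) : ∃ t, ee t = z := by
  have h1 : (⟨z, mem_sphere_zero_iff_norm.2 hz⟩ : Circle) ∈ Set.range (AddCircle.homeomorphCircle (one_ne_zero : (1 : ℝ) ≠ 0)) :=
    (AddCircle.homeomorphCircle (one_ne_zero : (1 : ℝ) ≠ 0)).surjective _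
  obtain ⟨t, ht⟩ := h1
  refine ⟨t, ?_⟩
  rw [AddCircle.homeomorphCircle_apply] at ht
  unfold ee
  rw [fourier_apply, one_smul, ht]

/-- averages over the two circles -/
theorem circ (f : ℂ → ℝ≥0∞) (hf : Measurable f) :
    ∫⁻ y, f (c2 y) ∂(sg 2) = ENNReal.ofReal (cn 2) * ∫⁻ t, f (ee t) ∂hm := by
  have hfin := sg_finite 2
  have h1 : ∀ t : UnitAddCircle, ∫⁻ y, f (c2 y * ee t) ∂(sg 2) = ∫⁻ y, f (c2 y) ∂(sg 2) := by
    intro t
    have h := (sg_inv (Pool.Agent.Y251.HR.rotE hJ0 (ee t) (norm_ee t))).lintegral_comp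
      (f := fun w => f (c2 w)) (hf.comp c2_cont.measurable)
    rw [← h]
    simp_rw [c2_rot]
  have h2 : ∀ y : E 2, ‖y‖ = 1 → ∫⁻ t, f (c2 y * ee t) ∂hm = ∫⁻ t, f (ee t) ∂hm := by
    intro y hy
    obtain ⟨t0, ht0⟩ := ee_surj (c2 y) (by rw [norm_c2, hy])
    rw [← lintegral_add_left_eq_self (fun t => f (ee t)) t0]
    refine lintegral_congr fun t => ?_
    rw [ee_add, ht0]
  have hm2 : Measurable (Function.uncurry fun (t : UnitAddCircle) (y : E 2) => f (c2 y * ee t)) := by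
    refine hf.comp ?_
    exact ((c2_cont.comp continuous_snd).mul (ee_cont.comp continuous_fst)).measurable
  calc ∫⁻ y, f (c2 y) ∂(sg 2) = ∫⁻ _t : UnitAddCircle, (∫⁻ y, f (c2 y) ∂(sg 2)) ∂hm := by
        rw [lintegral_const, measure_univ, mul_one]
    _ = ∫⁻ t, (∫⁻ y, f (c2 y * ee t) ∂(sg 2)) ∂hm := by simp_rw [h1]
    _ = ∫⁻ y, (∫⁻ t, f (c2 y * ee t) ∂hm) ∂(sg 2) := lintegral_lintegral_swap hm2.aemeasurable
    _ = ∫⁻ _y, (∫⁻ t, f (ee t) ∂hm) ∂(sg 2) := by
        refine lintegral_congr_ae ?_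
        filter_upwards [sg_ae 2] with y hy
        exact h2 y hy
    _ = _ := by
        rw [lintegral_const, mul_comm]
        congr 1
        unfold cn
        rw [measureReal_def, ENNReal.ofReal_toReal (measure_ne_top _ _)]

/-! ### M. Riesz -/

theorem hol_pow (k : ℕ) : Hol J0 2 fun w : E 2 => c2 w ^ k := by
  intro x _
  have hc : ∃ L : E 2 →L[ℝ] ℂ, (∀ v, L v = c2 v) := by
    refine ⟨LinearMap.toContinuousLinearMap
      { toFun := c2, map_add' := ?_, map_smul' := ?_ }, fun v => rfl⟩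
    · intro a b
      simp [c2]
      ring
    · intro r a
      rw [c2_smul]
      simp
  obtain ⟨L, hL⟩ := hc
  have h1 : HasFDerivAt c2 L x := by
    have h2 := L.hasFDerivAt (x := x)
    have h3 : (L : E 2 → ℂ) = c2 := funext hL
    rw [h3] at h2
    exact h2
  refine ⟨_, h1.pow k, fun v => ?_⟩
  simp only [_root_.smul_apply, smul_eq_mul, hL, nsmul_eq_mul]
  have h4 : c2 (J0 v) = I * c2 v := by
    rw [J0_apply]
    simp [c2]
    ring_nf
    rw [I_sq]
    ring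
  rw [h4]
  ring

theorem hol_Aa (K : ℕ) (a : ℕ → ℂ) : Hol J0 2 fun w : E 2 => Aa K a (c2 w) := by
  unfold Aa
  induction K with
  | zero =>
    simp only [Finset.range_zero, Finset.sum_empty]
    exact Hol.const 2 0
  | succ K ih =>
    simp only [Finset.sum_range_succ]
    exact ih.add ((Hol.const 2 (a K)).mul (hol_pow K))

theorem Aa_zero (K : ℕ) (a : ℕ → ℂ) (h : a 0 = 0) : Aa K a 0 = 0 := by
  unfold Aa
  refine Finset.sum_eq_zero fun k _ => ?_
  rcases Nat.eq_zero_or_pos k with hk | hk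
  · subst hk
    rw [h, zero_mul]
  · rw [zero_pow hk.ne', mul_zero]

theorem riesz4 (K K' : ℕ) (a b : ℕ → ℂ) (hb : b 0 = 0) :
    (∫⁻ y, ‖Aa K a (c2 y)‖ₑ ^ 4 ∂(sg 2) ≤
      ENNReal.ofReal 6152 * ∫⁻ y, ‖Aa K a (c2 y) + conj (Aa K' b (c2 y))‖ₑ ^ 4 ∂(sg 2)) ∧
    (∫⁻ y, ‖Aa K' b (c2 y)‖ₑ ^ 4 ∂(sg 2) ≤
      ENNReal.ofReal 6152 * ∫⁻ y, ‖Aa K a (c2 y) + conj (Aa K' b (c2 y))‖ₑ ^ 4 ∂(sg 2)) := by
  have hfin := sg_finite 2
  set F : E 2 → ℂ := (ball (0 : E 2) 2).indicator fun w => Aa K a (c2 w) with hF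
  set G : E 2 → ℂ := (ball (0 : E 2) 2).indicator fun w => Aa K' b (c2 w) with hG
  have hFc : Continuous fun w : E 2 => Aa K a (c2 w) := (Aa_cont K a).comp c2_cont
  have hGc : Continuous fun w : E 2 => Aa K' b (c2 w) := (Aa_cont K' b).comp c2_cont
  have hFh : Hol J0 2 F := (hol_Aa K a).congr fun x hx => indicator_of_mem hx _
  have hGh : Hol J0 2 G := (hol_Aa K' b).congr fun x hx => indicator_of_mem hx _
  have hFm : Measurable F := hFc.measurable.indicator measurableSet_ball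
  have hGm : Measurable G := hGc.measurable.indicator measurableSet_ball
  have bd : ∀ f : E 2 → ℂ, Continuous f → ∃ M : ℝ, ∀ x, ‖(ball (0 : E 2) 2).indicator f x‖ ≤ M := by
    intro f hf
    obtain ⟨C, hC⟩ := (isCompact_closedBall (0 : E 2) 2).exists_bound_of_continuousOn hf.continuousOn
    refine ⟨max C 0, fun x => ?_⟩
    by_cases hx : x ∈ ball (0 : E 2) 2
    · rw [indicator_of_mem hx]
      exact (hC x (ball_subset_closedBall hx)).trans (le_max_left _ _)
    · rw [indicator_of_notMem hx, norm_zero]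
      exact le_max_right _ _
  obtain ⟨M1, hM1⟩ := bd _ hFc
  obtain ⟨M2, hM2⟩ := bd _ hGc
  obtain ⟨k1, k2, k3⟩ := parts 2 (by norm_num) hJ0 hFh hGh hFm hGm (max M1 M2)
    (fun x => (hM1 x).trans (le_max_left _ _)) (fun x => (hM2 x).trans (le_max_right _ _))
  have hc0 : c2 0 = 0 := by simp [c2]
  have hF0 : F 0 = Aa K a 0 := by
    rw [hF, indicator_of_mem (by simp), hc0]
  have hG0 : G 0 = 0 := by
    rw [hG, indicator_of_mem (by simp), hc0, Aa_zero K' b hb]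
  have hmem : ∀ w : E 2, ‖w‖ = 1 → w ∈ ball (0 : E 2) 2 := by
    intro w hw
    rw [mem_ball_zero_iff, hw]
    norm_num
  have eF : ∀ᵐ w ∂(sg 2), F w = Aa K a (c2 w) := by
    filter_upwards [sg_ae 2] with w hw
    rw [hF, indicator_of_mem (hmem w hw)]
  have eG : ∀ᵐ w ∂(sg 2), G w = Aa K' b (c2 w) := by
    filter_upwards [sg_ae 2] with w hw
    rw [hG, indicator_of_mem (hmem w hw)]
  have hM : ∀ x, ‖F x‖ ≤ max M1 M2 := fun x => (hM1 x).trans (le_max_left _ _)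
  have hM' : ∀ x, ‖G x‖ ≤ max M1 M2 := fun x => (hM2 x).trans (le_max_right _ _)
  -- from integrals to `lintegral`
  have conv : ∀ f : E 2 → ℂ, Measurable f → (∃ C : ℝ, ∀ x, ‖f x‖ ≤ C) →
      ∫⁻ w, ‖f w‖ₑ ^ 4 ∂(sg 2) = ENNReal.ofReal (∫ w, ‖f w‖ ^ 4 ∂(sg 2)) := by
    rintro f hf ⟨C, hC⟩
    rw [ofReal_integral_eq_lintegral_ofReal]
    · refine lintegral_congr fun w => ?_
      rw [← ofReal_norm, ENNReal.ofReal_pow (norm_nonneg _)]
    · exact Pool.Agent.Y251.HR.int4 hf hC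
    · exact Filter.Eventually.of_forall fun x => by positivity
  have hU : Measurable fun w => F w + conj (G w) :=
    hFm.add (Complex.continuous_conj.measurable.comp hGm)
  have hUb : ∀ x, ‖F x + conj (G x)‖ ≤ 2 * max M1 M2 := by
    intro x
    refine (norm_add_le _ _).trans ?_
    rw [RCLike.norm_conj]
    linarith [hM x, hM' x]
  have eU : ∫⁻ y, ‖Aa K a (c2 y) + conj (Aa K' b (c2 y))‖ₑ ^ 4 ∂(sg 2) =
      ENNReal.ofReal (∫ w, ‖F w + conj (G w)‖ ^ 4 ∂(sg 2)) := by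
    rw [← conv _ hU ⟨_, hUb⟩]
    refine lintegral_congr_ae ?_
    filter_upwards [eF, eG] with w h1 h2
    rw [h1, h2]
  have eF4 : ∫⁻ y, ‖Aa K a (c2 y)‖ₑ ^ 4 ∂(sg 2) = ENNReal.ofReal (∫ w, ‖F w‖ ^ 4 ∂(sg 2)) := by
    rw [← conv _ hFm ⟨_, hM⟩]
    refine lintegral_congr_ae ?_
    filter_upwards [eF] with w h1
    rw [h1]
  have eG4 : ∫⁻ y, ‖Aa K' b (c2 y)‖ₑ ^ 4 ∂(sg 2) = ENNReal.ofReal (∫ w, ‖G w‖ ^ 4 ∂(sg 2)) := by
    rw [← conv _ hGm ⟨_, hM'⟩]
    refine lintegral_congr_ae ?_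
    filter_upwards [eG] with w h1
    rw [h1]
  rw [eU, eF4, eG4, ← ENNReal.ofReal_mul (by norm_num)]
  set U4 := ∫ w, ‖F w + conj (G w)‖ ^ 4 ∂(sg 2) with hU4
  have hU0 : 0 ≤ U4 := integral_nonneg fun w => by positivity
  constructor
  · apply ENNReal.ofReal_le_ofReal
    rw [hG0, map_zero, add_zero] at k3
    have i1 := Pool.Agent.Y251.HR.int4 (hFm.sub_const (F 0)) (C := 2 * max M1 M2) fun w => by
      refine (norm_sub_le _ _).trans ?_
      linarith [hM w, hM 0]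
    have i2 := Pool.Agent.Y251.HR.int4 hFm hM
    have h1 : ∫ w, ‖F w‖ ^ 4 ∂(sg 2) ≤ ∫ w, (8 * ‖F w - F 0‖ ^ 4 + 8 * ‖F 0‖ ^ 4) ∂(sg 2) := by
      refine integral_mono i2 ((i1.const_mul 8).add ((integrable_const _).const_mul 8)) fun w => ?_
      have h2 := Pool.Agent.Y251.HR.pt_add4 (F w - F 0) (F 0)
      rw [sub_add_cancel] at h2
      exact h2
    rw [integral_add (i1.const_mul 8) ((integrable_const _).const_mul 8), integral_const_mul,
      integral_const_mul] at h1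
    linarith
  · apply ENNReal.ofReal_le_ofReal
    rw [hG0] at k2
    simp only [sub_zero] at k2
    linarith

end Pool.Agent.Helper969.HW
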