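import Mathlib
import Pool.Agent.Helper969.HW.F1
set_option autoImplicit false

/-! The averaged estimate for two-sided spherical polynomials. -/

namespace Pool.Agent.Helper969.HW

open MeasureTheory Measure Set Metric Complex MvPolynomial
open Pool.Agent.H789R2.FR (E sg sg_finite sg_ae sg_inv T polar)
open Pool.Agent.H789R2.FR.L2 (ph norm_ph continuous_ph T_eq)
open Pool.Agent.Y251.HR (c2 c2_cont norm_c2 c2_smul)
open scoped RealInnerProductSpace ENNReal ComplexConjugate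

variable {n : ℕ}

/-- the fourth moment over the circle -/
noncomputable def N4 (K : ℕ) (P : ℕ → MvPolynomial (Fin n) ℂ) : ℝ≥0∞ :=
  ∫⁻ t, (∫⁻ w, ‖Uu K P (ee t) w‖ₑ ^ 4 ∂(sg n)) ∂hm

theorem Uu_joint (K : ℕ) (P : ℕ → MvPolynomial (Fin n) ℂ) :
    Measurable fun p : ℂ × E n => Uu K P p.1 p.2 := (Uu_cont K P).measurable

theorem TU_joint (hn : 2 ≤ n) (K : ℕ) (P : ℕ → MvPolynomial (Fin n) ℂ) (hP : ∀ k, Harm k (P k)) :
    Measurable fun p : ℂ × E n => T (Uu K P p.1) p.2 := (T_U_cont hn K P hP).measurable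

theorem M4_eq (K : ℕ) (P : ℕ → MvPolynomial (Fin n) ℂ) :
    M4 K P = ENNReal.ofReal (cn 2) * N4 K P := by
  have hfin := sg_finite n
  have hm1 : Measurable fun z : ℂ => ∫⁻ w, ‖Uu K P z w‖ₑ ^ 4 ∂(sg n) :=
    ((Uu_joint K P).enorm.pow_const 4).lintegral_prod_right' (ν := sg n)
  exact circ _ hm1

theorem TM_eq (hn : 2 ≤ n) (K : ℕ) (P : ℕ → MvPolynomial (Fin n) ℂ) (hP : ∀ k, Harm k (P k))
    (p : ℝ) : ∫⁻ y, (∫⁻ x, ‖T (Uu K P (c2 y)) x‖ₑ ^ p) ∂(sg 2) =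
      ENNReal.ofReal (cn 2) * ∫⁻ t, (∫⁻ x, ‖T (Uu K P (ee t)) x‖ₑ ^ p) ∂hm := by
  have hm1 : Measurable fun z : ℂ => ∫⁻ x, ‖T (Uu K P z) x‖ₑ ^ p :=
    ((TU_joint hn K P hP).enorm.pow_const p).lintegral_prod_right' (ν := (volume : Measure (E n)))
  exact circ _ hm1

theorem poly_circ (n : ℕ) (hn : 3 ≤ n) (p : ℝ) (hp : 2 * (n : ℝ) / (n - 1) < p) (hp4 : p < 4) :
    ∃ C : ℝ, 0 < C ∧
    ∀ (K : ℕ) (P : ℕ → MvPolynomial (Fin n) ℂ), (∀ k, Harm k (P k)) →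
    ∫⁻ t, (∫⁻ x, ‖T (Uu K P (ee t)) x‖ₑ ^ p) ∂hm ≤ ENNReal.ofReal C * N4 K P ^ (p / 4) := by
  obtain ⟨C, hC, h⟩ := poly_p n hn p hp hp4
  have hc := cn2_pos
  have hn' : (3 : ℝ) ≤ n := by exact_mod_cast hn
  have hp0 : 0 < p := by
    refine lt_trans ?_ hp
    have : (0 : ℝ) < n - 1 := by linarith
    positivity
  refine ⟨(cn 2)⁻¹ * (C * (cn 2) ^ (p / 4)), by positivity, fun K P hP => ?_⟩
  have h1 := h K P hP
  rw [TM_eq (by omega) K P hP p, M4_eq, ENNReal.mul_rpow_of_nonneg _ _ (by linarith),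
    ENNReal.ofReal_rpow_of_pos hc, ← mul_assoc (ENNReal.ofReal C), ← ENNReal.ofReal_mul hC.le] at h1
  have hc' : ENNReal.ofReal (cn 2) ≠ 0 := by
    rw [Ne, ENNReal.ofReal_eq_zero, not_le]
    exact hc
  rw [ENNReal.ofReal_mul (by positivity), mul_assoc, ENNReal.ofReal_inv_of_pos hc]
  rw [← ENNReal.mul_le_mul_iff_right hc' ENNReal.ofReal_ne_top, ← mul_assoc (ENNReal.ofReal (cn 2)),
    ENNReal.mul_inv_cancel hc' ENNReal.ofReal_ne_top, one_mul]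
  exact h1

/-- two-sided polynomial densities -/
noncomputable def VV (s K : ℕ) (P Q : ℕ → MvPolynomial (Fin n) ℂ) (t : UnitAddCircle) (w : E n) :
    ℂ := Uu K P (ee t) w + conj (ee t) ^ s * Uu K Q (conj (ee t)) w

theorem VV_meas (s K : ℕ) (P Q : ℕ → MvPolynomial (Fin n) ℂ) :
    Measurable fun p : UnitAddCircle × E n => VV s K P Q p.1 p.2 := by
  have h1 : Continuous fun p : UnitAddCircle × E n => ee p.1 := ee_cont.comp continuous_fst
  have h2 : Continuous fun p : UnitAddCircle × E n => conj (ee p.1) :=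
    Complex.continuous_conj.comp h1
  have h3 : Measurable fun p : UnitAddCircle × E n => (ee p.1, p.2) :=
    h1.measurable.prodMk measurable_snd
  have h4 : Measurable fun p : UnitAddCircle × E n => (conj (ee p.1), p.2) :=
    h2.measurable.prodMk measurable_snd
  have h5 := (Uu_joint K P).comp h3
  have h6 := (Uu_joint K Q).comp h4
  have h7 := h5.add ((h2.measurable.pow_const s).mul h6)
  exact h7

/-- coefficients of the second part -/
noncomputable def bs (s : ℕ) (b : ℕ → ℂ) (j : ℕ) : ℂ := if j < s then 0 else conj (b (j - s))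

theorem bs_sum (s K : ℕ) (b : ℕ → ℂ) (z : ℂ) :
    conj (Aa (s + K) (bs s b) z) = conj z ^ s * Aa K b (conj z) := by
  unfold Aa
  rw [Finset.sum_range_add, map_add]
  have h1 : ∑ k ∈ Finset.range s, bs s b k * z ^ k = 0 := by
    refine Finset.sum_eq_zero fun k hk => ?_
    unfold bs
    rw [if_pos (Finset.mem_range.1 hk), zero_mul]
  rw [h1, map_zero, zero_add, _root_.map_sum, Finset.mul_sum]
  refine Finset.sum_congr rfl fun k _ => ?_
  unfold bs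
  rw [if_neg (by omega), Nat.add_sub_cancel_left, map_mul, Complex.conj_conj, map_pow, pow_add]
  ring

theorem circ_le (f g : ℂ → ℂ) (hf : Measurable f) (hg : Measurable g) (C : ℝ≥0∞)
    (h : ∫⁻ y, ‖f (c2 y)‖ₑ ^ 4 ∂(sg 2) ≤ C * ∫⁻ y, ‖g (c2 y)‖ₑ ^ 4 ∂(sg 2)) :
    ∫⁻ t, ‖f (ee t)‖ₑ ^ 4 ∂hm ≤ C * ∫⁻ t, ‖g (ee t)‖ₑ ^ 4 ∂hm := by
  rw [circ (fun z => ‖f z‖ₑ ^ 4) (hf.enorm.pow_const 4),
    circ (fun z => ‖g z‖ₑ ^ 4) (hg.enorm.pow_const 4), ← mul_assoc, mul_comm C, mul_assoc] at h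
  have hc := cn2_pos
  have hc' : ENNReal.ofReal (cn 2) ≠ 0 := by
    rw [Ne, ENNReal.ofReal_eq_zero, not_le]
    exact hc
  exact (ENNReal.mul_le_mul_iff_right hc' ENNReal.ofReal_ne_top).1 h

theorem riesz_pt (s K : ℕ) (a b : ℕ → ℂ) (hb : s = 0 → b 0 = 0) :
    (∫⁻ t, ‖Aa K a (ee t)‖ₑ ^ 4 ∂hm ≤ ENNReal.ofReal 6152 *
      ∫⁻ t, ‖Aa K a (ee t) + conj (ee t) ^ s * Aa K b (conj (ee t))‖ₑ ^ 4 ∂hm) ∧
    (∫⁻ t, ‖Aa K b (conj (ee t))‖ₑ ^ 4 ∂hm ≤ ENNReal.ofReal 6152 *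
      ∫⁻ t, ‖Aa K a (ee t) + conj (ee t) ^ s * Aa K b (conj (ee t))‖ₑ ^ 4 ∂hm) := by
  have hb0 : bs s b 0 = 0 := by
    unfold bs
    by_cases h : 0 < s
    · rw [if_pos h]
    · rw [if_neg h, Nat.zero_sub, hb (by omega), map_zero]
  obtain ⟨h1, h2⟩ := riesz4 K (s + K) a (bs s b) hb0
  have hA := (Aa_cont K a).measurable
  have hB := (Aa_cont (s + K) (bs s b)).measurable
  have hg : Measurable fun z => Aa K a z + conj (Aa (s + K) (bs s b) z) :=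
    hA.add (Complex.continuous_conj.measurable.comp hB)
  have e : ∀ t : UnitAddCircle, Aa K a (ee t) + conj (Aa (s + K) (bs s b) (ee t)) =
      Aa K a (ee t) + conj (ee t) ^ s * Aa K b (conj (ee t)) := by
    intro t
    rw [bs_sum]
  constructor
  · have := circ_le (Aa K a) (fun z => Aa K a z + conj (Aa (s + K) (bs s b) z)) hA hg _ h1
    simp_rw [e] at this
    exact this
  · have := circ_le (Aa (s + K) (bs s b)) (fun z => Aa K a z + conj (Aa (s + K) (bs s b) z))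
      hB hg _ h2
    simp_rw [e] at this
    refine le_trans (le_of_eq ?_) this
    refine lintegral_congr fun t => ?_
    congr 1
    rw [← ofReal_norm, ← ofReal_norm, ← RCLike.norm_conj (Aa (s + K) (bs s b) (ee t)), bs_sum,
      norm_mul, norm_pow, RCLike.norm_conj, norm_ee, one_pow, one_mul]

/-- the fourth moment of the two-sided polynomial -/
noncomputable def V4 (s K : ℕ) (P Q : ℕ → MvPolynomial (Fin n) ℂ) : ℝ≥0∞ :=
  ∫⁻ t, (∫⁻ w, ‖VV s K P Q t w‖ₑ ^ 4 ∂(sg n)) ∂hm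

theorem neg_int (f : UnitAddCircle → ℝ≥0∞) : ∫⁻ t, f (-t) ∂hm = ∫⁻ t, f t ∂hm :=
  lintegral_neg_eq_self f

theorem riesz_V (s K : ℕ) (P Q : ℕ → MvPolynomial (Fin n) ℂ) (hQ : s = 0 → Q 0 = 0) :
    N4 K P ≤ ENNReal.ofReal 6152 * V4 s K P Q ∧ N4 K Q ≤ ENNReal.ofReal 6152 * V4 s K P Q := by
  have hfin := sg_finite n
  have hV := (VV_meas s K P Q).enorm.pow_const 4
  have hee : Measurable fun p : UnitAddCircle × E n => (ee p.1, p.2) :=
    (ee_cont.comp continuous_fst).measurable.prodMk measurable_snd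
  have hcc : Measurable fun p : UnitAddCircle × E n => (conj (ee p.1), p.2) :=
    (Complex.continuous_conj.comp (ee_cont.comp continuous_fst)).measurable.prodMk measurable_snd
  have hb : ∀ w : E n, s = 0 → ev (Q 0) w = 0 := by
    intro w hs
    rw [hQ hs, ev_zero]
  have eV : V4 s K P Q = ∫⁻ w, (∫⁻ t, ‖VV s K P Q t w‖ₑ ^ 4 ∂hm) ∂(sg n) := by
    unfold V4
    exact lintegral_lintegral_swap hV.aemeasurable
  constructor
  · have e1 : N4 K P = ∫⁻ w, (∫⁻ t, ‖Uu K P (ee t) w‖ₑ ^ 4 ∂hm) ∂(sg n) := by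
      unfold N4
      exact lintegral_lintegral_swap
        (((Uu_joint K P).comp hee).enorm.pow_const 4).aemeasurable
    rw [e1, eV, ← lintegral_const_mul' _ _ ENNReal.ofReal_ne_top]
    refine lintegral_mono fun w => ?_
    exact (riesz_pt s K (fun k => ev (P k) w) (fun k => ev (Q k) w) (hb w)).1
  · have e1 : N4 K Q = ∫⁻ t, (∫⁻ w, ‖Uu K Q (conj (ee t)) w‖ₑ ^ 4 ∂(sg n)) ∂hm := by
      unfold N4
      rw [← neg_int]
      simp_rw [ee_neg]
    have e2 : ∫⁻ t, (∫⁻ w, ‖Uu K Q (conj (ee t)) w‖ₑ ^ 4 ∂(sg n)) ∂hm =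
        ∫⁻ w, (∫⁻ t, ‖Uu K Q (conj (ee t)) w‖ₑ ^ 4 ∂hm) ∂(sg n) :=
      lintegral_lintegral_swap (((Uu_joint K Q).comp hcc).enorm.pow_const 4).aemeasurable
    rw [e1, e2, eV, ← lintegral_const_mul' _ _ ENNReal.ofReal_ne_top]
    refine lintegral_mono fun w => ?_
    exact (riesz_pt s K (fun k => ev (P k) w) (fun k => ev (Q k) w) (hb w)).2

theorem int_ph_U (K : ℕ) (P : ℕ → MvPolynomial (Fin n) ℂ) (z : ℂ) (x : E n) :
    Integrable (fun w => ph x w * Uu K P z w) (sg n) := by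
  have : ∀ w, ph x w * Uu K P z w = ∑ k ∈ Finset.range K, z ^ k * (ph x w * ev (P k) w) := by
    intro w
    unfold Uu Aa
    rw [Finset.mul_sum]
    refine Finset.sum_congr rfl fun k _ => ?_
    ring
  simp_rw [this]
  exact integrable_finsetSum _ fun k _ => (int_ph_ev _ _).const_mul _

theorem T_VV (s K : ℕ) (P Q : ℕ → MvPolynomial (Fin n) ℂ) (t : UnitAddCircle) (x : E n) :
    T (VV s K P Q t) x = T (Uu K P (ee t)) x + conj (ee t) ^ s * T (Uu K Q (conj (ee t))) x := by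
  rw [T_eq, T_eq, T_eq, ← integral_const_mul, ← integral_add (int_ph_U _ _ _ _)
    ((int_ph_U _ _ _ _).const_mul _)]
  refine integral_congr_ae (Filter.Eventually.of_forall fun w => ?_)
  simp only
  unfold VV
  ring

/-- **Two-sided polynomials.** -/
theorem two_p (n : ℕ) (hn : 3 ≤ n) (p : ℝ) (hp : 2 * (n : ℝ) / (n - 1) < p) (hp4 : p < 4) :
    ∃ C : ℝ, 0 < C ∧
    ∀ (s K : ℕ) (P Q : ℕ → MvPolynomial (Fin n) ℂ), (∀ k, Harm k (P k)) → (∀ k, Harm k (Q k)) →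
    (s = 0 → Q 0 = 0) →
    ∫⁻ t, (∫⁻ x, ‖T (VV s K P Q t) x‖ₑ ^ p) ∂hm ≤ ENNReal.ofReal C * V4 s K P Q ^ (p / 4) := by
  obtain ⟨C, hC, h⟩ := poly_circ n hn p hp hp4
  have hn' : (3 : ℝ) ≤ n := by exact_mod_cast hn
  have hp1 : 1 ≤ p := by
    refine le_trans ?_ hp.le
    rw [le_div_iff₀ (by linarith)]
    linarith
  refine ⟨2 ^ (p - 1) * (2 * (C * 6152 ^ (p / 4))), by positivity, fun s K P Q hP hQ hQ0 => ?_⟩
  obtain ⟨r1, r2⟩ := riesz_V s K P Q hQ0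
  have hPm := (TU_joint (by omega) K P hP).enorm.pow_const p
  have hQm := (TU_joint (by omega) K Q hQ).enorm.pow_const p
  have hee : Measurable fun q : UnitAddCircle × E n => (ee q.1, q.2) :=
    (ee_cont.comp continuous_fst).measurable.prodMk measurable_snd
  have hcc : Measurable fun q : UnitAddCircle × E n => (conj (ee q.1), q.2) :=
    (Complex.continuous_conj.comp (ee_cont.comp continuous_fst)).measurable.prodMk measurable_snd
  have m1' := hPm.comp hee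
  have m1 : Measurable fun q : UnitAddCircle × E n => ‖T (Uu K P (ee q.1)) q.2‖ₑ ^ p := m1'
  have hpt : ∀ t x, ‖T (VV s K P Q t) x‖ₑ ^ p ≤ (2 : ℝ≥0∞) ^ (p - 1) *
      (‖T (Uu K P (ee t)) x‖ₑ ^ p + ‖T (Uu K Q (conj (ee t))) x‖ₑ ^ p) := by
    intro t x
    rw [T_VV]
    have h1 : ‖T (Uu K P (ee t)) x + conj (ee t) ^ s * T (Uu K Q (conj (ee t))) x‖ₑ ≤
        ‖T (Uu K P (ee t)) x‖ₑ + ‖T (Uu K Q (conj (ee t))) x‖ₑ := by
      refine (enorm_add_le _ _).trans ?_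
      gcongr
      rw [enorm_mul]
      have : ‖conj (ee t) ^ s‖ₑ = 1 := by
        rw [← ofReal_norm, norm_pow, RCLike.norm_conj, norm_ee, one_pow, ENNReal.ofReal_one]
      rw [this, one_mul]
    exact (ENNReal.rpow_le_rpow h1 (by linarith)).trans
      (ENNReal.rpow_add_le_mul_rpow_add_rpow _ _ hp1)
  have e2 : ∫⁻ t, (∫⁻ x, ‖T (Uu K Q (conj (ee t))) x‖ₑ ^ p) ∂hm =
      ∫⁻ t, (∫⁻ x, ‖T (Uu K Q (ee t)) x‖ₑ ^ p) ∂hm := by
    rw [← neg_int (fun t => ∫⁻ x, ‖T (Uu K Q (ee t)) x‖ₑ ^ p)]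
    simp_rw [ee_neg]
  have h2t : (2 : ℝ≥0∞) ^ (p - 1) ≠ ⊤ := ENNReal.rpow_ne_top_of_nonneg (by linarith) (by norm_num)
  have h6 : ∀ N : ℝ≥0∞, N ≤ ENNReal.ofReal 6152 * V4 s K P Q →
      ENNReal.ofReal C * N ^ (p / 4) ≤
        ENNReal.ofReal (C * 6152 ^ (p / 4)) * V4 s K P Q ^ (p / 4) := by
    intro N hN
    have h7 := ENNReal.rpow_le_rpow hN (by linarith : 0 ≤ p / 4)
    rw [ENNReal.mul_rpow_of_nonneg _ _ (by linarith), ENNReal.ofReal_rpow_of_pos (by norm_num)] at h7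
    refine (mul_le_mul' le_rfl h7).trans (le_of_eq ?_)
    rw [← mul_assoc, ← ENNReal.ofReal_mul hC.le]
  calc ∫⁻ t, (∫⁻ x, ‖T (VV s K P Q t) x‖ₑ ^ p) ∂hm
      ≤ ∫⁻ t, (∫⁻ x, (2 : ℝ≥0∞) ^ (p - 1) *
        (‖T (Uu K P (ee t)) x‖ₑ ^ p + ‖T (Uu K Q (conj (ee t))) x‖ₑ ^ p)) ∂hm :=
        lintegral_mono fun t => lintegral_mono fun x => hpt t x
    _ = (2 : ℝ≥0∞) ^ (p - 1) * ((∫⁻ t, (∫⁻ x, ‖T (Uu K P (ee t)) x‖ₑ ^ p) ∂hm) +
        ∫⁻ t, (∫⁻ x, ‖T (Uu K Q (conj (ee t))) x‖ₑ ^ p) ∂hm) := by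
        have m3 := m1.lintegral_prod_right' (ν := (volume : Measure (E n)))
        rw [← lintegral_add_left m3, ← lintegral_const_mul' _ _ h2t]
        refine lintegral_congr fun t => ?_
        rw [lintegral_const_mul' _ _ h2t]
        congr 1
        have m4 := m1.comp (measurable_prodMk_left (x := t))
        exact lintegral_add_left m4 _
    _ ≤ (2 : ℝ≥0∞) ^ (p - 1) * (ENNReal.ofReal (C * 6152 ^ (p / 4)) * V4 s K P Q ^ (p / 4) +
        ENNReal.ofReal (C * 6152 ^ (p / 4)) * V4 s K P Q ^ (p / 4)) := by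
        rw [e2]
        gcongr
        · exact (h K P hP).trans (h6 _ r1)
        · exact (h K Q hQ).trans (h6 _ r2)
    _ = _ := by
        have e9 : ENNReal.ofReal (2 ^ (p - 1) * (2 * (C * 6152 ^ (p / 4)))) =
            (2 : ℝ≥0∞) ^ (p - 1) * (2 * ENNReal.ofReal (C * 6152 ^ (p / 4))) := by
          have h8 : (0 : ℝ) ≤ 2 ^ (p - 1) := by positivity
          rw [ENNReal.ofReal_mul h8, ENNReal.ofReal_mul (by norm_num : (0 : ℝ) ≤ 2),
            ← ENNReal.ofReal_rpow_of_pos (by norm_num : (0 : ℝ) < 2), ENNReal.ofReal_ofNat]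
        rw [e9, ← two_mul]
        ring

end Pool.Agent.Helper969.HW
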