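import Mathlib
import Pool.Agent.Helper969.HW.F3
set_option autoImplicit false

/-! Convergence of Fejer means in `L^2`. -/

namespace Pool.Agent.Helper969.HW

open MeasureTheory Measure Set Filter
open scoped ENNReal ComplexConjugate Topology

theorem ces_aux {M : Type*} [AddCommGroup M] [Module ℂ M] (c : ℤ → M) (D : ℕ) :
    ∑ N ∈ Finset.range D, ∑ k ∈ Finset.Icc (-(N : ℤ)) N, c k =
      ∑ k ∈ Finset.Ioo (-(D : ℤ)) D, ((D : ℂ) - ((|k| : ℤ) : ℂ)) • c k := by
  induction D with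
  | zero => simp
  | succ n ih =>
    rw [Finset.sum_range_succ, ih]
    have h1 : Finset.Ioo (-((n + 1 : ℕ) : ℤ)) ((n + 1 : ℕ) : ℤ) = Finset.Icc (-(n : ℤ)) n := by
      ext k
      simp only [Finset.mem_Icc, Finset.mem_Ioo]
      push_cast
      omega
    rw [h1]
    have h3 : ∑ k ∈ Finset.Icc (-(n : ℤ)) n, ((n : ℂ) - ((|k| : ℤ) : ℂ)) • c k =
        ∑ k ∈ Finset.Ioo (-(n : ℤ)) n, ((n : ℂ) - ((|k| : ℤ) : ℂ)) • c k := by
      symm
      refine Finset.sum_subset (fun k hk => ?_) (fun k hk hk' => ?_)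
      · simp only [Finset.mem_Icc, Finset.mem_Ioo] at hk ⊢; omega
      · have hk2 : |k| = n := by
          simp only [Finset.mem_Icc, Finset.mem_Ioo, not_and, not_lt] at hk hk'
          rcases abs_cases k with h | h <;> omega
        rw [hk2]; simp
    rw [← h3, ← Finset.sum_add_distrib]
    refine Finset.sum_congr rfl fun k _ => ?_
    push_cast
    module

theorem ces {M : Type*} [AddCommGroup M] [Module ℂ M] (c : ℤ → M) {D : ℕ} (hD : 0 < D) :
    ((D : ℝ)⁻¹ : ℂ) • ∑ N ∈ Finset.range D, ∑ k ∈ Finset.Icc (-(N : ℤ)) N, c k =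
      ∑ k ∈ Finset.Ioo (-(D : ℤ)) D, ((1 - |(k : ℝ)| / D : ℝ) : ℂ) • c k := by
  rw [ces_aux, Finset.smul_sum]
  refine Finset.sum_congr rfl fun k _ => ?_
  rw [smul_smul]
  congr 1
  have hD' : (D : ℂ) ≠ 0 := by exact_mod_cast hD.ne'
  have hk : ((|k| : ℤ) : ℂ) = ((|(k : ℝ)| : ℝ) : ℂ) := by
    rw [← Int.cast_abs, Complex.ofReal_intCast]
  rw [hk]
  push_cast
  field_simp

theorem icc_tendsto : Tendsto (fun N : ℕ => Finset.Icc (-(N : ℤ)) N) atTop atTop := by
  refine tendsto_atTop_finset_of_monotone (fun a b hab => ?_) fun x => ⟨x.natAbs, ?_⟩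
  · intro k hk
    simp only [Finset.mem_Icc] at hk ⊢
    omega
  · simp only [Finset.mem_Icc]
    omega

theorem fm_tendsto (g : UnitAddCircle → ℂ) (hg : MemLp g 2 AddCircle.haarAddCircle) :
    Tendsto (fun D => ∫⁻ t, ‖fm D g t - g t‖ₑ ^ 2 ∂AddCircle.haarAddCircle) atTop (𝓝 0) := by
  set f : Lp ℂ 2 (AddCircle.haarAddCircle : Measure UnitAddCircle) := hg.toLp g with hf
  have hfg : (f : UnitAddCircle → ℂ) =ᵐ[AddCircle.haarAddCircle] g := hg.coeFn_toLp
  have h1 := (hasSum_fourier_series_L2 f).comp icc_tendsto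
  have h2 := h1.cesaro_smul
  have hco : ∀ k, fourierCoeff (f : UnitAddCircle → ℂ) k = fourierCoeff g k := by
    intro k
    unfold fourierCoeff
    refine integral_congr_ae ?_
    filter_upwards [hfg] with t ht
    rw [ht]
  set c : ℤ → Lp ℂ 2 (AddCircle.haarAddCircle : Measure UnitAddCircle) := fun k =>
    fourierCoeff g k • fourierLp 2 k with hc
  set F : ℕ → Lp ℂ 2 (AddCircle.haarAddCircle : Measure UnitAddCircle) := fun D =>
    ∑ k ∈ Finset.Ioo (-(D : ℤ)) D, ((1 - |(k : ℝ)| / D : ℝ) : ℂ) • c k with hF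
  have h3 : Tendsto F atTop (𝓝 f) := by
    refine h2.congr' ?_
    filter_upwards [eventually_gt_atTop 0] with D hD
    rw [hF]
    simp only
    rw [← ces c hD]
    simp only [Function.comp]
    rw [show ((D : ℝ)⁻¹ : ℂ) = (((D : ℝ)⁻¹ : ℝ) : ℂ) by push_cast; rfl, Complex.coe_smul]
    congr 1
    refine Finset.sum_congr rfl fun N _ => Finset.sum_congr rfl fun k _ => ?_
    rw [hc]
    simp only
    rw [hco]
  have hcoe : ∀ D, (F D : UnitAddCircle → ℂ) =ᵐ[AddCircle.haarAddCircle] fm D g := by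
    intro D
    have h4 : ∀ s : Finset ℤ, ((∑ k ∈ s, ((1 - |(k : ℝ)| / D : ℝ) : ℂ) • c k :
        Lp ℂ 2 (AddCircle.haarAddCircle : Measure UnitAddCircle)) : UnitAddCircle → ℂ)
        =ᵐ[AddCircle.haarAddCircle] fun t =>
          ∑ k ∈ s, ((1 - |(k : ℝ)| / D : ℝ) : ℂ) * (fourierCoeff g k * fourier k t) := by
      intro s
      induction s using Finset.induction_on with
      | empty =>
        simp only [Finset.sum_empty]
        exact Lp.coeFn_zero _ _ _
      | insert k s hk ih =>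
        rw [Finset.sum_insert hk]
        have e1 := Lp.coeFn_add (((1 - |(k : ℝ)| / D : ℝ) : ℂ) • c k)
          (∑ k ∈ s, ((1 - |(k : ℝ)| / D : ℝ) : ℂ) • c k)
        have e2 := Lp.coeFn_smul ((1 - |(k : ℝ)| / D : ℝ) : ℂ) (c k)
        have e3 := Lp.coeFn_smul (fourierCoeff g k)
          (fourierLp (T := 1) 2 k)
        have e4 := coeFn_fourierLp (T := 1) 2 k
        filter_upwards [e1, e2, e3, e4, ih] with t t1 t2 t3 t4 t5
        rw [t1, Pi.add_apply, t2, Pi.smul_apply, t5, Finset.sum_insert hk]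
        rw [hc]
        simp only
        rw [t3, Pi.smul_apply, t4]
        simp only [smul_eq_mul]
    exact h4 _
  have h5 : Tendsto (fun D => eLpNorm (fun t => fm D g t - g t) 2 AddCircle.haarAddCircle)
      atTop (𝓝 0) := by
    have h6 := (Lp.tendsto_Lp_iff_tendsto_eLpNorm' F f).1 h3
    refine h6.congr fun D => ?_
    refine eLpNorm_congr_ae ?_
    filter_upwards [hcoe D, hfg] with t t1 t2
    rw [Pi.sub_apply, t1, t2]
  have h7 : ∀ D, ∫⁻ t, ‖fm D g t - g t‖ₑ ^ 2 ∂AddCircle.haarAddCircle =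
      eLpNorm (fun t => fm D g t - g t) 2 AddCircle.haarAddCircle ^ 2 := by
    intro D
    rw [eLpNorm_eq_lintegral_rpow_enorm_toReal (by norm_num) (by norm_num)]
    rw [← ENNReal.rpow_natCast, ← ENNReal.rpow_mul]
    norm_num
  simp_rw [h7]
  have h8 := ((ENNReal.continuous_pow 2).tendsto 0).comp h5
  have h9 : (0 : ℝ≥0∞) ^ 2 = 0 := by norm_num
  rw [h9] at h8
  exact h8

end Pool.Agent.Helper969.HW
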