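import Mathlib
import Pool.Agent.Helper969.HW.F2
import Pool.Agent.Helper969.HW.F4
set_option autoImplicit false

/-! Fejer means as two-sided spherical polynomials. -/

namespace Pool.Agent.Helper969.HW

open MeasureTheory Measure Set Metric Complex MvPolynomial
open Pool.Agent.H789R2.FR (E sg sg_finite sg_ae sg_inv T polar)
open scoped RealInnerProductSpace ENNReal ComplexConjugate

variable {n : ℕ}

theorem Harm.smul {k : ℕ} {P : MvPolynomial (Fin n) ℂ} (h : Harm k P) (c : ℂ) : Harm k (C c * P) := by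
  constructor
  · have := (isHomogeneous_C (Fin n) c).mul h.1
    rwa [zero_add] at this
  · simp only [pderiv_C_mul, MvPolynomial.smul_eq_C_mul]
    rw [← Finset.mul_sum, h.2, mul_zero]

theorem Harm.zero (k : ℕ) : Harm k (0 : MvPolynomial (Fin n) ℂ) := by
  constructor
  · exact isHomogeneous_zero _ _ _
  · simp

theorem sum_split (f : ℤ → ℂ) (D : ℕ) : ∑ k ∈ Finset.Ioo (-(D : ℤ)) D, f k =
    ∑ k ∈ Finset.range D, f k + ∑ k ∈ Finset.range D, (if 0 < k then f (-(k : ℤ)) else 0) := by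
  induction D with
  | zero => simp
  | succ D ih =>
    rw [Finset.sum_range_succ, Finset.sum_range_succ]
    rcases Nat.eq_zero_or_pos D with hD | hD
    · subst hD
      have : Finset.Ioo (-((0 + 1 : ℕ) : ℤ)) ((0 + 1 : ℕ) : ℤ) = {0} := by
        ext k
        simp only [Finset.mem_Ioo, Finset.mem_singleton]
        push_cast
        omega
      rw [this]
      simp
    · have h1 : Finset.Ioo (-((D + 1 : ℕ) : ℤ)) ((D + 1 : ℕ) : ℤ) =
          insert (D : ℤ) (insert (-(D : ℤ)) (Finset.Ioo (-(D : ℤ)) D)) := by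
        ext k
        simp only [Finset.mem_Ioo, Finset.mem_insert]
        push_cast
        omega
      rw [h1, Finset.sum_insert, Finset.sum_insert, ih, if_pos hD]
      · ring
      · simp
      · simp only [Finset.mem_insert, Finset.mem_Ioo]
        omega

theorem shift_sum (s D : ℕ) (d : ℕ → ℂ) (h0 : ∀ k, k < s → d k = 0) (h1 : ∀ k, D ≤ k → d k = 0) :
    ∑ k ∈ Finset.range D, d k = ∑ j ∈ Finset.range D, d (s + j) := by
  have e1 := Finset.sum_range_add d s D
  have e2 := Finset.sum_range_add d D s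
  rw [add_comm D s, e1] at e2
  have e3 : ∑ k ∈ Finset.range s, d k = 0 := Finset.sum_eq_zero fun k hk =>
    h0 k (Finset.mem_range.1 hk)
  have e4 : ∑ k ∈ Finset.range s, d (D + k) = 0 := Finset.sum_eq_zero fun k _ =>
    h1 _ (Nat.le_add_right _ _)
  rw [e3, e4, zero_add, add_zero] at e2
  exact e2.symm

/-- weights -/
noncomputable def aw (D : ℕ) (k : ℕ) : ℂ := ((1 - (k : ℝ) / D : ℝ) : ℂ)

noncomputable def bw (s D : ℕ) (k : ℕ) : ℂ :=
  if k + s < D ∧ 0 < k + s then ((1 - ((k + s : ℕ) : ℝ) / D : ℝ) : ℂ) else 0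

theorem ee_conj_pow (k : ℕ) (t : UnitAddCircle) : conj (ee t) ^ k = fourier (-(k : ℤ)) t := by
  rw [← map_pow, ee_pow, ← fourier_neg]

theorem ident (s D : ℕ) (c : ℤ → ℂ) (a b : ℕ → ℂ) (ha : ∀ k : ℕ, c k = a k)
    (hb : ∀ k : ℕ, c (-((s + k : ℕ) : ℤ)) = b k) (hg : ∀ k : ℕ, 0 < k → k < s → c (-(k : ℤ)) = 0)
    (t : UnitAddCircle) :
    ∑ k ∈ Finset.Ioo (-(D : ℤ)) D, ((1 - |(k : ℝ)| / D : ℝ) : ℂ) * (c k * fourier k t) =
      Aa D (fun k => aw D k * a k) (ee t) +
        conj (ee t) ^ s * Aa D (fun k => bw s D k * b k) (conj (ee t)) := by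
  rw [sum_split]
  congr 1
  · unfold Aa
    refine Finset.sum_congr rfl fun k _ => ?_
    rw [ha, ee_pow]
    unfold aw
    rw [Int.cast_natCast, abs_of_nonneg (Nat.cast_nonneg k)]
    ring
  · set d : ℕ → ℂ := fun k => if 0 < k ∧ s ≤ k ∧ k < D then
      ((1 - (k : ℝ) / D : ℝ) : ℂ) * (b (k - s) * conj (ee t) ^ k) else 0 with hd
    have e1 : ∑ k ∈ Finset.range D, (if 0 < k then ((1 - |((-(k : ℤ) : ℤ) : ℝ)| / D : ℝ) : ℂ) *
        (c (-(k : ℤ)) * fourier (-(k : ℤ)) t) else 0) = ∑ k ∈ Finset.range D, d k := by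
      refine Finset.sum_congr rfl fun k hk => ?_
      rw [hd]
      simp only
      have hkD := Finset.mem_range.1 hk
      by_cases h0 : 0 < k
      · rw [if_pos h0]
        by_cases hs : s ≤ k
        · rw [if_pos ⟨h0, hs, hkD⟩, ee_conj_pow]
          have h2 := hb (k - s)
          rw [show s + (k - s) = k by omega] at h2
          rw [h2, Int.cast_neg, Int.cast_natCast, abs_neg, abs_of_nonneg (Nat.cast_nonneg k)]
        · rw [if_neg (by omega), hg k h0 (by omega), zero_mul, mul_zero]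
      · rw [if_neg h0, if_neg (by omega)]
    rw [e1, shift_sum s D d (fun k hk => by rw [hd]; simp only; rw [if_neg (by omega)])
      (fun k hk => by rw [hd]; simp only; rw [if_neg (by omega)])]
    unfold Aa
    rw [Finset.mul_sum]
    refine Finset.sum_congr rfl fun j _ => ?_
    rw [hd]
    simp only
    unfold bw
    by_cases hj : j + s < D ∧ 0 < j + s
    · rw [if_pos hj, if_pos (by omega), Nat.add_sub_cancel_left, pow_add, add_comm s j]
      ring
    · rw [if_neg hj, if_neg (by omega)]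
      ring

/-- the polynomials of the Fejer means -/
noncomputable def Pd (D : ℕ) (P : ℕ → MvPolynomial (Fin n) ℂ) (k : ℕ) : MvPolynomial (Fin n) ℂ :=
  C (aw D k) * P k

noncomputable def Qd (s D : ℕ) (Q : ℕ → MvPolynomial (Fin n) ℂ) (k : ℕ) : MvPolynomial (Fin n) ℂ :=
  C (bw s D k) * Q k

theorem Pd_harm (D : ℕ) (P : ℕ → MvPolynomial (Fin n) ℂ) (hP : ∀ k, Harm k (P k)) (k : ℕ) :
    Harm k (Pd D P k) := (hP k).smul _

theorem Qd_harm (s D : ℕ) (Q : ℕ → MvPolynomial (Fin n) ℂ) (hQ : ∀ k, Harm k (Q k)) (k : ℕ) :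
    Harm k (Qd s D Q k) := (hQ k).smul _

theorem Qd_zero (s D : ℕ) (Q : ℕ → MvPolynomial (Fin n) ℂ) (hs : s = 0) : Qd s D Q 0 = 0 := by
  unfold Qd bw
  subst hs
  simp

/-- at a point where the Fourier coefficients are as required, the Fejer mean is a two-sided
polynomial -/
theorem fm_VV (s D : ℕ) (P Q : ℕ → MvPolynomial (Fin n) ℂ) (g : UnitAddCircle → ℂ) (x : E n)
    (hP : ∀ k : ℕ, fourierCoeff g k = ev (P k) x)
    (hQ : ∀ k : ℕ, fourierCoeff g (-((s + k : ℕ) : ℤ)) = ev (Q k) x)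
    (hg : ∀ k : ℕ, 0 < k → k < s → fourierCoeff g (-(k : ℤ)) = 0) (t : UnitAddCircle) :
    fm D g t = VV s D (Pd D P) (Qd s D Q) t x := by
  unfold fm
  rw [ident s D (fourierCoeff g) (fun k => ev (P k) x) (fun k => ev (Q k) x) hP hQ hg t]
  unfold VV Uu Pd Qd
  simp_rw [ev_mul, ev_C]

end Pool.Agent.Helper969.HW
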