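import Mathlib
import Pool.Agent.Y251.HR.C5
import Pool.Agent.Helper969.HW.F5
set_option autoImplicit false

/-! Passage to the limit. -/

namespace Pool.Agent.Helper969.HW

open MeasureTheory Measure Set Metric Complex MvPolynomial Filter
open Pool.Agent.H789R2.FR (E sg sg_finite sg_ae sg_inv T polar)
open Pool.Agent.Y251.HR (sig sft sft_eq scale_int)
open scoped RealInnerProductSpace ENNReal ComplexConjugate Topology

variable {n : ℕ}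

/-- a family of densities whose Fourier coefficients in `t` are spherical harmonics of the
prescribed degrees -/
structure Wave (s : ℕ) (G : UnitAddCircle → sphere (0 : E n) 1 → ℂ) : Prop where
  pos : ∀ k : ℕ, ∃ P : MvPolynomial (Fin n) ℂ, Harm k P ∧
    ∀ᵐ x ∂(sig n), fourierCoeff (fun t => G t x) k = ev P (x : E n)
  neg : ∀ k : ℕ, ∃ Q : MvPolynomial (Fin n) ℂ, Harm k Q ∧
    ∀ᵐ x ∂(sig n), fourierCoeff (fun t => G t x) (-((s + k : ℕ) : ℤ)) = ev Q (x : E n)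
  gap : ∀ k : ℕ, 0 < k → k < s → ∀ᵐ x ∂(sig n), fourierCoeff (fun t => G t x) (-(k : ℤ)) = 0

instance sig_fin : IsFiniteMeasure (sig n) := by unfold sig; infer_instance

theorem sq_le (a b : ℂ) : ‖a - b‖ₑ ^ 2 ≤ 2 * ‖a‖ₑ ^ 2 + 2 * ‖b‖ₑ ^ 2 := by
  have h : ‖a - b‖ ^ 2 ≤ 2 * ‖a‖ ^ 2 + 2 * ‖b‖ ^ 2 := by
    have h1 := norm_sub_le a b
    have h2 : ‖a - b‖ ^ 2 ≤ (‖a‖ + ‖b‖) ^ 2 := by gcongr
    nlinarith [sq_nonneg (‖a‖ - ‖b‖)]
  have h3 := ENNReal.ofReal_le_ofReal h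
  rwa [ENNReal.ofReal_add (by positivity) (by positivity), ENNReal.ofReal_mul (by norm_num),
    ENNReal.ofReal_mul (by norm_num), ENNReal.ofReal_pow (norm_nonneg _),
    ENNReal.ofReal_pow (norm_nonneg _), ENNReal.ofReal_pow (norm_nonneg _), ofReal_norm,
    ofReal_norm, ofReal_norm, ENNReal.ofReal_ofNat] at h3

theorem two_le_four (t : ℝ≥0∞) : t ^ 2 ≤ 1 + t ^ 4 := by
  rcases le_total t 1 with h | h
  · refine le_trans ?_ le_self_add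
    exact pow_le_one₀ zero_le h
  · refine le_trans ?_ le_add_self
    exact pow_le_pow_right₀ h (by norm_num)

theorem one_le_four (t : ℝ≥0∞) : t ≤ 1 + t ^ 4 := by
  rcases le_total t 1 with h | h
  · exact h.trans le_self_add
  · refine le_trans ?_ le_add_self
    calc t = t ^ 1 := (pow_one t).symm
      _ ≤ t ^ 4 := pow_le_pow_right₀ h (by norm_num)

theorem int_of_four {α : Type*} [MeasurableSpace α] (μ : Measure α) [IsFiniteMeasure μ] (g : α → ℂ)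
    (hg : AEStronglyMeasurable g μ) (h : ∫⁻ x, ‖g x‖ₑ ^ 4 ∂μ < ⊤) : Integrable g μ := by
  refine ⟨hg, ?_⟩
  rw [HasFiniteIntegral]
  calc ∫⁻ x, ‖g x‖ₑ ∂μ ≤ ∫⁻ x, (1 + ‖g x‖ₑ ^ 4) ∂μ := lintegral_mono fun x => one_le_four _
    _ = (∫⁻ _x, 1 ∂μ) + ∫⁻ x, ‖g x‖ₑ ^ 4 ∂μ := by rw [lintegral_add_left measurable_const]
    _ < ∞ := by
        rw [lintegral_const, one_mul]
        exact ENNReal.add_lt_top.2 ⟨measure_lt_top _ _, h⟩

theorem two_of_four {α : Type*} [MeasurableSpace α] (μ : Measure α) [IsFiniteMeasure μ] (g : α → ℂ)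
    (h : ∫⁻ x, ‖g x‖ₑ ^ 4 ∂μ < ⊤) : ∫⁻ x, ‖g x‖ₑ ^ 2 ∂μ < ⊤ := by
  calc ∫⁻ x, ‖g x‖ₑ ^ 2 ∂μ ≤ ∫⁻ x, (1 + ‖g x‖ₑ ^ 4) ∂μ := lintegral_mono fun x => two_le_four _
    _ = (∫⁻ _x, 1 ∂μ) + ∫⁻ x, ‖g x‖ₑ ^ 4 ∂μ := by rw [lintegral_add_left measurable_const]
    _ < ∞ := by
        rw [lintegral_const, one_mul]
        exact ENNReal.add_lt_top.2 ⟨measure_lt_top _ _, h⟩

theorem memLp_two {α : Type*} [MeasurableSpace α] (μ : Measure α) [IsFiniteMeasure μ] (g : α → ℂ)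
    (hg : AEStronglyMeasurable g μ) (h : ∫⁻ x, ‖g x‖ₑ ^ 4 ∂μ < ⊤) : MemLp g 2 μ := by
  refine ⟨hg, ?_⟩
  rw [eLpNorm_lt_top_iff_lintegral_rpow_enorm_lt_top (by norm_num) (by norm_num)]
  simp only [ENNReal.toReal_ofNat, ENNReal.rpow_ofNat]
  exact two_of_four μ g h

theorem cs {α : Type*} [MeasurableSpace α] (μ : Measure α) (g : α → ℂ)
    (hg : AEMeasurable g μ) :
    ∫⁻ w, ‖g w‖ₑ ∂μ ≤ (μ univ) ^ (1 / 2 : ℝ) * (∫⁻ w, ‖g w‖ₑ ^ 2 ∂μ) ^ (1 / 2 : ℝ) := by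
  have h := ENNReal.lintegral_mul_norm_pow_le (μ := μ) (f := fun _ => (1 : ℝ≥0∞))
    (g := fun w => ‖g w‖ₑ ^ 2) aemeasurable_const (hg.enorm.pow_const 2)
    (by norm_num : (0 : ℝ) ≤ 1 / 2) (by norm_num : (0 : ℝ) ≤ 1 / 2) (by norm_num)
  simp only [ENNReal.one_rpow, one_mul, lintegral_const] at h
  refine le_trans (le_of_eq ?_) h
  refine lintegral_congr fun w => ?_
  rw [← ENNReal.rpow_natCast, ← ENNReal.rpow_mul]
  norm_num

theorem ph_sphere_norm (ξ : E n) (x : sphere (0 : E n) 1) :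
    ‖Complex.exp (-(2 * Real.pi * ⟪(x : E n), ξ⟫ : ℝ) * I)‖ = 1 := by
  have h3 : -(((2 * Real.pi * ⟪(x : E n), ξ⟫ : ℝ)) : ℂ) * I =
      ((-(2 * Real.pi * ⟪(x : E n), ξ⟫) : ℝ) : ℂ) * I := by push_cast; ring
  rw [h3, Complex.norm_exp_ofReal_mul_I]

theorem sft_int (g : sphere (0 : E n) 1 → ℂ) (hg : Integrable g (sig n)) (ξ : E n) :
    Integrable (fun x : sphere (0 : E n) 1 =>
      Complex.exp (-(2 * Real.pi * ⟪(x : E n), ξ⟫ : ℝ) * I) * g x) (sig n) := by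
  have hc : Continuous fun x : sphere (0 : E n) 1 =>
      Complex.exp (-(2 * Real.pi * ⟪(x : E n), ξ⟫ : ℝ) * I) := by fun_prop
  exact hg.bdd_mul hc.measurable.aestronglyMeasurable (c := 1)
    (Eventually.of_forall fun x => (ph_sphere_norm ξ x).le)

theorem sft_diff (g h : sphere (0 : E n) 1 → ℂ) (hg : Integrable g (sig n))
    (hh : Integrable h (sig n)) (ξ : E n) :
    ‖sft g ξ - sft h ξ‖ₑ ≤ (sig n univ) ^ (1 / 2 : ℝ) *
      (∫⁻ x, ‖g x - h x‖ₑ ^ 2 ∂(sig n)) ^ (1 / 2 : ℝ) := by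
  refine le_trans ?_ (cs (sig n) (fun x => g x - h x) (hg.1.sub hh.1).aemeasurable)
  unfold sft
  rw [← integral_sub (sft_int g hg ξ) (sft_int h hh ξ)]
  refine (enorm_integral_le_lintegral_enorm _).trans (le_of_eq ?_)
  refine lintegral_congr fun x => ?_
  rw [← mul_sub, enorm_mul, ← ofReal_norm (Complex.exp _), ph_sphere_norm, ENNReal.ofReal_one,
    one_mul]

/-- fast subsequence -/
theorem fast {α : Type*} [MeasurableSpace α] (μ : Measure α) (φ : ℕ → α → ℝ≥0∞)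
    (hφ : ∀ D, Measurable (φ D)) (h : Tendsto (fun D => ∫⁻ t, φ D t ∂μ) atTop (𝓝 0)) :
    ∃ d : ℕ → ℕ, ∀ᵐ t ∂μ, Tendsto (fun j => φ (d j) t) atTop (𝓝 0) := by
  have h1 : ∀ j : ℕ, ∃ D, ∫⁻ t, φ D t ∂μ ≤ (2⁻¹ : ℝ≥0∞) ^ j := by
    intro j
    have h2 : (0 : ℝ≥0∞) < (2⁻¹ : ℝ≥0∞) ^ j := by
      apply ENNReal.pow_pos
      norm_num
    exact ((ENNReal.tendsto_nhds_zero.1 h) _ h2).exists
  choose d hd using h1
  refine ⟨d, ?_⟩
  have h3 : ∫⁻ t, ∑' j, φ (d j) t ∂μ ≠ ⊤ := by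
    rw [lintegral_tsum fun j => (hφ (d j)).aemeasurable]
    refine ne_top_of_le_ne_top ?_ (ENNReal.tsum_le_tsum hd)
    rw [ENNReal.tsum_geometric]
    norm_num
  have h4 := ae_lt_top (Measurable.tsum fun j => hφ (d j)) h3
  filter_upwards [h4] with t ht
  exact ENNReal.tendsto_atTop_zero_of_tsum_ne_top ht.ne

end Pool.Agent.Helper969.HW
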