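import Mathlib
import Pool.Agent.Helper969.HW.F6
set_option autoImplicit false

/-! The averaged estimate for families of densities in `L^4`. -/

namespace Pool.Agent.Helper969.HW

open MeasureTheory Measure Set Metric Complex MvPolynomial Filter
open Pool.Agent.H789R2.FR (E sg sg_finite sg_ae sg_inv T polar)
open Pool.Agent.Y251.HR (sig sft sft_eq scale_int)
open scoped RealInnerProductSpace ENNReal ComplexConjugate Topology

variable {n : ℕ}

/-- the Fejer mean as a two-sided polynomial on the sphere -/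
noncomputable def WD (s D : ℕ) (P Q : ℕ → MvPolynomial (Fin n) ℂ) (t : UnitAddCircle)
    (x : sphere (0 : E n) 1) : ℂ := VV s D (Pd D P) (Qd s D Q) t (x : E n)

theorem WD_meas (s D : ℕ) (P Q : ℕ → MvPolynomial (Fin n) ℂ) :
    Measurable (Function.uncurry (WD (n := n) s D P Q)) := by
  have h1 : Measurable fun p : UnitAddCircle × sphere (0 : E n) 1 => (p.1, (p.2 : E n)) :=
    measurable_fst.prodMk (measurable_subtype_coe.comp measurable_snd)
  have h2 := (VV_meas s D (Pd D P) (Qd s D Q)).comp h1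
  exact h2

theorem VV_cont1 (s K : ℕ) (P Q : ℕ → MvPolynomial (Fin n) ℂ) (t : UnitAddCircle) :
    Continuous (VV s K P Q t) := by
  unfold VV
  exact (Uu_cont1 K P _).add (continuous_const.mul (Uu_cont1 K Q _))

theorem WD_int (s D : ℕ) (P Q : ℕ → MvPolynomial (Fin n) ℂ) (t : UnitAddCircle) :
    Integrable (WD (n := n) s D P Q t) (sig n) := by
  have hc : Continuous (WD (n := n) s D P Q t) :=
    (VV_cont1 s D (Pd D P) (Qd s D Q) t).comp continuous_subtype_val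
  obtain ⟨C, hC⟩ := isCompact_univ.exists_bound_of_continuousOn hc.continuousOn
  exact Integrable.of_bound hc.aestronglyMeasurable C
    (Eventually.of_forall fun x => hC x (mem_univ _))

theorem WD_four (s D : ℕ) (P Q : ℕ → MvPolynomial (Fin n) ℂ) :
    V4 s D (Pd D P) (Qd s D Q) = ∫⁻ t, (∫⁻ x, ‖WD (n := n) s D P Q t x‖ₑ ^ 4 ∂(sig n)) ∂hm := by
  unfold V4
  refine lintegral_congr fun t => ?_
  simp only [sg]
  rw [lintegral_map ((VV_cont1 s D (Pd D P) (Qd s D Q) t).measurable.enorm.pow_const 4)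
    measurable_subtype_coe]
  rfl

theorem WD_sft (s D : ℕ) (P Q : ℕ → MvPolynomial (Fin n) ℂ) (t : UnitAddCircle) (ξ : E n) :
    sft (WD (n := n) s D P Q t) ξ = T (VV s D (Pd D P) (Qd s D Q) t) ((2 * Real.pi) • ξ) :=
  sft_eq _ _ (VV_cont1 s D (Pd D P) (Qd s D Q) t).measurable (Eventually.of_forall fun _ => rfl) ξ

theorem TVV_meas (hn : 2 ≤ n) (s K : ℕ) (P Q : ℕ → MvPolynomial (Fin n) ℂ)
    (hP : ∀ k, Harm k (P k)) (hQ : ∀ k, Harm k (Q k)) :
    Measurable fun q : UnitAddCircle × E n => T (VV s K P Q q.1) q.2 := by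
  simp_rw [T_VV]
  have hee : Measurable fun q : UnitAddCircle × E n => (ee q.1, q.2) :=
    (ee_cont.comp continuous_fst).measurable.prodMk measurable_snd
  have hc1 : Measurable fun q : UnitAddCircle × E n => conj (ee q.1) :=
    (Complex.continuous_conj.comp (ee_cont.comp continuous_fst)).measurable
  have hcc : Measurable fun q : UnitAddCircle × E n => (conj (ee q.1), q.2) :=
    hc1.prodMk measurable_snd
  have m1 := (TU_joint hn K P hP).comp hee
  have m2 := (TU_joint hn K Q hQ).comp hcc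
  have m3 := m1.add ((hc1.pow_const s).mul m2)
  exact m3

/-- **The averaged estimate**, `p < 4`. -/
theorem core (n : ℕ) (hn : 3 ≤ n) (p : ℝ) (hp : 2 * (n : ℝ) / (n - 1) < p) (hp4 : p < 4) :
    ∃ C : ℝ, 0 < C ∧ ∀ (s : ℕ) (G : UnitAddCircle → sphere (0 : E n) 1 → ℂ),
      Measurable (Function.uncurry G) → Wave s G → ∀ B : ℝ≥0∞, B ≠ ⊤ →
      ∫⁻ t, (∫⁻ x, ‖G t x‖ₑ ^ 4 ∂(sig n)) ∂hm ≤ B →
      ∫⁻ t, (∫⁻ ξ, ‖sft (G t) ξ‖ₑ ^ p) ∂hm ≤ ENNReal.ofReal C * B ^ (p / 4) := by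
  obtain ⟨C, hC, h⟩ := two_p n hn p hp hp4
  have hn' : (3 : ℝ) ≤ n := by exact_mod_cast hn
  have hp0 : 0 < p := by
    refine lt_trans ?_ hp
    have : (0 : ℝ) < n - 1 := by linarith
    positivity
  refine ⟨C, hC, ?_⟩
  intro s G hGm hW B hB hGB
  choose P hP hPc using hW.pos
  choose Q hQ hQc using hW.neg
  have hall : ∀ᵐ x ∂(sig n), (∀ k : ℕ, fourierCoeff (fun t => G t x) k = ev (P k) (x : E n)) ∧
      (∀ k : ℕ, fourierCoeff (fun t => G t x) (-((s + k : ℕ) : ℤ)) = ev (Q k) (x : E n)) ∧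
      (∀ k : ℕ, 0 < k → k < s → fourierCoeff (fun t => G t x) (-(k : ℤ)) = 0) := by
    have h1 := ae_all_iff.2 hPc
    have h2 := ae_all_iff.2 hQc
    have h3 : ∀ᵐ x ∂(sig n), ∀ k : ℕ, 0 < k → k < s →
        fourierCoeff (fun t => G t x) (-(k : ℤ)) = 0 := by
      rw [ae_all_iff]
      intro k
      by_cases hk : 0 < k ∧ k < s
      · filter_upwards [hW.gap k hk.1 hk.2] with x hx _ _
        exact hx
      · exact Eventually.of_forall fun x h1 h2 => absurd ⟨h1, h2⟩ hk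
    filter_upwards [h1, h2, h3] with x x1 x2 x3
    exact ⟨x1, x2, x3⟩
  -- sections
  have hGt : ∀ t, Measurable (G t) := fun t => hGm.comp measurable_prodMk_left
  have hGx : ∀ x, Measurable fun t => G t x := fun x => hGm.comp measurable_prodMk_right
  have hG4m := hGm.enorm.pow_const 4
  have hsw4 : ∫⁻ t, (∫⁻ x, ‖G t x‖ₑ ^ 4 ∂(sig n)) ∂hm =
      ∫⁻ x, (∫⁻ t, ‖G t x‖ₑ ^ 4 ∂hm) ∂(sig n) :=
    lintegral_lintegral_swap hG4m.aemeasurable
  have hx4 : ∀ᵐ x ∂(sig n), ∫⁻ t, ‖G t x‖ₑ ^ 4 ∂hm < ⊤ := by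
    refine ae_lt_top ?_ ?_
    · exact (hG4m.comp measurable_swap).lintegral_prod_right' (ν := hm)
    · rw [← hsw4]
      exact ne_top_of_le_ne_top hB hGB
  have ht4 : ∀ᵐ t ∂hm, ∫⁻ x, ‖G t x‖ₑ ^ 4 ∂(sig n) < ⊤ := by
    refine ae_lt_top ?_ (ne_top_of_le_ne_top hB hGB)
    exact hG4m.lintegral_prod_right' (ν := sig n)
  -- the Fejer means
  have hfm : ∀ᵐ x ∂(sig n), ∀ D t, WD s D P Q t x = fm D (fun t => G t x) t := by
    filter_upwards [hall] with x hx D t
    exact (fm_VV s D P Q (fun t => G t x) (x : E n) hx.1 hx.2.1 hx.2.2 t).symm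
  have hWm := fun D => WD_meas (n := n) s D P Q
  -- fourth moments
  have hV4 : ∀ D, V4 s (D + 1) (Pd (D + 1) P) (Qd s (D + 1) Q) ≤ B := by
    intro D
    rw [WD_four]
    refine le_trans ?_ hGB
    rw [hsw4, lintegral_lintegral_swap ((hWm (D + 1)).enorm.pow_const 4).aemeasurable]
    refine lintegral_mono_ae ?_
    filter_upwards [hfm, hx4] with x hx hx4'
    have h1 := fm_contr (Nat.succ_pos D) (fun t => G t x)
      (int_of_four hm _ (hGx x).aestronglyMeasurable hx4') 4 (by norm_num)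
    simp only [ENNReal.rpow_ofNat] at h1
    refine le_trans (le_of_eq ?_) h1
    refine lintegral_congr fun t => ?_
    rw [hx (D + 1) t]
  -- convergence in mean
  set φ : ℕ → UnitAddCircle → ℝ≥0∞ := fun D t =>
    ∫⁻ x, ‖WD s (D + 1) P Q t x - G t x‖ₑ ^ 2 ∂(sig n) with hφ
  have hdm : ∀ D, Measurable (Function.uncurry fun (t : UnitAddCircle) (x : sphere (0 : E n) 1) =>
      ‖WD s (D + 1) P Q t x - G t x‖ₑ ^ 2) := fun D =>
    ((hWm (D + 1)).sub hGm).enorm.pow_const 2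
  have hφm : ∀ D, Measurable (φ D) := fun D => (hdm D).lintegral_prod_right' (ν := sig n)
  have hφ0 : Tendsto (fun D => ∫⁻ t, φ D t ∂hm) atTop (𝓝 0) := by
    have e1 : ∀ D, ∫⁻ t, φ D t ∂hm =
        ∫⁻ x, (∫⁻ t, ‖WD s (D + 1) P Q t x - G t x‖ₑ ^ 2 ∂hm) ∂(sig n) := fun D =>
      lintegral_lintegral_swap (hdm D).aemeasurable
    simp_rw [e1]
    have e2 : (0 : ℝ≥0∞) = ∫⁻ _x : sphere (0 : E n) 1, 0 ∂(sig n) := by simp
    rw [e2]
    have hG2m : Measurable fun x : sphere (0 : E n) 1 => ∫⁻ t, ‖G t x‖ₑ ^ 2 ∂hm :=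
      ((hGm.enorm.pow_const 2).comp measurable_swap).lintegral_prod_right' (ν := hm)
    refine tendsto_lintegral_of_dominated_convergence'
      (fun x => 4 * ∫⁻ t, ‖G t x‖ₑ ^ 2 ∂hm) (fun D => ?_) (fun D => ?_) ?_ ?_
    · exact (((hdm D).comp measurable_swap).lintegral_prod_right' (ν := hm)).aemeasurable
    · filter_upwards [hfm, hx4] with x hx hx4'
      have h1 := fm_contr (Nat.succ_pos D) (fun t => G t x)
        (int_of_four hm _ (hGx x).aestronglyMeasurable hx4') 2 (by norm_num)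
      simp only [ENNReal.rpow_ofNat] at h1
      calc ∫⁻ t, ‖WD s (D + 1) P Q t x - G t x‖ₑ ^ 2 ∂hm
          ≤ ∫⁻ t, (2 * ‖fm (D + 1) (fun t => G t x) t‖ₑ ^ 2 + 2 * ‖G t x‖ₑ ^ 2) ∂hm := by
            refine lintegral_mono fun t => ?_
            rw [hx (D + 1) t]
            exact sq_le _ _
        _ = 2 * (∫⁻ t, ‖fm (D + 1) (fun t => G t x) t‖ₑ ^ 2 ∂hm) +
            2 * ∫⁻ t, ‖G t x‖ₑ ^ 2 ∂hm := by
            rw [lintegral_add_right _ (((hGx x).enorm.pow_const 2).const_mul _),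
              lintegral_const_mul' _ _ (by norm_num), lintegral_const_mul' _ _ (by norm_num)]
        _ ≤ 2 * (∫⁻ t, ‖G t x‖ₑ ^ 2 ∂hm) + 2 * ∫⁻ t, ‖G t x‖ₑ ^ 2 ∂hm := by gcongr
        _ = 4 * ∫⁻ t, ‖G t x‖ₑ ^ 2 ∂hm := by ring
    · rw [lintegral_const_mul' _ _ (by norm_num)]
      refine ENNReal.mul_ne_top (by norm_num) ?_
      have h5 : ∫⁻ x, (∫⁻ t, ‖G t x‖ₑ ^ 2 ∂hm) ∂(sig n) ≤
          ∫⁻ x, (∫⁻ t, (1 + ‖G t x‖ₑ ^ 4) ∂hm) ∂(sig n) :=
        lintegral_mono fun x => lintegral_mono fun t => two_le_four _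
      refine ne_top_of_le_ne_top ?_ h5
      have h6 : ∀ x, ∫⁻ t, (1 + ‖G t x‖ₑ ^ 4) ∂hm = 1 + ∫⁻ t, ‖G t x‖ₑ ^ 4 ∂hm := by
        intro x
        rw [lintegral_add_left measurable_const, lintegral_const, measure_univ, one_mul]
      simp_rw [h6]
      rw [lintegral_add_left measurable_const, ← hsw4, lintegral_const, one_mul]
      exact (ENNReal.add_lt_top.2 ⟨measure_lt_top _ _, lt_top_iff_ne_top.2
        (ne_top_of_le_ne_top hB hGB)⟩).ne
    · filter_upwards [hfm, hx4] with x hx hx4'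
      have h1 := fm_tendsto (fun t => G t x) (memLp_two hm _ (hGx x).aestronglyMeasurable hx4')
      have h2 := h1.comp (tendsto_add_atTop_nat 1)
      refine h2.congr fun D => ?_
      simp only [Function.comp]
      refine lintegral_congr fun t => ?_
      rw [hx (D + 1) t]
  obtain ⟨d, hd⟩ := fast hm φ hφm hφ0
  -- pointwise convergence of the transforms
  have hconv : ∀ᵐ t ∂hm, ∀ ξ, Tendsto (fun j => sft (WD s (d j + 1) P Q t) ξ) atTop
      (𝓝 (sft (G t) ξ)) := by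
    filter_upwards [hd, ht4] with t h1 h2 ξ
    have hGi := int_of_four (sig n) (G t) (hGt t).aestronglyMeasurable h2
    rw [tendsto_iff_edist_tendsto_0]
    have h3 : Tendsto (fun j => (sig n univ) ^ (1 / 2 : ℝ) * (φ (d j) t) ^ (1 / 2 : ℝ)) atTop
        (𝓝 0) := by
      have h4 : Tendsto (fun j => (φ (d j) t) ^ (1 / 2 : ℝ)) atTop (𝓝 0) := by
        have h5 := ((ENNReal.continuous_rpow_const (y := 1 / 2)).tendsto 0).comp h1
        rw [ENNReal.zero_rpow_of_pos (by norm_num)] at h5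
        exact h5
      have h5 := ENNReal.Tendsto.const_mul (a := (sig n univ) ^ (1 / 2 : ℝ)) h4
        (Or.inr (ENNReal.rpow_ne_top_of_nonneg (by norm_num) (measure_ne_top _ _)))
      rwa [mul_zero] at h5
    refine tendsto_of_tendsto_of_tendsto_of_le_of_le tendsto_const_nhds h3 (fun k => zero_le)
      fun j => ?_
    rw [edist_eq_enorm_sub]
    exact sft_diff _ _ (WD_int s (d j + 1) P Q t) hGi ξ
  -- Fatou
  have hTm : ∀ D, Measurable fun q : UnitAddCircle × E n =>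
      ‖sft (WD s D P Q q.1) q.2‖ₑ ^ p := by
    intro D
    simp_rw [WD_sft]
    have h0 : Measurable fun q : UnitAddCircle × E n => (2 * Real.pi) • q.2 := by fun_prop
    have h1 := (measurable_fst (α := UnitAddCircle) (β := E n)).prodMk h0
    have h2 := ((TVV_meas (by omega) s D (Pd D P) (Qd s D Q) (Pd_harm D P hP)
      (Qd_harm s D Q hQ)).comp h1).enorm.pow_const p
    exact h2
  have hone : ∀ D, ∫⁻ t, (∫⁻ ξ, ‖sft (WD s (D + 1) P Q t) ξ‖ₑ ^ p) ∂hm ≤
      ENNReal.ofReal C * B ^ (p / 4) := by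
    intro D
    have h1 := h s (D + 1) (Pd (D + 1) P) (Qd s (D + 1) Q) (Pd_harm _ P hP) (Qd_harm s _ Q hQ)
      (Qd_zero s _ Q)
    have h5 : ENNReal.ofReal ((2 * Real.pi) ^ n)⁻¹ ≤ 1 := by
      rw [ENNReal.ofReal_le_one]
      apply inv_le_one_of_one_le₀
      apply one_le_pow₀
      linarith [Real.pi_gt_three]
    have h6 : ∀ t, ∫⁻ ξ, ‖sft (WD s (D + 1) P Q t) ξ‖ₑ ^ p ≤
        ∫⁻ x, ‖T (VV s (D + 1) (Pd (D + 1) P) (Qd s (D + 1) Q) t) x‖ₑ ^ p := by
      intro t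
      simp_rw [WD_sft]
      have hm1 : Measurable fun x => ‖T (VV s (D + 1) (Pd (D + 1) P) (Qd s (D + 1) Q) t) x‖ₑ ^ p := by
        have h2 := (TVV_meas (by omega) s (D + 1) (Pd (D + 1) P) (Qd s (D + 1) Q)
          (Pd_harm _ P hP) (Qd_harm s _ Q hQ)).comp (measurable_prodMk_left (x := t))
        exact h2.enorm.pow_const p
      rw [scale_int (fun x => ‖T (VV s (D + 1) (Pd (D + 1) P) (Qd s (D + 1) Q) t) x‖ₑ ^ p) hm1]
      calc _ ≤ 1 * ∫⁻ z, ‖T (VV s (D + 1) (Pd (D + 1) P) (Qd s (D + 1) Q) t) z‖ₑ ^ p := by gcongr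
        _ = _ := one_mul _
    refine (lintegral_mono h6).trans (h1.trans ?_)
    gcongr
    exact hV4 D
  have hF : ∀ᵐ t ∂hm, ∫⁻ ξ, ‖sft (G t) ξ‖ₑ ^ p ≤
      liminf (fun j => ∫⁻ ξ, ‖sft (WD s (d j + 1) P Q t) ξ‖ₑ ^ p) atTop := by
    filter_upwards [hconv] with t ht
    calc ∫⁻ ξ, ‖sft (G t) ξ‖ₑ ^ p =
        ∫⁻ ξ, liminf (fun j => ‖sft (WD s (d j + 1) P Q t) ξ‖ₑ ^ p) atTop := by
          refine lintegral_congr fun ξ => ?_
          have h1 : Tendsto (fun j => ‖sft (WD s (d j + 1) P Q t) ξ‖ₑ ^ p) atTop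
              (𝓝 (‖sft (G t) ξ‖ₑ ^ p)) :=
            (ENNReal.continuous_rpow_const.tendsto _).comp (ht ξ).enorm
          exact h1.liminf_eq.symm
      _ ≤ _ := by
          refine lintegral_liminf_le fun j => ?_
          have h2 := (hTm (d j + 1)).comp (measurable_prodMk_left (x := t))
          exact h2
  calc ∫⁻ t, (∫⁻ ξ, ‖sft (G t) ξ‖ₑ ^ p) ∂hm
      ≤ ∫⁻ t, liminf (fun j => ∫⁻ ξ, ‖sft (WD s (d j + 1) P Q t) ξ‖ₑ ^ p) atTop ∂hm :=
        lintegral_mono_ae hF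
    _ ≤ liminf (fun j => ∫⁻ t, (∫⁻ ξ, ‖sft (WD s (d j + 1) P Q t) ξ‖ₑ ^ p) ∂hm) atTop := by
        refine lintegral_liminf_le fun j => ?_
        exact (hTm (d j + 1)).lintegral_prod_right' (ν := (volume : Measure (E n)))
    _ ≤ ENNReal.ofReal C * B ^ (p / 4) := by
        refine liminf_le_of_frequently_le' ?_
        exact Frequently.of_forall fun j => hone (d j)

end Pool.Agent.Helper969.HW
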