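import Mathlib
import Pool.Agent.Helper969.HW.F7
set_option autoImplicit false

/-! All exponents. -/

namespace Pool.Agent.Helper969.HW

open MeasureTheory Measure Set Metric Complex MvPolynomial Filter
open Pool.Agent.H789R2.FR (E sg sg_finite sg_ae sg_inv T polar)
open Pool.Agent.Y251.HR (sig sft sft_eq scale_int)
open scoped RealInnerProductSpace ENNReal ComplexConjugate Topology

variable {n : ℕ}

theorem sft_le (g : sphere (0 : E n) 1 → ℂ) (ξ : E n) : ‖sft g ξ‖ₑ ≤ ∫⁻ x, ‖g x‖ₑ ∂(sig n) := by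
  unfold sft
  refine (enorm_integral_le_lintegral_enorm _).trans (le_of_eq ?_)
  refine lintegral_congr fun x => ?_
  rw [enorm_mul, ← ofReal_norm (Complex.exp _), ph_sphere_norm, ENNReal.ofReal_one, one_mul]

theorem sft_joint (G : UnitAddCircle → sphere (0 : E n) 1 → ℂ) (hG : Measurable (Function.uncurry G)) :
    Measurable fun q : UnitAddCircle × E n => sft (G q.1) q.2 := by
  unfold sft
  have h1 : Measurable fun r : (UnitAddCircle × E n) × sphere (0 : E n) 1 =>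
      Complex.exp (-(2 * Real.pi * ⟪(r.2 : E n), r.1.2⟫ : ℝ) * I) := by
    have hc : Continuous fun r : (UnitAddCircle × E n) × sphere (0 : E n) 1 =>
      Complex.exp (-(2 * Real.pi * ⟪(r.2 : E n), r.1.2⟫ : ℝ) * I) := by fun_prop
    exact hc.measurable
  have h2 : Measurable fun r : (UnitAddCircle × E n) × sphere (0 : E n) 1 => (r.1.1, r.2) := by
    fun_prop
  have h3 := h1.mul (hG.comp h2)
  have h4 := h3.stronglyMeasurable.integral_prod_right' (ν := sig n)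
  exact h4.measurable

theorem up (f : E n → ℂ) (K : ℝ≥0∞) (hK : ∀ ξ, ‖f ξ‖ₑ ≤ K) (hKt : K ≠ ⊤) (p q : ℝ) (hp : 0 ≤ p)
    (hpq : p ≤ q) : ∫⁻ ξ, ‖f ξ‖ₑ ^ q ≤ K ^ (q - p) * ∫⁻ ξ, ‖f ξ‖ₑ ^ p := by
  rw [← lintegral_const_mul' _ _ (ENNReal.rpow_ne_top_of_nonneg (by linarith) hKt)]
  refine lintegral_mono fun ξ => ?_
  have e : q = (q - p) + p := by ring
  calc ‖f ξ‖ₑ ^ q = ‖f ξ‖ₑ ^ (q - p) * ‖f ξ‖ₑ ^ p := by
        conv_lhs => rw [e]
        rw [ENNReal.rpow_add_of_nonneg _ _ (by linarith) hp]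
    _ ≤ K ^ (q - p) * ‖f ξ‖ₑ ^ p := by
        gcongr
        exact hK ξ

/-- bounded families, all exponents -/
theorem all_q (n : ℕ) (hn : 3 ≤ n) (q : ℝ) (hq : 2 * (n : ℝ) / (n - 1) < q) :
    ∃ C : ℝ, 0 < C ∧ ∀ (s : ℕ) (G : UnitAddCircle → sphere (0 : E n) 1 → ℂ),
      Measurable (Function.uncurry G) → Wave s G → ∀ M : ℝ, 0 ≤ M →
      (∀ᵐ t ∂hm, ∀ᵐ x ∂(sig n), ‖G t x‖ ≤ M) →
      ∫⁻ t, (∫⁻ ξ, ‖sft (G t) ξ‖ₑ ^ q) ∂hm ≤ ENNReal.ofReal (C * M ^ q) := by
  have hn' : (3 : ℝ) ≤ n := by exact_mod_cast hn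
  have hlt4 : 2 * (n : ℝ) / (n - 1) < 4 := by
    rw [div_lt_iff₀ (by linarith)]
    linarith
  have hlt2 : 0 < 2 * (n : ℝ) / (n - 1) := by
    have : (0 : ℝ) < n - 1 := by linarith
    positivity
  obtain ⟨p, hp1, hp2⟩ := exists_between (lt_min hq hlt4)
  have hpq : p < q := lt_of_lt_of_le hp2 (min_le_left _ _)
  have hp4 : p < 4 := lt_of_lt_of_le hp2 (min_le_right _ _)
  have hp0 : 0 < p := by linarith
  obtain ⟨C, hC, h⟩ := core n hn p hp1 hp4
  set A := (sig n).real univ with hA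
  have hA0 : 0 ≤ A := measureReal_nonneg
  have hAe : sig n univ = ENNReal.ofReal A := by
    rw [hA, measureReal_def, ENNReal.ofReal_toReal (measure_ne_top _ _)]
  refine ⟨(A + 1) ^ (q - p) * (C * (A + 1) ^ (p / 4)), by positivity, ?_⟩
  intro s G hGm hW M hM hGM
  have h4 : ∫⁻ t, (∫⁻ x, ‖G t x‖ₑ ^ 4 ∂(sig n)) ∂hm ≤ ENNReal.ofReal (A * M ^ 4) := by
    have h5 : ∀ᵐ t ∂hm, ∫⁻ x, ‖G t x‖ₑ ^ 4 ∂(sig n) ≤ ENNReal.ofReal (A * M ^ 4) := by
      filter_upwards [hGM] with t ht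
      calc ∫⁻ x, ‖G t x‖ₑ ^ 4 ∂(sig n) ≤ ∫⁻ _x, ENNReal.ofReal (M ^ 4) ∂(sig n) := by
            refine lintegral_mono_ae ?_
            filter_upwards [ht] with x hx
            rw [← ofReal_norm, ← ENNReal.ofReal_pow (norm_nonneg _)]
            exact ENNReal.ofReal_le_ofReal (pow_le_pow_left₀ (norm_nonneg _) hx 4)
        _ = _ := by
            rw [lintegral_const, hAe, ← ENNReal.ofReal_mul (by positivity), mul_comm]
    refine (lintegral_mono_ae h5).trans (le_of_eq ?_)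
    rw [lintegral_const, measure_univ, mul_one]
  have h1 := h s G hGm hW _ ENNReal.ofReal_ne_top h4
  have hsup : ∀ᵐ t ∂hm, ∀ ξ, ‖sft (G t) ξ‖ₑ ≤ ENNReal.ofReal (A * M) := by
    filter_upwards [hGM] with t ht ξ
    refine (sft_le (G t) ξ).trans ?_
    calc ∫⁻ x, ‖G t x‖ₑ ∂(sig n) ≤ ∫⁻ _x, ENNReal.ofReal M ∂(sig n) := by
          refine lintegral_mono_ae ?_
          filter_upwards [ht] with x hx
          rw [← ofReal_norm]
          exact ENNReal.ofReal_le_ofReal hx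
      _ = _ := by
          rw [lintegral_const, hAe, ← ENNReal.ofReal_mul hM, mul_comm]
  calc ∫⁻ t, (∫⁻ ξ, ‖sft (G t) ξ‖ₑ ^ q) ∂hm
      ≤ ∫⁻ t, ENNReal.ofReal (A * M) ^ (q - p) * (∫⁻ ξ, ‖sft (G t) ξ‖ₑ ^ p) ∂hm := by
        refine lintegral_mono_ae ?_
        filter_upwards [hsup] with t ht
        exact up _ _ ht ENNReal.ofReal_ne_top p q hp0.le hpq.le
    _ = ENNReal.ofReal (A * M) ^ (q - p) * ∫⁻ t, (∫⁻ ξ, ‖sft (G t) ξ‖ₑ ^ p) ∂hm :=
        lintegral_const_mul' _ _ (ENNReal.rpow_ne_top_of_nonneg (by linarith)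
          ENNReal.ofReal_ne_top)
    _ ≤ ENNReal.ofReal (A * M) ^ (q - p) *
        (ENNReal.ofReal C * ENNReal.ofReal (A * M ^ 4) ^ (p / 4)) := by gcongr
    _ ≤ _ := by
        have hAM4 : 0 ≤ A * M ^ 4 := by positivity
        rw [ENNReal.ofReal_rpow_of_nonneg (by positivity) (by linarith),
          ENNReal.ofReal_rpow_of_nonneg hAM4 (by linarith), ← ENNReal.ofReal_mul hC.le,
          ← ENNReal.ofReal_mul (by positivity)]
        apply ENNReal.ofReal_le_ofReal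
        have e1 : M ^ q = M ^ (q - p) * M ^ p := by
          rw [← Real.rpow_add_of_nonneg hM (by linarith) (by linarith)]
          congr 1
          ring
        have e4 : (M ^ 4) ^ (p / 4) = M ^ p := by
          rw [← Real.rpow_natCast, ← Real.rpow_mul hM]
          congr 1
          push_cast
          ring
        rw [Real.mul_rpow hA0 hM, Real.mul_rpow hA0 (by positivity), e4, e1]
        have e2 : A ^ (q - p) ≤ (A + 1) ^ (q - p) :=
          Real.rpow_le_rpow hA0 (by linarith) (by linarith)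
        have e3 : A ^ (p / 4) ≤ (A + 1) ^ (p / 4) :=
          Real.rpow_le_rpow hA0 (by linarith) (by linarith)
        have e5 : 0 ≤ M ^ (q - p) := Real.rpow_nonneg hM _
        have e6 : 0 ≤ M ^ p := Real.rpow_nonneg hM _
        calc A ^ (q - p) * M ^ (q - p) * (C * (A ^ (p / 4) * M ^ p))
            ≤ (A + 1) ^ (q - p) * M ^ (q - p) * (C * ((A + 1) ^ (p / 4) * M ^ p)) := by gcongr
          _ = _ := by ring

/-- almost every density of a family in `L^4`, all exponents -/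
theorem ae_all (n : ℕ) (hn : 3 ≤ n) (s : ℕ) (G : UnitAddCircle → sphere (0 : E n) 1 → ℂ)
    (hGm : Measurable (Function.uncurry G)) (hW : Wave s G)
    (hG4 : ∫⁻ t, (∫⁻ x, ‖G t x‖ₑ ^ 4 ∂(sig n)) ∂hm < ⊤) :
    ∀ᵐ t ∂hm, ∀ q : ℝ, 2 * (n : ℝ) / (n - 1) < q → MemLp (sft (G t)) (ENNReal.ofReal q) := by
  have hn' : (3 : ℝ) ≤ n := by exact_mod_cast hn
  set e := 2 * (n : ℝ) / (n - 1) with he
  have hlt4 : e < 4 := by
    rw [he, div_lt_iff₀ (by linarith)]
    linarith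
  have hlt2 : 0 < e := by
    have : (0 : ℝ) < n - 1 := by linarith
    positivity
  have hjm := sft_joint G hGm
  have hall : ∀ j : ℕ, ∀ᵐ t ∂hm, ∫⁻ ξ, ‖sft (G t) ξ‖ₑ ^ (e + (4 - e) / (j + 2)) < ⊤ := by
    intro j
    have hj : (0 : ℝ) < (j : ℝ) + 2 := by positivity
    have h1 : e < e + (4 - e) / (j + 2) := by
      have : 0 < (4 - e) / ((j : ℝ) + 2) := div_pos (by linarith) hj
      linarith
    have h2 : e + (4 - e) / (j + 2) < 4 := by
      have : (4 - e) / ((j : ℝ) + 2) < 4 - e := by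
        rw [div_lt_iff₀ hj]
        nlinarith [Nat.cast_nonneg (α := ℝ) j]
      linarith
    obtain ⟨C, hC, h⟩ := core n hn _ h1 h2
    have h3 := h s G hGm hW _ hG4.ne le_rfl
    refine ae_lt_top ?_ ?_
    · exact (hjm.enorm.pow_const _).lintegral_prod_right' (ν := (volume : Measure (E n)))
    · refine ne_top_of_le_ne_top ?_ h3
      exact ENNReal.mul_ne_top ENNReal.ofReal_ne_top
        (ENNReal.rpow_ne_top_of_nonneg (by linarith) hG4.ne)
  have hall' := ae_all_iff.2 hall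
  have ht4 : ∀ᵐ t ∂hm, ∫⁻ x, ‖G t x‖ₑ ^ 4 ∂(sig n) < ⊤ := by
    refine ae_lt_top ?_ hG4.ne
    exact (hGm.enorm.pow_const 4).lintegral_prod_right' (ν := sig n)
  filter_upwards [hall', ht4] with t h1 h2 q hq
  have hGt : Measurable (G t) := hGm.comp measurable_prodMk_left
  have hGi := int_of_four (sig n) (G t) hGt.aestronglyMeasurable h2
  have hq0 : 0 < q := by linarith
  have hm1 := hjm.comp (measurable_prodMk_left (x := t))
  have hm2 : Measurable (sft (G t)) := hm1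
  refine ⟨hm2.aestronglyMeasurable, ?_⟩
  rw [eLpNorm_lt_top_iff_lintegral_rpow_enorm_lt_top
    (by rw [Ne, ENNReal.ofReal_eq_zero, not_le]; exact hq0) ENNReal.ofReal_ne_top,
    ENNReal.toReal_ofReal hq0.le]
  have hδ : 0 < q - e := by linarith
  obtain ⟨j, hj⟩ := exists_nat_gt ((4 - e) / (q - e))
  have hj2 : (0 : ℝ) < (j : ℝ) + 2 := by positivity
  have hpq : e + (4 - e) / (j + 2) ≤ q := by
    have h5 : (4 - e) / ((j : ℝ) + 2) ≤ q - e := by
      rw [div_le_iff₀ hj2]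
      rw [div_lt_iff₀ hδ] at hj
      nlinarith
    linarith
  have hp0 : 0 ≤ e + (4 - e) / (j + 2) := by
    have : 0 < (4 - e) / ((j : ℝ) + 2) := div_pos (by linarith) hj2
    linarith
  have hK : ∫⁻ x, ‖G t x‖ₑ ∂(sig n) ≠ ⊤ := hGi.2.ne
  refine lt_of_le_of_lt (up (sft (G t)) _ (sft_le (G t)) hK _ q hp0 hpq) ?_
  exact ENNReal.mul_lt_top (lt_top_iff_ne_top.2 (ENNReal.rpow_ne_top_of_nonneg (by linarith) hK))
    (h1 j)

end Pool.Agent.Helper969.HW
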