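import Mathlib
import Pool.Agent.Helper969.HW.F8
set_option autoImplicit false

/-! Holomorphic polynomials are harmonic. -/

namespace Pool.Agent.Helper969.HW

open MeasureTheory Measure Set Metric Complex MvPolynomial Filter
open Pool.Agent.H789R2.FR (E)
open scoped RealInnerProductSpace ENNReal ComplexConjugate Topology

variable {n m : ℕ}

/-- the complex coordinates -/
noncomputable def Zc (u v : Fin m → E n) (x : E n) : EuclideanSpace ℂ (Fin m) :=
  WithLp.toLp 2 fun j => ((⟪u j, x⟫ : ℝ) : ℂ) + ((⟪v j, x⟫ : ℝ) : ℂ) * I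

/-- the complex coordinates as polynomials -/
noncomputable def zeta (u v : Fin m → E n) (j : Fin m) : MvPolynomial (Fin n) ℂ :=
  lin (u j) + C I * lin (v j)

theorem ev_zeta (u v : Fin m → E n) (j : Fin m) (x : E n) : ev (zeta u v j) x = Zc u v x j := by
  unfold zeta Zc
  rw [ev_add, ev_mul, ev_C, ev_lin, ev_lin]
  simp only [PiLp.toLp_apply]
  ring

theorem zeta_hom (u v : Fin m → E n) (j : Fin m) : (zeta u v j).IsHomogeneous 1 := by
  unfold zeta
  refine (lin_hom _).add ?_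
  have := (isHomogeneous_C (Fin n) I).mul (lin_hom (v j))
  rwa [zero_add] at this

theorem pd_zeta (u v : Fin m → E n) (j : Fin m) (i : Fin n) :
    pderiv i (zeta u v j) = C (((u j i : ℝ) : ℂ) + I * ((v j i : ℝ) : ℂ)) := by
  unfold zeta
  rw [map_add, pderiv_lin, pderiv_C_mul, pderiv_lin, map_add, map_mul]

/-- isotropy -/
theorem iso (u v : Fin m → E n) (h : Orthonormal ℝ (Sum.elim u v)) (j l : Fin m) :
    ∑ i, (((u j i : ℝ) : ℂ) + I * ((v j i : ℝ) : ℂ)) *
      (((u l i : ℝ) : ℂ) + I * ((v l i : ℝ) : ℂ)) = 0 := by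
  have key : ∀ a b : E n, ∑ i, ((a i : ℝ) : ℂ) * ((b i : ℝ) : ℂ) = ((⟪a, b⟫ : ℝ) : ℂ) := by
    intro a b
    rw [PiLp.inner_apply]
    push_cast
    refine Finset.sum_congr rfl fun i _ => ?_
    simp [mul_comm]
  have h1 := orthonormal_iff_ite.1 h
  have huu : (⟪u j, u l⟫ : ℝ) = if j = l then 1 else 0 := by
    have := h1 (Sum.inl j) (Sum.inl l)
    simpa using this
  have hvv : (⟪v j, v l⟫ : ℝ) = if j = l then 1 else 0 := by
    have := h1 (Sum.inr j) (Sum.inr l)
    simpa using this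
  have huv : (⟪u j, v l⟫ : ℝ) = 0 := by
    have := h1 (Sum.inl j) (Sum.inr l)
    simpa using this
  have hvu : (⟪v j, u l⟫ : ℝ) = 0 := by
    have := h1 (Sum.inr j) (Sum.inl l)
    simpa using this
  have h2 : ∑ i, (((u j i : ℝ) : ℂ) + I * ((v j i : ℝ) : ℂ)) *
      (((u l i : ℝ) : ℂ) + I * ((v l i : ℝ) : ℂ)) =
      ∑ i, ((u j i : ℝ) : ℂ) * ((u l i : ℝ) : ℂ) + I * ∑ i, ((u j i : ℝ) : ℂ) * ((v l i : ℝ) : ℂ) +
      I * ∑ i, ((v j i : ℝ) : ℂ) * ((u l i : ℝ) : ℂ) -
      ∑ i, ((v j i : ℝ) : ℂ) * ((v l i : ℝ) : ℂ) := by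
    rw [Finset.mul_sum, Finset.mul_sum, ← Finset.sum_add_distrib, ← Finset.sum_add_distrib,
      ← Finset.sum_sub_distrib]
    refine Finset.sum_congr rfl fun i _ => ?_
    linear_combination (((v j i : ℝ) : ℂ) * ((v l i : ℝ) : ℂ)) * Complex.I_mul_I
  rw [h2, key, key, key, key, huu, hvv, huv, hvu]
  simp

/-- orthogonality to the gradients of the coordinates, and harmonicity -/
def Gd (u v : Fin m → E n) (Q : MvPolynomial (Fin n) ℂ) : Prop :=
  (∀ j, ∑ i, C (((u j i : ℝ) : ℂ) + I * ((v j i : ℝ) : ℂ)) * pderiv i Q = 0) ∧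
    ∑ i, pderiv i (pderiv i Q) = 0

theorem Gd.one (u v : Fin m → E n) : Gd u v (1 : MvPolynomial (Fin n) ℂ) := by
  constructor
  · intro j
    simp
  · simp

theorem Gd.mul (u v : Fin m → E n) (h : Orthonormal ℝ (Sum.elim u v))
    {Q : MvPolynomial (Fin n) ℂ} (hQ : Gd u v Q) (j : Fin m) : Gd u v (zeta u v j * Q) := by
  constructor
  · intro l
    have h1 : ∀ i, C (((u l i : ℝ) : ℂ) + I * ((v l i : ℝ) : ℂ)) * pderiv i (zeta u v j * Q) =
        Q * C ((((u l i : ℝ) : ℂ) + I * ((v l i : ℝ) : ℂ)) *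
          (((u j i : ℝ) : ℂ) + I * ((v j i : ℝ) : ℂ))) +
        zeta u v j * (C (((u l i : ℝ) : ℂ) + I * ((v l i : ℝ) : ℂ)) * pderiv i Q) := by
      intro i
      rw [Derivation.leibniz, pd_zeta, smul_eq_mul, smul_eq_mul, C_mul]
      ring
    simp_rw [h1]
    rw [Finset.sum_add_distrib, ← Finset.mul_sum, ← Finset.mul_sum, hQ.1 l, ← _root_.map_sum,
      iso u v h l j]
    simp
  · have h1 : ∀ i, pderiv i (pderiv i (zeta u v j * Q)) =
        zeta u v j * pderiv i (pderiv i Q) +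
        2 * (C (((u j i : ℝ) : ℂ) + I * ((v j i : ℝ) : ℂ)) * pderiv i Q) := by
      intro i
      rw [Derivation.leibniz, pd_zeta, smul_eq_mul, smul_eq_mul, map_add, Derivation.leibniz,
        Derivation.leibniz, pd_zeta, pderiv_C]
      simp only [smul_eq_mul]
      ring
    simp_rw [h1]
    rw [Finset.sum_add_distrib, ← Finset.mul_sum, ← Finset.mul_sum, hQ.1 j, hQ.2]
    simp

theorem prod_gd (u v : Fin m → E n) (h : Orthonormal ℝ (Sum.elim u v)) {k : ℕ} (r : Fin k → Fin m) :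
    Gd u v (∏ i, zeta u v (r i)) := by
  induction k with
  | zero =>
    simp only [Finset.univ_eq_empty, Finset.prod_empty]
    exact Gd.one u v
  | succ k ih =>
    rw [Fin.prod_univ_succ]
    exact Gd.mul u v h (ih fun i => r i.succ) _

theorem prod_harm (u v : Fin m → E n) (h : Orthonormal ℝ (Sum.elim u v)) {k : ℕ}
    (r : Fin k → Fin m) : Harm k (∏ i, zeta u v (r i)) := by
  constructor
  · have h1 := IsHomogeneous.prod Finset.univ (fun i => zeta u v (r i)) (fun _ => 1)
      (fun i _ => zeta_hom u v (r i))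
    simpa using h1
  · exact (prod_gd u v h r).2

theorem Harm.add {k : ℕ} {P Q : MvPolynomial (Fin n) ℂ} (hP : Harm k P) (hQ : Harm k Q) :
    Harm k (P + Q) := by
  constructor
  · exact hP.1.add hQ.1
  · simp only [map_add]
    rw [Finset.sum_add_distrib, hP.2, hQ.2, add_zero]

theorem Harm.sum {k : ℕ} {ι : Type*} (s : Finset ι) (P : ι → MvPolynomial (Fin n) ℂ)
    (hP : ∀ i ∈ s, Harm k (P i)) : Harm k (∑ i ∈ s, P i) := by
  classical
  induction s using Finset.induction_on with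
  | empty =>
    simp only [Finset.sum_empty]
    exact Harm.zero k
  | insert a s ha ih =>
    rw [Finset.sum_insert ha]
    exact (hP a (Finset.mem_insert_self a s)).add (ih fun i hi => hP i (Finset.mem_insert_of_mem hi))

/-- complex conjugation -/
noncomputable def cj (P : MvPolynomial (Fin n) ℂ) : MvPolynomial (Fin n) ℂ :=
  MvPolynomial.map (starRingEnd ℂ) P

theorem ev_cj (P : MvPolynomial (Fin n) ℂ) (x : E n) : ev (cj P) x = conj (ev P x) := by
  unfold cj ev
  rw [MvPolynomial.eval_map]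
  induction P using MvPolynomial.induction_on with
  | C a => simp
  | add p q hp hq => rw [eval₂_add, hp, hq, map_add, map_add]
  | mul_X p i hp =>
    rw [eval₂_mul, hp, eval₂_X, map_mul, map_mul, eval_X, Complex.conj_ofReal]

theorem Harm.cj {k : ℕ} {P : MvPolynomial (Fin n) ℂ} (hP : Harm k P) : Harm k (cj P) := by
  unfold HW.cj
  constructor
  · exact hP.1.map _
  · have h1 : ∀ i, pderiv i (pderiv i (MvPolynomial.map (starRingEnd ℂ) P)) =
        MvPolynomial.map (starRingEnd ℂ) (pderiv i (pderiv i P)) := by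
      intro i
      rw [pderiv_map, pderiv_map]
    simp_rw [h1]
    rw [← _root_.map_sum, hP.2, map_zero]

/-- a homogeneous holomorphic polynomial -/
noncomputable def hpoly (u v : Fin m → E n) {k : ℕ}
    (q : ContinuousMultilinearMap ℂ (fun _ : Fin k => EuclideanSpace ℂ (Fin m)) ℂ) :
    MvPolynomial (Fin n) ℂ :=
  ∑ r : Fin k → Fin m, C (q fun i => EuclideanSpace.single (r i) (1 : ℂ)) * ∏ i, zeta u v (r i)

theorem hpoly_harm (u v : Fin m → E n) (h : Orthonormal ℝ (Sum.elim u v)) {k : ℕ}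
    (q : ContinuousMultilinearMap ℂ (fun _ : Fin k => EuclideanSpace ℂ (Fin m)) ℂ) :
    Harm k (hpoly u v q) :=
  Harm.sum _ _ fun r _ => (prod_harm u v h r).smul _

theorem ev_hpoly (u v : Fin m → E n) {k : ℕ}
    (q : ContinuousMultilinearMap ℂ (fun _ : Fin k => EuclideanSpace ℂ (Fin m)) ℂ) (x : E n) :
    ev (hpoly u v q) x = q fun _ => Zc u v x := by
  unfold hpoly
  rw [ev_sum]
  have h1 : (fun _ : Fin k => Zc u v x) = fun _ : Fin k =>
      ∑ j, (Zc u v x j) • EuclideanSpace.single j (1 : ℂ) := by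
    funext _
    conv_lhs => rw [← (EuclideanSpace.basisFun (Fin m) ℂ).sum_repr (Zc u v x)]
    simp
  rw [h1, ContinuousMultilinearMap.map_sum]
  refine Finset.sum_congr rfl fun r _ => ?_
  rw [ContinuousMultilinearMap.map_smul_univ, smul_eq_mul, ev_mul, ev_C, mul_comm]
  congr 1
  have h2 : ev (∏ i, zeta u v (r i)) x = ∏ i, ev (zeta u v (r i)) x := by
    unfold ev
    rw [_root_.map_prod]
  rw [h2]
  refine Finset.prod_congr rfl fun i _ => ?_
  rw [ev_zeta]

end Pool.Agent.Helper969.HW
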