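import Mathlib
import Pool.Agent.Helper969.HW.G1
set_option autoImplicit false

/-! Taylor expansions along circles and their Fourier coefficients. -/

namespace Pool.Agent.Helper969.HW

open MeasureTheory Measure Set Metric Complex Filter
open Pool.Agent.H789R2.FR (E)
open scoped RealInnerProductSpace ENNReal NNReal ComplexConjugate Topology

variable {n m : ℕ}

theorem taylor (F : EuclideanSpace ℂ (Fin m) → ℂ) (hF : AnalyticOnNhd ℂ F (ball 0 1)) :
    ∃ q : (k : ℕ) → ContinuousMultilinearMap ℂ (fun _ : Fin k => EuclideanSpace ℂ (Fin m)) ℂ,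
      ∀ z ∈ ball (0 : EuclideanSpace ℂ (Fin m)) 1, (Summable fun k => ‖q k fun _ => z‖) ∧
        ∀ l : ℂ, ‖l‖ ≤ 1 → HasSum (fun k => (q k fun _ => z) * l ^ k) (F (l • z)) := by
  obtain ⟨p, hp⟩ := hF 0 (mem_ball_self one_pos)
  refine ⟨fun k => p k, ?_⟩
  intro z hz
  rw [mem_ball_zero_iff] at hz
  set L : ℂ →L[ℂ] EuclideanSpace ℂ (Fin m) := ContinuousLinearMap.toSpanSingleton ℂ z with hL
  have hLz : ∀ l, L l = l • z := fun l => by simp [hL]
  have h1 : HasFPowerSeriesAt F p (L 0) := by
    rw [map_zero]
    exact hp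
  have h2 : HasFPowerSeriesAt (F ∘ L) (p.compContinuousLinearMap L) 0 :=
    h1.compContinuousLinearMap
  -- a radius larger than one
  obtain ⟨R, hR1, hR2⟩ : ∃ R : ℝ, 1 < R ∧ R * ‖z‖ < 1 := by
    rcases eq_or_lt_of_le (norm_nonneg z) with h0 | h0
    · exact ⟨2, by norm_num, by rw [← h0]; norm_num⟩
    · refine ⟨(1 + 1 / ‖z‖) / 2, ?_, ?_⟩
      · have : 1 < 1 / ‖z‖ := by rw [lt_div_iff₀ h0]; linarith
        linarith
      · have h3 : (1 + 1 / ‖z‖) / 2 * ‖z‖ = (‖z‖ + 1) / 2 := by
          field_simp
        rw [h3]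
        linarith
  have hR0 : 0 < R := by linarith
  set R' : ℝ≥0 := ⟨R, hR0.le⟩ with hR'
  have hd : DifferentiableOn ℂ (F ∘ L) (closedBall 0 R') := by
    intro l hl
    have hl' : ‖l‖ ≤ R := by
      have := mem_closedBall_zero_iff.1 hl
      exact this
    have h4 : L l ∈ ball (0 : EuclideanSpace ℂ (Fin m)) 1 := by
      rw [mem_ball_zero_iff, hLz, norm_smul]
      calc ‖l‖ * ‖z‖ ≤ R * ‖z‖ := by gcongr
        _ < 1 := hR2
    exact ((hF _ h4).differentiableAt.comp l L.differentiableAt).differentiableWithinAt
  have h5 := hd.hasFPowerSeriesOnBall (by exact_mod_cast hR0 : 0 < R')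
  have h6 := h5.hasFPowerSeriesAt.eq_formalMultilinearSeries h2
  rw [h6] at h5
  have hco : ∀ k, (p.compContinuousLinearMap L k fun _ => (1 : ℂ)) = p k fun _ => z := by
    intro k
    rw [FormalMultilinearSeries.compContinuousLinearMap_apply]
    congr 1
    funext i
    simp [Function.comp, hLz]
  have hpow : ∀ k (l : ℂ), (p.compContinuousLinearMap L k fun _ => l) = (p k fun _ => z) * l ^ k := by
    intro k l
    rw [FormalMultilinearSeries.apply_eq_pow_smul_coeff]
    rw [smul_eq_mul, mul_comm]
    congr 1
    rw [← hco k]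
    rfl
  constructor
  · have h7 : ((1 : ℝ≥0) : ℝ≥0∞) < (p.compContinuousLinearMap L).radius := by
      refine lt_of_lt_of_le ?_ h5.r_le
      have : (1 : ℝ≥0) < R' := by exact_mod_cast hR1
      exact_mod_cast this
    have h8 := (p.compContinuousLinearMap L).summable_norm_mul_pow h7
    refine Summable.of_nonneg_of_le (fun k => norm_nonneg _) (fun k => ?_) h8
    simp only [NNReal.coe_one, one_pow, mul_one]
    rw [← hco k]
    refine ((p.compContinuousLinearMap L k).le_opNorm _).trans (le_of_eq ?_)
    simp
  · intro l hl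
    have h9 : l ∈ eball (0 : ℂ) R' := by
      rw [mem_eball, edist_zero_right, ← ofReal_norm, ← ENNReal.ofReal_coe_nnreal]
      have h10 : ((R' : ℝ≥0) : ℝ) = R := rfl
      rw [h10]
      exact (ENNReal.ofReal_lt_ofReal_iff hR0).2 (by linarith)
    have h11 := h5.hasSum h9
    rw [zero_add] at h11
    simp only [Function.comp, hLz] at h11
    refine h11.congr_fun ?_ |> fun h => h
    intro k
    rw [hpow]

/-- Fourier coefficients of an absolutely convergent series of characters -/
theorem coeff_series (c : ℕ → ℂ) (σ : ℕ → ℤ) (hσ : Function.Injective σ)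
    (hc : Summable fun k => ‖c k‖) (f : UnitAddCircle → ℂ)
    (hf : ∀ t, HasSum (fun k => c k * fourier (σ k) t) (f t)) :
    Integrable f hm ∧ (∀ k, fourierCoeff f (σ k) = c k) ∧
      ∀ j, (∀ k, σ k ≠ j) → fourierCoeff f j = 0 := by
  have hfc : Continuous f := by
    have h1 : f = fun t => ∑' k, c k * fourier (σ k) t := by
      funext t
      exact (hf t).tsum_eq.symm
    rw [h1]
    refine continuous_tsum (fun k => by fun_prop) hc fun k t => ?_
    rw [norm_mul, fourier_apply, Circle.norm_coe, mul_one]
  have hfi : Integrable f hm := by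
    obtain ⟨C, hC⟩ := isCompact_univ.exists_bound_of_continuousOn hfc.continuousOn
    exact Integrable.of_bound hfc.aestronglyMeasurable C (Eventually.of_forall fun t => hC t (mem_univ _))
  have key : ∀ j, HasSum (fun k => c k * if σ k = j then 1 else 0) (fourierCoeff f j) := by
    intro j
    set g : ℕ → UnitAddCircle → ℂ := fun k t => c k * (fourier (σ k - j) t : ℂ) with hg
    have hgn : ∀ k t, ‖g k t‖ = ‖c k‖ := by
      intro k t
      rw [hg]
      simp only
      rw [norm_mul, fourier_apply, Circle.norm_coe, mul_one]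
    have hgi : ∀ k, Integrable (g k) hm := by
      intro k
      refine Integrable.of_bound ?_ ‖c k‖ (Eventually.of_forall fun t => (hgn k t).le)
      exact (continuous_const.mul (fourier (σ k - j)).continuous).aestronglyMeasurable
    have hgs : Summable fun k => ∫ t, ‖g k t‖ ∂hm := by
      simp_rw [hgn]
      simpa using hc
    have h1 := hasSum_integral_of_summable_integral_norm hgi hgs
    have h2 : ∫ t, (∑' k, g k t) ∂hm = fourierCoeff f j := by
      unfold fourierCoeff
      refine integral_congr_ae (Eventually.of_forall fun t => ?_)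
      simp only
      rw [← (hf t).tsum_eq, smul_eq_mul, ← tsum_mul_left]
      refine tsum_congr fun k => ?_
      rw [hg]
      simp only
      rw [sub_eq_add_neg, fourier_add]
      ring
    rw [h2] at h1
    refine h1.congr_fun ?_ |> fun h => h
    intro k
    rw [hg]
    simp only
    rw [integral_const_mul]
    congr 1
    have h3 := Pool.Agent.H390R2.integral_fourier (σ k - j)
    rw [show (∫ x, (fourier (σ k - j) x : ℂ) ∂hm) = _ from h3]
    simp only [sub_eq_zero]
  refine ⟨hfi, fun k => ?_, fun j hj => ?_⟩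
  · refine (key (σ k)).unique ?_
    have h1 := hasSum_single (f := fun i => c i * if σ i = σ k then (1 : ℂ) else 0) k (by
      intro b hb
      rw [if_neg (fun h => hb (hσ h)), mul_zero])
    simpa using h1
  · refine (key j).unique ?_
    have : (fun k => c k * if σ k = j then (1 : ℂ) else 0) = fun _ => 0 := by
      funext k
      rw [if_neg (hj k), mul_zero]
    rw [this]
    exact hasSum_zero

end Pool.Agent.Helper969.HW
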