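import Mathlib
import Pool.Agent.Helper969.HW.G2
set_option autoImplicit false

/-! Rotations and the family attached to a pluriharmonic function of few complex coordinates. -/

namespace Pool.Agent.Helper969.HW

open MeasureTheory Measure Set Metric Complex Filter
open Pool.Agent.H789R2.FR (E sg sg_finite sg_ae sg_inv T)
open Pool.Agent.H789R2.FR.L2 (ph norm_ph continuous_ph T_eq)
open Pool.Agent.Y251.HR (sig sft sft_eq scale_int)
open scoped RealInnerProductSpace ENNReal NNReal ComplexConjugate Topology Pointwise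

variable {n m : ℕ}

theorem Zc_cont (u v : Fin m → E n) : Continuous (Zc u v) := by
  unfold Zc
  refine (PiLp.continuous_toLp 2 _).comp ?_
  fun_prop

theorem norm_Zc (u v : Fin m → E n) (x : E n) :
    ‖Zc u v x‖ ^ 2 = ∑ i : Fin m ⊕ Fin m, (⟪Sum.elim u v i, x⟫ : ℝ) ^ 2 := by
  rw [EuclideanSpace.norm_sq_eq, Fintype.sum_sum_type, ← Finset.sum_add_distrib]
  refine Finset.sum_congr rfl fun j _ => ?_
  unfold Zc
  simp only [Sum.elim_inl, Sum.elim_inr]
  rw [← Complex.normSq_eq_norm_sq, Complex.normSq_apply]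
  simp
  ring

/-- the coefficients of the rotation -/
noncomputable def rc (u v : Fin m → E n) (z : ℂ) (x : E n) : Fin m ⊕ Fin m → ℝ :=
  Sum.elim (fun j => (z.re - 1) * ⟪u j, x⟫ - z.im * ⟪v j, x⟫)
    (fun j => z.im * ⟪u j, x⟫ + (z.re - 1) * ⟪v j, x⟫)

noncomputable def rotL (u v : Fin m → E n) (z : ℂ) : E n →ₗ[ℝ] E n where
  toFun x := x + ∑ i, rc u v z x i • Sum.elim u v i
  map_add' x y := by
    have h : ∀ i, rc u v z (x + y) i = rc u v z x i + rc u v z y i := by
      intro i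
      unfold rc
      rcases i with j | j
      · simp only [Sum.elim_inl, inner_add_right]
        ring
      · simp only [Sum.elim_inr, inner_add_right]
        ring
    simp_rw [h, add_smul]
    rw [Finset.sum_add_distrib]
    abel
  map_smul' r x := by
    have h : ∀ i, rc u v z (r • x) i = r * rc u v z x i := by
      intro i
      unfold rc
      rcases i with j | j
      · simp only [Sum.elim_inl, real_inner_smul_right]
        ring
      · simp only [Sum.elim_inr, real_inner_smul_right]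
        ring
    simp_rw [h, mul_smul]
    rw [← Finset.smul_sum, ← smul_add, RingHom.id_apply]

theorem rotL_apply (u v : Fin m → E n) (z : ℂ) (x : E n) :
    rotL u v z x = x + ∑ i, rc u v z x i • Sum.elim u v i := rfl

theorem rotL_norm (u v : Fin m → E n) (h : Orthonormal ℝ (Sum.elim u v)) (z : ℂ) (hz : ‖z‖ = 1)
    (x : E n) : ‖rotL u v z x‖ = ‖x‖ := by
  rw [← sq_eq_sq₀ (norm_nonneg _) (norm_nonneg _), rotL_apply, norm_add_sq_real]
  have h1 : ‖∑ i, rc u v z x i • Sum.elim u v i‖ ^ 2 = ∑ i, rc u v z x i ^ 2 := by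
    rw [← real_inner_self_eq_norm_sq, h.inner_sum]
    simp only [conj_trivial]
    refine Finset.sum_congr rfl fun i _ => ?_
    ring
  have h2 : (⟪x, ∑ i, rc u v z x i • Sum.elim u v i⟫ : ℝ) =
      ∑ i, rc u v z x i * ⟪Sum.elim u v i, x⟫ := by
    rw [inner_sum]
    refine Finset.sum_congr rfl fun i _ => ?_
    rw [real_inner_smul_right, real_inner_comm]
  rw [h1, h2, Fintype.sum_sum_type, Fintype.sum_sum_type]
  simp only [rc, Sum.elim_inl, Sum.elim_inr]
  have hz2 : z.re ^ 2 + z.im ^ 2 = 1 := by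
    have := Complex.normSq_eq_norm_sq z
    rw [hz, Complex.normSq_apply] at this
    nlinarith
  have h3 : 2 * ((∑ j, ((z.re - 1) * ⟪u j, x⟫ - z.im * ⟪v j, x⟫) * ⟪u j, x⟫) +
      ∑ j, (z.im * ⟪u j, x⟫ + (z.re - 1) * ⟪v j, x⟫) * ⟪v j, x⟫) +
      ((∑ j, ((z.re - 1) * ⟪u j, x⟫ - z.im * ⟪v j, x⟫) ^ 2) +
      ∑ j, (z.im * ⟪u j, x⟫ + (z.re - 1) * ⟪v j, x⟫) ^ 2) = 0 := by
    rw [← Finset.sum_add_distrib, ← Finset.sum_add_distrib, Finset.mul_sum,
      ← Finset.sum_add_distrib]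
    refine Finset.sum_eq_zero fun j _ => ?_
    linear_combination ((⟪u j, x⟫ : ℝ) ^ 2 + (⟪v j, x⟫ : ℝ) ^ 2) * hz2
  linarith

noncomputable def rotI (u v : Fin m → E n) (h : Orthonormal ℝ (Sum.elim u v)) (z : ℂ)
    (hz : ‖z‖ = 1) : E n ≃ₗᵢ[ℝ] E n :=
  LinearIsometry.toLinearIsometryEquiv ⟨rotL u v z, rotL_norm u v h z hz⟩ rfl

theorem rotI_apply (u v : Fin m → E n) (h : Orthonormal ℝ (Sum.elim u v)) (z : ℂ)
    (hz : ‖z‖ = 1) (x : E n) : rotI u v h z hz x = rotL u v z x := rfl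

theorem Zc_rot (u v : Fin m → E n) (h : Orthonormal ℝ (Sum.elim u v)) (z : ℂ)
    (hz : ‖z‖ = 1) (x : E n) : Zc u v (rotI u v h z hz x) = z • Zc u v x := by
  have h1 : ∀ i, (⟪Sum.elim u v i, rotL u v z x⟫ : ℝ) = ⟪Sum.elim u v i, x⟫ + rc u v z x i := by
    intro i
    rw [rotL_apply, inner_add_right, h.inner_right_fintype]
  ext j
  have hu : (⟪u j, rotL u v z x⟫ : ℝ) = ⟪u j, x⟫ + ((z.re - 1) * ⟪u j, x⟫ - z.im * ⟪v j, x⟫) :=
    h1 (Sum.inl j)
  have hv : (⟪v j, rotL u v z x⟫ : ℝ) = ⟪v j, x⟫ + (z.im * ⟪u j, x⟫ + (z.re - 1) * ⟪v j, x⟫) :=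
    h1 (Sum.inr j)
  rw [rotI_apply, PiLp.smul_apply]
  unfold Zc
  simp only
  rw [hu, hv, smul_eq_mul]
  apply Complex.ext
  · simp
    ring
  · simp
    ring

/-- almost every point of the sphere is projected into the open ball -/
theorem Zc_lt (u v : Fin m → E n) (h : Orthonormal ℝ (Sum.elim u v)) (hmn : 2 * m < n) :
    ∀ᵐ x : sphere (0 : E n) 1 ∂(sig n), ‖Zc u v (x : E n)‖ < 1 := by
  set V : Submodule ℝ (E n) := Submodule.span ℝ (Set.range (Sum.elim u v)) with hV
  have hVtop : V ≠ ⊤ := by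
    intro hcon
    have h1 : Module.finrank ℝ V = n := by
      rw [hcon, finrank_top, finrank_euclideanSpace_fin]
    have h2 : Module.finrank ℝ V = Fintype.card (Fin m ⊕ Fin m) :=
      finrank_span_eq_card h.linearIndependent
    rw [h1, Fintype.card_sum, Fintype.card_fin] at h2
    omega
  have hV0 : (volume : Measure (E n)) V = 0 := Measure.addHaar_submodule _ V hVtop
  have hs : sig n {x : sphere (0 : E n) 1 | (x : E n) ∈ V} = 0 := by
    have hms : MeasurableSet {x : sphere (0 : E n) 1 | (x : E n) ∈ V} :=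
      measurable_subtype_coe (Submodule.closed_of_finiteDimensional V).measurableSet
    unfold sig
    rw [Measure.toSphere_apply' _ hms]
    have h3 : (volume : Measure (E n))
        (Ioo (0 : ℝ) 1 • ((fun x : sphere (0 : E n) 1 => (x : E n)) ''
          {x : sphere (0 : E n) 1 | (x : E n) ∈ V})) = 0 := by
      refine measure_mono_null ?_ hV0
      rintro _ ⟨r, _, _, ⟨x, hx, rfl⟩, rfl⟩
      exact V.smul_mem r hx
    rw [h3, mul_zero]
  rw [ae_iff]
  refine measure_mono_null ?_ hs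
  intro x hx
  simp only [Set.mem_ofPred_eq, not_lt] at hx ⊢
  have hx1 : ‖(x : E n)‖ = 1 := by simp
  -- the residual of the projection
  set y : E n := (x : E n) - ∑ i, (⟪Sum.elim u v i, (x : E n)⟫ : ℝ) • Sum.elim u v i with hy
  have h1 : ‖∑ i, (⟪Sum.elim u v i, (x : E n)⟫ : ℝ) • Sum.elim u v i‖ ^ 2 =
      ∑ i, (⟪Sum.elim u v i, (x : E n)⟫ : ℝ) ^ 2 := by
    rw [← real_inner_self_eq_norm_sq, h.inner_sum]
    simp only [conj_trivial]
    refine Finset.sum_congr rfl fun i _ => ?_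
    ring
  have h2 : (⟪(x : E n), ∑ i, (⟪Sum.elim u v i, (x : E n)⟫ : ℝ) • Sum.elim u v i⟫ : ℝ) =
      ∑ i, (⟪Sum.elim u v i, (x : E n)⟫ : ℝ) ^ 2 := by
    rw [inner_sum]
    refine Finset.sum_congr rfl fun i _ => ?_
    rw [real_inner_smul_right, real_inner_comm]
    ring
  have h3 : ‖y‖ ^ 2 = 1 - ‖Zc u v (x : E n)‖ ^ 2 := by
    rw [hy, norm_sub_sq_real, h1, h2, norm_Zc, hx1]
    ring
  have h4 : ‖y‖ ^ 2 ≤ 0 := by
    rw [h3]
    nlinarith
  have h5 : y = 0 := by
    rw [← norm_eq_zero]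
    nlinarith [norm_nonneg y]
  rw [hy, sub_eq_zero] at h5
  rw [h5]
  refine Submodule.sum_mem _ fun i _ => ?_
  exact Submodule.smul_mem _ _ (Submodule.subset_span (mem_range_self i))

end Pool.Agent.Helper969.HW
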