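import Mathlib
import Pool.Agent.Helper969.HW.G3
set_option autoImplicit false

/-! Pluriharmonic functions of few complex coordinates. -/

namespace Pool.Agent.Helper969.HW

open MeasureTheory Measure Set Metric Complex Filter
open Pool.Agent.H789R2.FR (E sg sg_finite sg_ae sg_inv T)
open Pool.Agent.H789R2.FR.L2 (ph norm_ph continuous_ph T_eq measurable_T)
open Pool.Agent.Y251.HR (sig sft sft_eq scale_int)
open scoped RealInnerProductSpace ENNReal NNReal ComplexConjugate Topology

variable {n m : ℕ}

/-- Fourier coefficients along a circle of `F + conj H` -/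
theorem circle_coeff (F H : EuclideanSpace ℂ (Fin m) → ℂ)
    (q q' : (k : ℕ) → ContinuousMultilinearMap ℂ (fun _ : Fin k => EuclideanSpace ℂ (Fin m)) ℂ)
    (z : EuclideanSpace ℂ (Fin m))
    (hF : (Summable fun k => ‖q k fun _ => z‖) ∧
        ∀ l : ℂ, ‖l‖ ≤ 1 → HasSum (fun k => (q k fun _ => z) * l ^ k) (F (l • z)))
    (hH : (Summable fun k => ‖q' k fun _ => z‖) ∧
        ∀ l : ℂ, ‖l‖ ≤ 1 → HasSum (fun k => (q' k fun _ => z) * l ^ k) (H (l • z))) :
    (∀ k : ℕ, fourierCoeff (fun t => F (ee t • z) + conj (H (ee t • z))) k =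
      (q k fun _ => z) + if k = 0 then conj (q' 0 fun _ => z) else 0) ∧
    ∀ k : ℕ, fourierCoeff (fun t => F (ee t • z) + conj (H (ee t • z))) (-(k : ℤ)) =
      conj (q' k fun _ => z) + if k = 0 then (q 0 fun _ => z) else 0 := by
  obtain ⟨i1, a1, a2⟩ := coeff_series (fun k => q k fun _ => z) (fun k => (k : ℤ))
    (fun a b h => by simpa using h) hF.1 (fun t => F (ee t • z)) (fun t => by
      have h := hF.2 (ee t) (norm_ee t).le
      simp_rw [ee_pow] at h
      exact h)
  obtain ⟨i2, b1, b2⟩ := coeff_series (fun k => conj (q' k fun _ => z)) (fun k => -(k : ℤ))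
    (fun a b h => by simpa using h) (by simpa using hH.1)
    (fun t => conj (H (ee t • z))) (fun t => by
      have h := hH.2 (ee t) (norm_ee t).le
      have h1 := (Complex.hasSum_conj'.2 h)
      refine h1.congr_fun ?_ |> fun h => h
      intro k
      rw [map_mul, map_pow, ee_conj_pow])
  have hadd : ∀ j, fourierCoeff (fun t => F (ee t • z) + conj (H (ee t • z))) j =
      fourierCoeff (fun t => F (ee t • z)) j + fourierCoeff (fun t => conj (H (ee t • z))) j := by
    intro j
    unfold fourierCoeff
    rw [← integral_add]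
    · refine integral_congr_ae (Eventually.of_forall fun t => ?_)
      simp only [smul_eq_mul]
      ring
    · exact fourier_bdd_int _ i1 (-j)
    · exact fourier_bdd_int _ i2 (-j)
  constructor
  · intro k
    rw [hadd, a1 k]
    congr 1
    by_cases hk : k = 0
    · subst hk
      rw [if_pos rfl]
      have := b1 0
      simpa using this
    · rw [if_neg hk]
      refine b2 _ fun l hl => ?_
      omega
  · intro k
    rw [hadd, b1 k, add_comm]
    congr 1
    by_cases hk : k = 0
    · subst hk
      rw [if_pos rfl]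
      have := a1 0
      simpa using this
    · rw [if_neg hk]
      refine a2 _ fun l hl => ?_
      omega

/-- the family -/
noncomputable def fam (u v : Fin m → E n) (F H : EuclideanSpace ℂ (Fin m) → ℂ) (z : ℂ) (x : E n) : ℂ :=
  {x : E n | ‖Zc u v x‖ < 1}.indicator (fun x => F (z • Zc u v x) + conj (H (z • Zc u v x))) x

theorem fam_rot (u v : Fin m → E n) (h : Orthonormal ℝ (Sum.elim u v))
    (F H : EuclideanSpace ℂ (Fin m) → ℂ) (z : ℂ) (hz : ‖z‖ = 1) (x : E n) :
    fam u v F H z x = fam u v F H 1 (rotI u v h z hz x) := by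
  unfold fam
  have h1 : ‖Zc u v (rotI u v h z hz x)‖ = ‖Zc u v x‖ := by
    rw [Zc_rot u v h z hz, norm_smul, hz, one_mul]
  by_cases hx : ‖Zc u v x‖ < 1
  · rw [indicator_of_mem (show x ∈ {x : E n | ‖Zc u v x‖ < 1} from hx),
      indicator_of_mem (show rotI u v h z hz x ∈ {x : E n | ‖Zc u v x‖ < 1} by
        change ‖Zc u v (rotI u v h z hz x)‖ < 1
        rw [h1]
        exact hx), Zc_rot u v h z hz, one_smul]
  · rw [indicator_of_notMem (show x ∉ {x : E n | ‖Zc u v x‖ < 1} from hx),
      indicator_of_notMem (show rotI u v h z hz x ∉ {x : E n | ‖Zc u v x‖ < 1} by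
        change ¬ ‖Zc u v (rotI u v h z hz x)‖ < 1
        rw [h1]
        exact hx)]

theorem fam_meas1 (u v : Fin m → E n) (F H : EuclideanSpace ℂ (Fin m) → ℂ)
    (hF : ContinuousOn F (ball 0 1)) (hH : ContinuousOn H (ball 0 1)) :
    Measurable (fam u v F H 1) := by
  classical
  have hopen : IsOpen {x : E n | ‖Zc u v x‖ < 1} :=
    isOpen_lt (Zc_cont u v).norm continuous_const
  have hc : ContinuousOn (fun x => F ((1 : ℂ) • Zc u v x) + conj (H ((1 : ℂ) • Zc u v x)))
      {x : E n | ‖Zc u v x‖ < 1} := by
    simp only [one_smul]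
    have hmap : MapsTo (Zc u v) {x : E n | ‖Zc u v x‖ < 1} (ball 0 1) := by
      intro x hx
      rw [mem_ball_zero_iff]
      exact hx
    exact (hF.comp (Zc_cont u v).continuousOn hmap).add
      (Complex.continuous_conj.comp_continuousOn (hH.comp (Zc_cont u v).continuousOn hmap))
  have h4 : Measurable ({x : E n | ‖Zc u v x‖ < 1}.piecewise
      (fun x => F ((1 : ℂ) • Zc u v x) + conj (H ((1 : ℂ) • Zc u v x))) 0) :=
    hc.measurable_piecewise continuousOn_const hopen.measurableSet
  rwa [piecewise_eq_indicator] at h4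

theorem rotL_cont (u v : Fin m → E n) : Continuous fun p : ℂ × E n => rotL u v p.1 p.2 := by
  simp only [rotL_apply]
  refine continuous_snd.add ?_
  refine continuous_finsetSum _ fun i _ => ?_
  have hrc : Continuous fun p : ℂ × E n => rc u v p.1 p.2 i := by
    rcases i with j | j
    · simp only [rc, Sum.elim_inl]
      fun_prop
    · simp only [rc, Sum.elim_inr]
      fun_prop
  exact hrc.smul (continuous_const (y := Sum.elim u v i))

/-- the family on the circle is measurable -/
theorem fam_meas (u v : Fin m → E n) (h : Orthonormal ℝ (Sum.elim u v))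
    (F H : EuclideanSpace ℂ (Fin m) → ℂ)
    (hF : ContinuousOn F (ball 0 1)) (hH : ContinuousOn H (ball 0 1)) :
    Measurable (Function.uncurry fun (t : UnitAddCircle) (x : sphere (0 : E n) 1) =>
      fam u v F H (ee t) (x : E n)) := by
  have h1 : (Function.uncurry fun (t : UnitAddCircle) (x : sphere (0 : E n) 1) =>
      fam u v F H (ee t) (x : E n)) = fun p => fam u v F H 1 (rotL u v (ee p.1) (p.2 : E n)) := by
    funext p
    simp only [Function.uncurry]
    rw [fam_rot u v h F H (ee p.1) (norm_ee _), rotI_apply]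
  rw [h1]
  have h2 : Continuous fun p : UnitAddCircle × sphere (0 : E n) 1 => (ee p.1, (p.2 : E n)) :=
    (ee_cont.comp continuous_fst).prodMk (continuous_subtype_val.comp continuous_snd)
  have h3 := (rotL_cont u v).comp h2
  have h4 := (fam_meas1 u v F H hF hH).comp h3.measurable
  exact h4

theorem fam_wave (hmn : 2 * m < n) (u v : Fin m → E n) (h : Orthonormal ℝ (Sum.elim u v))
    (F H : EuclideanSpace ℂ (Fin m) → ℂ) (hF : AnalyticOnNhd ℂ F (ball 0 1))
    (hH : AnalyticOnNhd ℂ H (ball 0 1)) :
    Wave 0 (fun (t : UnitAddCircle) (x : sphere (0 : E n) 1) => fam u v F H (ee t) (x : E n)) := by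
  obtain ⟨q, hq⟩ := taylor F hF
  obtain ⟨q', hq'⟩ := taylor H hH
  have hkey : ∀ᵐ x : sphere (0 : E n) 1 ∂(sig n),
      (∀ k : ℕ, fourierCoeff (fun t : UnitAddCircle => fam u v F H (ee t) (x : E n)) k =
        (q k fun _ => Zc u v (x : E n)) +
          if k = 0 then conj (q' 0 fun _ => Zc u v (x : E n)) else 0) ∧
      ∀ k : ℕ, fourierCoeff (fun t : UnitAddCircle => fam u v F H (ee t) (x : E n)) (-(k : ℤ)) =
        conj (q' k fun _ => Zc u v (x : E n)) +
          if k = 0 then (q 0 fun _ => Zc u v (x : E n)) else 0 := by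
    filter_upwards [Zc_lt u v h hmn] with x hx
    have hz : Zc u v (x : E n) ∈ ball (0 : EuclideanSpace ℂ (Fin m)) 1 := by
      rw [mem_ball_zero_iff]
      exact hx
    have h1 := circle_coeff F H q q' (Zc u v (x : E n)) (hq _ hz) (hq' _ hz)
    have h2 : (fun t : UnitAddCircle => fam u v F H (ee t) (x : E n)) =
        fun t => F (ee t • Zc u v (x : E n)) + conj (H (ee t • Zc u v (x : E n))) := by
      funext t
      unfold fam
      rw [indicator_of_mem]
      exact hx
    rw [h2]
    exact h1
  constructor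
  · intro k
    refine ⟨hpoly u v (q k) + if k = 0 then cj (hpoly u v (q' k)) else 0, ?_, ?_⟩
    · refine (hpoly_harm u v h (q k)).add ?_
      by_cases hk : k = 0
      · rw [if_pos hk]
        exact (hpoly_harm u v h (q' k)).cj
      · rw [if_neg hk]
        exact Harm.zero k
    · filter_upwards [hkey] with x hx
      rw [hx.1 k, ev_add, ev_hpoly]
      congr 1
      by_cases hk : k = 0
      · subst hk
        rw [if_pos rfl, if_pos rfl, ev_cj, ev_hpoly]
      · rw [if_neg hk, if_neg hk, ev_zero]
  · intro k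
    refine ⟨cj (hpoly u v (q' k)) + if k = 0 then hpoly u v (q k) else 0, ?_, ?_⟩
    · refine (hpoly_harm u v h (q' k)).cj.add ?_
      by_cases hk : k = 0
      · rw [if_pos hk]
        exact hpoly_harm u v h (q k)
      · rw [if_neg hk]
        exact Harm.zero k
    · filter_upwards [hkey] with x hx
      rw [zero_add, hx.2 k, ev_add, ev_cj, ev_hpoly]
      congr 1
      by_cases hk : k = 0
      · subst hk
        rw [if_pos rfl, if_pos rfl, ev_hpoly]
      · rw [if_neg hk, if_neg hk, ev_zero]
  · intro k h1 h2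
    omega

end Pool.Agent.Helper969.HW
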