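import Mathlib
import Pool.Agent.Helper969.HW.G4
set_option autoImplicit false

/-! The estimate for pluriharmonic functions of few complex coordinates. -/

namespace Pool.Agent.Helper969.HW

open MeasureTheory Measure Set Metric Complex Filter
open Pool.Agent.H789R2.FR (E sg sg_finite sg_ae sg_inv T)
open Pool.Agent.H789R2.FR.L2 (ph norm_ph continuous_ph T_eq measurable_T)
open Pool.Agent.Y251.HR (sig sft sft_eq scale_int)
open scoped RealInnerProductSpace ENNReal NNReal ComplexConjugate Topology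

variable {n m : ℕ}

theorem T_rot (U : E n ≃ₗᵢ[ℝ] E n) (h : E n → ℂ) (x : E n) :
    T (fun w => h (U w)) x = T h (U x) := by
  rw [T_eq, T_eq, ← (sg_inv U).integral_comp U.toHomeomorph.measurableEmbedding
    (fun w => ph (U x) w * h w)]
  refine integral_congr_ae (Eventually.of_forall fun w => ?_)
  simp only
  congr 1
  unfold ph
  rw [LinearIsometryEquiv.inner_map_map]

theorem T_rot_int (U : E n ≃ₗᵢ[ℝ] E n) (h : E n → ℂ) (p : ℝ) :
    ∫⁻ x, ‖T (fun w => h (U w)) x‖ₑ ^ p = ∫⁻ x, ‖T h x‖ₑ ^ p := by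
  simp_rw [T_rot U h]
  exact (U.measurePreserving).lintegral_comp_emb U.toHomeomorph.measurableEmbedding
    (fun x => ‖T h x‖ₑ ^ p)

theorem four_sig (h : E n → ℂ) (hh : Measurable h) :
    ∫⁻ x : sphere (0 : E n) 1, ‖h (x : E n)‖ₑ ^ 4 ∂(sig n) = ∫⁻ w, ‖h w‖ₑ ^ 4 ∂(sg n) := by
  simp only [sg]
  rw [lintegral_map (hh.enorm.pow_const 4) measurable_subtype_coe]
  rfl

theorem sft_T (h : E n → ℂ) (hh : Measurable h) (p : ℝ) :
    ∫⁻ ξ, ‖sft (fun x : sphere (0 : E n) 1 => h (x : E n)) ξ‖ₑ ^ p =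
      ENNReal.ofReal ((2 * Real.pi) ^ n)⁻¹ * ∫⁻ z, ‖T h z‖ₑ ^ p := by
  have hfin := sg_finite n
  have hTm : Measurable (T h) := (measurable_T h hh).measurable
  rw [← scale_int (fun z => ‖T h z‖ₑ ^ p) (hTm.enorm.pow_const p)]
  refine lintegral_congr fun ξ => ?_
  rw [sft_eq (fun x : sphere (0 : E n) 1 => h (x : E n)) h hh (Eventually.of_forall fun _ => rfl) ξ]

theorem single_p (n : ℕ) (hn : 3 ≤ n) (p : ℝ) (hp : 2 * (n : ℝ) / (n - 1) < p) (hp4 : p < 4) :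
    ∃ C : ℝ, 0 < C ∧ ∀ (m : ℕ), 2 * m < n → ∀ (u v : Fin m → E n),
      Orthonormal ℝ (Sum.elim u v) → ∀ (F H : EuclideanSpace ℂ (Fin m) → ℂ),
      AnalyticOnNhd ℂ F (ball 0 1) → AnalyticOnNhd ℂ H (ball 0 1) →
      ∀ g : sphere (0 : E n) 1 → ℂ,
      (∀ᵐ x : sphere (0 : E n) 1 ∂(sig n), g x = F (Zc u v (x : E n)) + conj (H (Zc u v (x : E n)))) →
      ∀ B : ℝ≥0∞, B ≠ ⊤ → ∫⁻ x, ‖g x‖ₑ ^ 4 ∂(sig n) ≤ B →
      ∫⁻ ξ, ‖sft g ξ‖ₑ ^ p ≤ ENNReal.ofReal C * B ^ (p / 4) := by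
  obtain ⟨C, hC, h⟩ := core n hn p hp hp4
  refine ⟨C, hC, ?_⟩
  intro m hmn u v huv F H hF hH g hg B hB hgB
  have hFc : ContinuousOn F (ball 0 1) := hF.continuousOn
  have hHc : ContinuousOn H (ball 0 1) := hH.continuousOn
  have hW := fam_wave hmn u v huv F H hF hH
  have hm1 := fam_meas1 u v F H hFc hHc
  have hmt : ∀ z, ‖z‖ = 1 → Measurable (fam u v F H z) := by
    intro z hz
    have e : fam u v F H z = fun x => fam u v F H 1 (rotI u v huv z hz x) := by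
      funext x
      exact fam_rot u v huv F H z hz x
    rw [e]
    exact hm1.comp (rotI u v huv z hz).continuous.measurable
  have hgg : ∀ᵐ x : sphere (0 : E n) 1 ∂(sig n), g x = fam u v F H 1 (x : E n) := by
    filter_upwards [hg, Zc_lt u v huv hmn] with x h1 h2
    rw [h1]
    unfold fam
    rw [indicator_of_mem (show (x : E n) ∈ {x : E n | ‖Zc u v x‖ < 1} from h2), one_smul]
  have hB1 : ∫⁻ t, (∫⁻ x : sphere (0 : E n) 1, ‖fam u v F H (ee t) (x : E n)‖ₑ ^ 4 ∂(sig n)) ∂hm ≤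
      B := by
    have h1 : ∀ t : UnitAddCircle,
        ∫⁻ x : sphere (0 : E n) 1, ‖fam u v F H (ee t) (x : E n)‖ₑ ^ 4 ∂(sig n) ≤ B := by
      intro t
      refine le_trans (le_of_eq ?_) hgB
      rw [four_sig _ (hmt _ (norm_ee t))]
      have h2 : ∫⁻ x, ‖g x‖ₑ ^ 4 ∂(sig n) =
          ∫⁻ x : sphere (0 : E n) 1, ‖fam u v F H 1 (x : E n)‖ₑ ^ 4 ∂(sig n) := by
        refine lintegral_congr_ae ?_
        filter_upwards [hgg] with x hx
        rw [hx]
      rw [h2, four_sig _ hm1]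
      have h3 := (sg_inv (rotI u v huv (ee t) (norm_ee t))).lintegral_comp
        (f := fun w => ‖fam u v F H 1 w‖ₑ ^ 4) (hm1.enorm.pow_const 4)
      rw [← h3]
      refine lintegral_congr fun w => ?_
      rw [fam_rot u v huv F H (ee t) (norm_ee t)]
    refine (lintegral_mono h1).trans (le_of_eq ?_)
    rw [lintegral_const, measure_univ, mul_one]
  have h1 := h 0 _ (fam_meas u v huv F H hFc hHc) hW B hB hB1
  have h2 : ∀ t : UnitAddCircle, ∫⁻ ξ, ‖sft (fun x : sphere (0 : E n) 1 =>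
      fam u v F H (ee t) (x : E n)) ξ‖ₑ ^ p = ∫⁻ ξ, ‖sft g ξ‖ₑ ^ p := by
    intro t
    have h3 : sft g = sft (fun x : sphere (0 : E n) 1 => fam u v F H 1 (x : E n)) := by
      funext ξ
      unfold sft
      refine integral_congr_ae ?_
      filter_upwards [hgg] with x hx
      rw [hx]
    rw [h3, sft_T _ (hmt _ (norm_ee t)), sft_T _ hm1]
    congr 1
    have h4 : fam u v F H (ee t) = fun w => fam u v F H 1 (rotI u v huv (ee t) (norm_ee t) w) := by
      funext w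
      exact fam_rot u v huv F H (ee t) (norm_ee t) w
    rw [h4]
    exact T_rot_int _ _ p
  simp_rw [h2] at h1
  rwa [lintegral_const, measure_univ, mul_one] at h1

theorem holder_sig (g : sphere (0 : E n) 1 → ℂ) (hg : AEStronglyMeasurable g (sig n)) :
    ∫⁻ w, ‖g w‖ₑ ∂(sig n) ≤ (sig n univ) ^ (3 / 4 : ℝ) *
      (∫⁻ w, ‖g w‖ₑ ^ 4 ∂(sig n)) ^ (1 / 4 : ℝ) := by
  have h := ENNReal.lintegral_mul_norm_pow_le (μ := sig n) (f := fun _ => (1 : ℝ≥0∞))
    (g := fun w => ‖g w‖ₑ ^ 4) aemeasurable_const (hg.enorm.pow_const 4)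
    (by norm_num : (0 : ℝ) ≤ 3 / 4) (by norm_num : (0 : ℝ) ≤ 1 / 4) (by norm_num)
  simp only [ENNReal.one_rpow, one_mul, lintegral_const] at h
  refine le_trans (le_of_eq ?_) h
  refine lintegral_congr fun w => ?_
  rw [← ENNReal.rpow_natCast, ← ENNReal.rpow_mul]
  norm_num

theorem sft_cont_meas (g : sphere (0 : E n) 1 → ℂ) (hg : AEStronglyMeasurable g (sig n)) :
    Measurable (sft g) := by
  have h0 : sft g = sft (hg.mk g) := by
    funext ξ
    unfold sft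
    refine integral_congr_ae ?_
    filter_upwards [hg.ae_eq_mk] with x hx
    rw [hx]
  rw [h0]
  have hm1 : Measurable (hg.mk g) := hg.stronglyMeasurable_mk.measurable
  have h1 := sft_joint (fun (_ : UnitAddCircle) => hg.mk g) (hm1.comp measurable_snd)
  have h2 := h1.comp (measurable_prodMk_left (x := (0 : UnitAddCircle)))
  exact h2

theorem single_q (n : ℕ) (hn : 3 ≤ n) (q : ℝ) (hq : 2 * (n : ℝ) / (n - 1) < q) :
    ∃ C : ℝ≥0, ∀ (m : ℕ), 2 * m < n → ∀ (u v : Fin m → E n),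
      Orthonormal ℝ (Sum.elim u v) → ∀ (F H : EuclideanSpace ℂ (Fin m) → ℂ),
      AnalyticOnNhd ℂ F (ball 0 1) → AnalyticOnNhd ℂ H (ball 0 1) →
      ∀ g : sphere (0 : E n) 1 → ℂ,
      (∀ᵐ x : sphere (0 : E n) 1 ∂(sig n), g x = F (Zc u v (x : E n)) + conj (H (Zc u v (x : E n)))) →
      MemLp g 4 (sig n) →
      MemLp (sft g) (ENNReal.ofReal q) ∧
      eLpNorm (sft g) (ENNReal.ofReal q) ≤ C * eLpNorm g 4 (sig n) := by
  have hn' : (3 : ℝ) ≤ n := by exact_mod_cast hn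
  have hlt4 : 2 * (n : ℝ) / (n - 1) < 4 := by
    rw [div_lt_iff₀ (by linarith)]
    linarith
  have hlt2 : 0 < 2 * (n : ℝ) / (n - 1) := by
    have : (0 : ℝ) < n - 1 := by linarith
    positivity
  obtain ⟨p, hp1, hp2⟩ := exists_between (lt_min hq hlt4)
  have hpq : p < q := lt_of_lt_of_le hp2 (min_le_left _ _)
  have hp4 : p < 4 := lt_of_lt_of_le hp2 (min_le_right _ _)
  have hp0 : 0 < p := by linarith
  have hq0 : 0 < q := by linarith
  obtain ⟨C, hC, h⟩ := single_p n hn p hp1 hp4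
  set A := sig n univ with hA
  have hAt : A ≠ ⊤ := measure_ne_top _ _
  set K : ℝ≥0∞ := (A ^ (3 / 4 : ℝ)) ^ (q - p) * ENNReal.ofReal C with hK
  have hKt : K ≠ ⊤ := ENNReal.mul_ne_top (ENNReal.rpow_ne_top_of_nonneg (by linarith)
    (ENNReal.rpow_ne_top_of_nonneg (by norm_num) hAt)) ENNReal.ofReal_ne_top
  have hK1 : K ^ (1 / q) ≠ ⊤ := ENNReal.rpow_ne_top_of_nonneg (by positivity) hKt
  refine ⟨(K ^ (1 / q)).toNNReal, ?_⟩
  intro m hmn u v huv F H hF hH g hg hg4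
  rw [ENNReal.coe_toNNReal hK1]
  set B : ℝ≥0∞ := ∫⁻ x, ‖g x‖ₑ ^ 4 ∂(sig n) with hB
  have hBe : eLpNorm g 4 (sig n) = B ^ (1 / 4 : ℝ) := by
    rw [eLpNorm_eq_lintegral_rpow_enorm_toReal (by norm_num) (by norm_num)]
    simp only [ENNReal.toReal_ofNat, ENNReal.rpow_ofNat]
    rfl
  have hBt : B ≠ ⊤ := by
    intro hcon
    have := hg4.2
    rw [hBe, hcon, ENNReal.top_rpow_of_pos (by norm_num)] at this
    exact lt_irrefl _ this
  have h1 := h m hmn u v huv F H hF hH g hg B hBt le_rfl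
  have hs : ∀ ξ, ‖sft g ξ‖ₑ ≤ A ^ (3 / 4 : ℝ) * B ^ (1 / 4 : ℝ) := fun ξ =>
    (sft_le g ξ).trans (holder_sig g hg4.1)
  have hst : A ^ (3 / 4 : ℝ) * B ^ (1 / 4 : ℝ) ≠ ⊤ :=
    ENNReal.mul_ne_top (ENNReal.rpow_ne_top_of_nonneg (by norm_num) hAt)
      (ENNReal.rpow_ne_top_of_nonneg (by norm_num) hBt)
  have h2 : ∫⁻ ξ, ‖sft g ξ‖ₑ ^ q ≤ K * B ^ (q / 4) := by
    refine (up (sft g) _ hs hst p q hp0.le hpq.le).trans ?_
    refine (mul_le_mul' le_rfl h1).trans (le_of_eq ?_)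
    rw [ENNReal.mul_rpow_of_nonneg _ _ (by linarith), ← ENNReal.rpow_mul B, hK]
    have e : B ^ (q / 4) = B ^ (1 / 4 * (q - p)) * B ^ (p / 4) := by
      rw [← ENNReal.rpow_add_of_nonneg _ _ (by nlinarith) (by linarith)]
      congr 1
      ring
    rw [e]
    ring
  have h3 : eLpNorm (sft g) (ENNReal.ofReal q) ≤ K ^ (1 / q) * eLpNorm g 4 (sig n) := by
    rw [eLpNorm_eq_lintegral_rpow_enorm_toReal
      (by rw [Ne, ENNReal.ofReal_eq_zero, not_le]; exact hq0) ENNReal.ofReal_ne_top,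
      ENNReal.toReal_ofReal hq0.le, hBe]
    refine (ENNReal.rpow_le_rpow h2 (by positivity)).trans (le_of_eq ?_)
    rw [ENNReal.mul_rpow_of_nonneg _ _ (by positivity), ← ENNReal.rpow_mul]
    congr 2
    field_simp
  refine ⟨⟨(sft_cont_meas g hg4.1).aestronglyMeasurable, lt_of_le_of_lt h3 ?_⟩, h3⟩
  exact ENNReal.mul_lt_top (lt_top_iff_ne_top.2 hK1) hg4.2

end Pool.Agent.Helper969.HW
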